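import Pool.Agent.Helper22.FW.Noise
import Pool.Agent.Helper6.VS.Count

/-!
# ADD (finite form): exact copies glued over the centre, the frozen partner and the first coordinate have the same
second coordinates

`y = z + τ A + T c + err`, `T, A` functions of `P`, `τ, c` functions of `Q`; `L` is any function of `P` which determines
the cell of `T`. Two copies glued over `lab = (F, Q, L, cell of y)`.
-/

set_option autoImplicit false

namespace Pool.Agent.Helper22.FW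

open Finset Pool.Agent.Helper69.RK Pool.Agent.Helper61.GL Pool.Agent.Helper31.EC Pool.Agent.Helper6.VS

variable {Ω φ π κ Λ : Type} [Fintype Ω] {N : ℕ}

/-- the data of an exact pair -/
structure AddD (μ : Ω → ℝ) (F : Ω → φ) (P : Ω → π) (Q : Ω → κ) (L : Ω → Λ) (T τ : Ω → ℝ)
    (A c z y : Ω → Fin N → ℝ) (n : ℕ) (K : ℝ) : Prop where
  nn : ∀ ω, 0 ≤ μ ω
  ms : mass μ = 1
  hP : ∀ ω ω', μ ω ≠ 0 → μ ω' ≠ 0 → P ω = P ω' → T ω = T ω' ∧ A ω = A ω' ∧ L ω = L ω'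
  hL : ∀ ω ω', μ ω ≠ 0 → μ ω' ≠ 0 → L ω = L ω' → fl n (T ω) = fl n (T ω')
  hQ : ∀ ω ω', μ ω ≠ 0 → μ ω' ≠ 0 → Q ω = Q ω' → τ ω = τ ω' ∧ c ω = c ω'
  K1 : 1 ≤ K
  bT : ∀ ω, μ ω ≠ 0 → |τ ω| ≤ K
  bc : ∀ ω, μ ω ≠ 0 → ∀ i, |c ω i| ≤ K
  bz : ∀ ω, μ ω ≠ 0 → ∀ i, |z ω i| ≤ K
  hy : ∀ ω, μ ω ≠ 0 → ∀ i, |y ω i - z ω i - τ ω * A ω i - T ω * c ω i| ≤ K * (2 ^ n)⁻¹

/-- the glue -/
noncomputable def lab (F : Ω → φ) (Q : Ω → κ) (L : Ω → Λ) (y : Ω → Fin N → ℝ) (n : ℕ) (ω : Ω) :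
    (Λ × (κ × (Fin N → ℤ))) × φ := ((L ω, (Q ω, vf n (y ω))), F ω)

variable {μ : Ω → ℝ} {F : Ω → φ} {P : Ω → π} {Q : Ω → κ} {L : Ω → Λ} {T τ : Ω → ℝ} {A c z y : Ω → Fin N → ℝ}
  {n : ℕ} {K : ℝ}

/-- cells of `z` and `y` determine each other over `(P, Q)` -/
theorem AddD.zy (h : AddD μ F P Q L T τ A c z y n K) {Ω' ξ : Type} [Fintype Ω'] (ν : Ω' → ℝ) (hν : ∀ w, 0 ≤ ν w)
    (p : Ω' → Ω) (hp : ∀ w, ν w ≠ 0 → μ (p w) ≠ 0) (X : Ω' → ξ)
    (hX : ∀ w w', ν w ≠ 0 → ν w' ≠ 0 → X w = X w' → P (p w) = P (p w') ∧ Q (p w) = Q (p w')) :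
    CH ν (fun w => vf n (z (p w))) (fun w => (vf n (y (p w)), X w)) ≤ N * Real.logb 2 (8 * K) * mass ν ∧
    CH ν (fun w => vf n (y (p w))) (fun w => (vf n (z (p w)), X w)) ≤ N * Real.logb 2 (8 * K) * mass ν := by
  have hK := h.K1
  have h0 : (0 : ℝ) < (2 ^ n)⁻¹ := by positivity
  have h1 : ∀ w w', ν w ≠ 0 → ν w' ≠ 0 → X w = X w' → ∀ i,
      |(y (p w) i - z (p w) i) - (y (p w') i - z (p w') i)| ≤ 2 * K * (2 ^ n)⁻¹ := by
    intro w w' a a' e i
    obtain ⟨e1, e2⟩ := hX w w' a a' e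
    obtain ⟨q1, q2, -⟩ := h.hP _ _ (hp w a) (hp w' a') e1
    obtain ⟨q3, q4⟩ := h.hQ _ _ (hp w a) (hp w' a') e2
    have g1 := h.hy _ (hp w a) i
    have g2 := h.hy _ (hp w' a') i
    rw [← q1, ← q2, ← q3, ← q4] at g2
    have e3 : (y (p w) i - z (p w) i) - (y (p w') i - z (p w') i) =
        (y (p w) i - z (p w) i - τ (p w) * A (p w) i - T (p w) * c (p w) i) -
        (y (p w') i - z (p w') i - τ (p w) * A (p w) i - T (p w) * c (p w) i) := by ring
    rw [e3]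
    refine (abs_sub _ _).trans ?_
    linarith
  have hM := mass_nonneg' ν hν
  have hl : Real.logb 2 (3 * K + 1 + 1) ≤ Real.logb 2 (8 * K) := logb_mono' (by linarith) (by linarith)
  have k3 : (2 ^ n : ℝ)⁻¹ + 2 * K * (2 ^ n)⁻¹ ≤ 3 * K * (2 ^ n)⁻¹ := by
    have := le_mul_of_one_le_left h0.le hK
    linarith
  constructor
  · refine (ch_vec ν hν _ _ (3 * K + 1) (by linarith) ?_).trans
      (mul_le_mul_of_nonneg_right (mul_le_mul_of_nonneg_left hl (Nat.cast_nonneg N)) hM)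
    intro w w' a a' e i
    rw [Prod.mk.injEq] at e
    have c1 := close_of_fl (congrFun e.1 i)
    have c2 := h1 w w' a a' e.2 i
    apply fl_close
    have e3 : z (p w) i - z (p w') i = (y (p w) i - y (p w') i) -
        ((y (p w) i - z (p w) i) - (y (p w') i - z (p w') i)) := by ring
    rw [e3]
    refine (abs_sub _ _).trans ?_
    linarith
  · refine (ch_vec ν hν _ _ (3 * K + 1) (by linarith) ?_).trans
      (mul_le_mul_of_nonneg_right (mul_le_mul_of_nonneg_left hl (Nat.cast_nonneg N)) hM)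
    intro w w' a a' e i
    rw [Prod.mk.injEq] at e
    have c1 := close_of_fl (congrFun e.1 i)
    have c2 := h1 w w' a a' e.2 i
    apply fl_close
    have e3 : y (p w) i - y (p w') i = (z (p w) i - z (p w') i) +
        ((y (p w) i - z (p w) i) - (y (p w') i - z (p w') i)) := by ring
    rw [e3]
    refine (abs_add_le _ _).trans ?_
    linarith

section copies

variable (h : AddD μ F P Q L T τ A c z y n K)
include h

/-- the pair of copies -/
noncomputable def cp (μ : Ω → ℝ) (F : Ω → φ) (Q : Ω → κ) (L : Ω → Λ) (y : Ω → Fin N → ℝ) (n : ℕ) : Ω × Ω → ℝ :=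
  amw μ μ (lab F Q L y n) (lab F Q L y n)

theorem AddD.cpn (w : Ω × Ω) : 0 ≤ cp μ F Q L y n w := amw_nonneg _ _ _ _ h.nn h.nn w

omit h in
theorem cp_supp (w : Ω × Ω) (hw : cp μ F Q L y n w ≠ 0) :
    (L w.1 = L w.2 ∧ Q w.1 = Q w.2 ∧ vf n (y w.1) = vf n (y w.2) ∧ F w.1 = F w.2) ∧ μ w.1 ≠ 0 ∧ μ w.2 ≠ 0 := by
  obtain ⟨a, b, d⟩ := amw_supp _ _ _ _ w hw
  unfold lab at a
  simp only [Prod.mk.injEq] at a
  exact ⟨⟨a.1.1, a.1.2.1, a.1.2.2, a.2⟩, b, d⟩

theorem AddD.push1 : push Prod.fst (cp μ F Q L y n) = μ := amw_push_fst _ _ _ _ (fun _ => rfl) h.nn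

theorem AddD.push2 : push Prod.snd (cp μ F Q L y n) = μ := amw_push_snd _ _ _ _ (fun _ => rfl) h.nn

theorem AddD.cp_mass : mass (cp μ F Q L y n) = 1 := by
  rw [← push_mass Prod.fst _ h.cpn, h.push1, h.ms]

theorem AddD.ch1 {α β : Type} (f : Ω → α) (g : Ω → β) :
    CH (cp μ F Q L y n) (fun w => f w.1) (fun w => g w.1) = CH μ f g := by
  rw [← push_CH Prod.fst _ h.cpn f g, h.push1]

theorem AddD.ch2 {α β : Type} (f : Ω → α) (g : Ω → β) :
    CH (cp μ F Q L y n) (fun w => f w.2) (fun w => g w.2) = CH μ f g := by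
  rw [← push_CH Prod.snd _ h.cpn f g, h.push2]

/-- the defect of the centre and the partner over `P` -/
theorem AddD.defect {ε2 ε3 : ℝ}
    (i2 : CH μ (fun ω => vf n (y ω)) F - CH μ (fun ω => vf n (y ω)) (fun ω => (P ω, (Q ω, F ω))) ≤ ε2)
    (i3 : CH μ P F - CH μ P (fun ω => (Q ω, F ω)) ≤ ε3) :
    CH μ P F - CH μ P (fun ω => ((Q ω, vf n (y ω)), F ω)) ≤ ε2 + ε3 := by
  have a1 := ch_symm μ P (fun ω => vf n (y ω)) (fun ω => (Q ω, F ω))
  have a2 : CH μ (fun ω => vf n (y ω)) (fun ω => (Q ω, F ω)) ≤ CH μ (fun ω => vf n (y ω)) F :=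
    ch_cond μ h.nn _ _ _ fun ω ω' _ _ e => (Prod.ext_iff.1 e).2
  have a3 : CH μ P (fun ω => (vf n (y ω), (Q ω, F ω))) = CH μ P (fun ω => ((Q ω, vf n (y ω)), F ω)) := by
    apply ch_congr_right
    intro ω ω' _ _
    simp only [Prod.mk.injEq]
    tauto
  linarith

/-- **(*)**: the partner and the centre are independent of the two copies -/
theorem AddD.star {δ : ℝ} (hδ : CH μ P F - CH μ P (fun ω => ((Q ω, vf n (y ω)), F ω)) ≤ δ) :
    CH μ (fun ω => (Q ω, vf n (y ω))) F - 3 * δ ≤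
      CH (cp μ F Q L y n) (fun w => (Q w.1, vf n (y w.1))) (fun w => ((P w.1, P w.2), F w.1)) := by
  obtain ⟨ν, hν⟩ : ∃ ν, ν = cp μ F Q L y n := ⟨_, rfl⟩
  have n0 : ∀ w, 0 ≤ ν w := by rw [hν]; exact h.cpn
  have sp : ∀ w, ν w ≠ 0 → (L w.1 = L w.2 ∧ Q w.1 = Q w.2 ∧ vf n (y w.1) = vf n (y w.2) ∧ F w.1 = F w.2) ∧
      μ w.1 ≠ 0 ∧ μ w.2 ≠ 0 := by
    intro w hw
    rw [hν] at hw
    exact cp_supp w hw
  rw [← hν]
  -- facts on `μ`
  have b1 : CH μ (fun ω => (L ω, P ω)) F = CH μ P F := by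
    apply ch_congr_left
    intro ω ω' a a' _
    rw [Prod.mk.injEq]
    exact ⟨fun e => e.2, fun e => ⟨(h.hP ω ω' a a' e).2.2, e⟩⟩
  have b2 := ch_chain μ L P F
  have b3 : CH μ (fun ω => (L ω, P ω)) (fun ω => ((Q ω, vf n (y ω)), F ω)) =
      CH μ P (fun ω => ((Q ω, vf n (y ω)), F ω)) := by
    apply ch_congr_left
    intro ω ω' a a' _
    rw [Prod.mk.injEq]
    exact ⟨fun e => e.2, fun e => ⟨(h.hP ω ω' a a' e).2.2, e⟩⟩
  have b4 := ch_chain μ L P (fun ω => ((Q ω, vf n (y ω)), F ω))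
  have b5 : CH μ L (fun ω => ((Q ω, vf n (y ω)), F ω)) ≤ CH μ L F :=
    ch_cond μ h.nn _ _ _ fun ω ω' _ _ e => (Prod.ext_iff.1 e).2
  have b6 : CH μ P (fun ω => (L ω, ((Q ω, vf n (y ω)), F ω))) = CH μ P (lab F Q L y n) := by
    apply ch_congr_right
    intro ω ω' _ _
    unfold lab
    simp only [Prod.mk.injEq]
    tauto
  -- `u' ≥ u - δ`
  have u1 : CH μ P (fun ω => (L ω, F ω)) - δ ≤ CH μ P (lab F Q L y n) := by linarith
  -- `(Q, yy)` over `(L, F)`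
  have d1 : CH μ (fun ω => (Q ω, vf n (y ω))) (fun ω => (P ω, F ω)) ≤
      CH μ (fun ω => (Q ω, vf n (y ω))) (fun ω => (L ω, F ω)) := by
    apply ch_cond μ h.nn
    intro ω ω' a a' e
    rw [Prod.mk.injEq] at e ⊢
    exact ⟨(h.hP ω ω' a a' e.1).2.2, e.2⟩
  have d2 := ch_symm μ (fun ω => (Q ω, vf n (y ω))) P F
  have d3 : CH μ (fun ω => (Q ω, vf n (y ω))) F - δ ≤ CH μ (fun ω => (Q ω, vf n (y ω))) (fun ω => (L ω, F ω)) := by
    linarith
  -- the copies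
  have p1 : CH ν (fun w => P w.1) (fun w => (P w.2, lab F Q L y n w.1)) = CH μ P (lab F Q L y n) := by
    rw [hν]
    exact amw_CH _ _ _ _ (fun _ => rfl) h.nn h.nn P P
  have p2 : CH ν (fun w => P w.2) (fun w => lab F Q L y n w.1) = CH μ P (lab F Q L y n) := by
    have e1 : CH ν (fun w => P w.2) (fun w => lab F Q L y n w.1) = CH ν (fun w => P w.2) (fun w => lab F Q L y n w.2) := by
      apply ch_congr_right
      intro w w' a a'
      obtain ⟨⟨x1, x2, x3, x4⟩, -⟩ := sp w a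
      obtain ⟨⟨y1, y2, y3, y4⟩, -⟩ := sp w' a'
      unfold lab
      rw [x1, x2, x3, x4, y1, y2, y3, y4]
    rw [e1, hν]
    exact h.ch2 P (lab F Q L y n)
  have p3 := ch_chain ν (fun w => P w.2) (fun w => P w.1) (fun w => lab F Q L y n w.1)
  -- upper bound for the two copies over `(L, F)`
  have r1 : CH ν (fun w => (P w.1, P w.2)) (fun w => (L w.1, F w.1)) ≤ 2 * CH μ P (fun ω => (L ω, F ω)) := by
    have e1 := ch_pair_le ν n0 (fun w => P w.1) (fun w => P w.2) (fun w => (L w.1, F w.1))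
    have e2 : CH ν (fun w => P w.1) (fun w => (L w.1, F w.1)) = CH μ P (fun ω => (L ω, F ω)) := by
      rw [hν]
      exact h.ch1 P (fun ω => (L ω, F ω))
    have e3 : CH ν (fun w => P w.2) (fun w => (L w.1, F w.1)) = CH μ P (fun ω => (L ω, F ω)) := by
      have e4 : CH ν (fun w => P w.2) (fun w => (L w.1, F w.1)) = CH ν (fun w => P w.2) (fun w => (L w.2, F w.2)) := by
        apply ch_congr_right
        intro w w' a a'
        obtain ⟨⟨x1, -, -, x4⟩, -⟩ := sp w a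
        obtain ⟨⟨y1, -, -, y4⟩, -⟩ := sp w' a'
        rw [x1, x4, y1, y4]
      rw [e4, hν]
      exact h.ch2 P (fun ω => (L ω, F ω))
    linarith
  -- total entropy in two ways
  have t1 := ch_chain ν (fun w => (L w.1, (Q w.1, vf n (y w.1)))) (fun w => (P w.2, P w.1)) (fun w => F w.1)
  have t2 : CH ν (fun w => (L w.1, (Q w.1, vf n (y w.1)))) (fun w => F w.1) =
      CH μ (fun ω => (L ω, (Q ω, vf n (y ω)))) F := by
    rw [hν]
    exact h.ch1 (fun ω => (L ω, (Q ω, vf n (y ω)))) F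
  have t3 := ch_chain μ L (fun ω => (Q ω, vf n (y ω))) F
  have t4 : CH ν (fun w => (P w.2, P w.1)) (fun w => ((L w.1, (Q w.1, vf n (y w.1))), F w.1)) =
      CH ν (fun w => (P w.2, P w.1)) (fun w => lab F Q L y n w.1) := rfl
  have t5 : CH ν (fun w => ((L w.1, (Q w.1, vf n (y w.1))), (P w.2, P w.1))) (fun w => F w.1) =
      CH ν (fun w => ((P w.1, P w.2), (Q w.1, vf n (y w.1)))) (fun w => F w.1) := by
    apply ch_congr_left
    intro w w' a a' _
    obtain ⟨-, x5, -⟩ := sp w a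
    obtain ⟨-, y5, -⟩ := sp w' a'
    simp only [Prod.mk.injEq]
    constructor
    · rintro ⟨⟨e1, e2, e3⟩, e4, e5⟩
      exact ⟨⟨e5, e4⟩, e2, e3⟩
    · rintro ⟨⟨e5, e4⟩, e2, e3⟩
      exact ⟨⟨(h.hP _ _ x5 y5 e5).2.2, e2, e3⟩, e4, e5⟩
  have t6 := ch_chain ν (fun w => (P w.1, P w.2)) (fun w => (Q w.1, vf n (y w.1))) (fun w => F w.1)
  have t7 : CH ν (fun w => (P w.1, P w.2)) (fun w => F w.1) ≤
      CH μ L F + 2 * CH μ P (fun ω => (L ω, F ω)) := by
    have e1 := ch_tri ν n0 (fun w => (P w.1, P w.2)) (fun w => L w.1) (fun w => F w.1)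
    have e2 : CH ν (fun w => L w.1) (fun w => F w.1) = CH μ L F := by
      rw [hν]
      exact h.ch1 L F
    linarith
  linarith

/-- the numbers of the pair -/
structure AddN (μ : Ω → ℝ) (F : Ω → φ) (P : Ω → π) (Q : Ω → κ) (τ : Ω → ℝ)
    (z y : Ω → Fin N → ℝ) (n : ℕ) (ε1 ε2 ε3 ε4 : ℝ) : Prop where
  i1 : CH μ (fun ω => vf n (z ω)) F - CH μ (fun ω => vf n (z ω)) (fun ω => (P ω, (Q ω, F ω))) ≤ ε1
  i2 : CH μ (fun ω => vf n (y ω)) F - CH μ (fun ω => vf n (y ω)) (fun ω => (P ω, (Q ω, F ω))) ≤ ε2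
  i3 : CH μ P F - CH μ P (fun ω => (Q ω, F ω)) ≤ ε3
  i4 : n - ε4 ≤ CH μ (fun ω => fl n (τ ω)) F

/-- the total defect -/
noncomputable def dl (N : ℕ) (K ε1 ε2 ε3 : ℝ) : ℝ := ε1 + 3 * (ε2 + ε3) + 2 * (N * Real.logb 2 (8 * K))

/-- realness of `τ` over the start of the first copy and independence of the start of the second copy -/
theorem AddD.real_ind {ε1 ε2 ε3 ε4 : ℝ} (m : AddN μ F P Q τ z y n ε1 ε2 ε3 ε4) :
    n - ε4 - dl N K ε1 ε2 ε3 ≤ CH (cp μ F Q L y n) (fun w => fl n (τ w.1))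
        (fun w => (vf n (z w.1), ((P w.1, P w.2), F w.1))) ∧
    CH μ (fun ω => vf n (z ω)) F - dl N K ε1 ε2 ε3 ≤ CH (cp μ F Q L y n) (fun w => vf n (z w.1))
        (fun w => ((P w.1, P w.2), F w.1)) ∧
    CH μ (fun ω => vf n (z ω)) F - dl N K ε1 ε2 ε3 ≤ CH (cp μ F Q L y n) (fun w => vf n (z w.2))
        (fun w => ((P w.1, P w.2), F w.1)) := by
  obtain ⟨ν, hν⟩ : ∃ ν, ν = cp μ F Q L y n := ⟨_, rfl⟩
  have n0 : ∀ w, 0 ≤ ν w := by rw [hν]; exact h.cpn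
  have hm : mass ν = 1 := by rw [hν]; exact h.cp_mass
  have sp : ∀ w, ν w ≠ 0 → (L w.1 = L w.2 ∧ Q w.1 = Q w.2 ∧ vf n (y w.1) = vf n (y w.2) ∧ F w.1 = F w.2) ∧
      μ w.1 ≠ 0 ∧ μ w.2 ≠ 0 := by
    intro w hw
    rw [hν] at hw
    exact cp_supp w hw
  have st := h.star (h.defect m.i2 m.i3)
  rw [← hν] at st ⊢
  obtain ⟨X, hX⟩ : ∃ X : Ω × Ω → (π × π) × φ, X = fun w => ((P w.1, P w.2), F w.1) := ⟨_, rfl⟩
  have eX : ∀ w, ((P w.1, P w.2), F w.1) = X w := fun w => by rw [hX]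
  simp only [eX] at st ⊢
  have xF : ∀ w w', X w = X w' → F w.1 = F w'.1 := by
    intro w w' e
    rw [hX] at e
    exact (Prod.ext_iff.1 e).2
  have xP : ∀ w w', X w = X w' → P w.1 = P w'.1 ∧ P w.2 = P w'.2 := by
    intro w w' e
    rw [hX] at e
    simp only [Prod.mk.injEq] at e
    exact e.1
  -- `μ` facts
  have a0 := ch_chain μ Q (fun ω => vf n (y ω)) F
  have a1 : CH μ (fun ω => vf n (y ω)) (fun ω => (P ω, (Q ω, F ω))) ≤ CH μ (fun ω => vf n (y ω)) (fun ω => (Q ω, F ω)) :=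
    ch_cond μ h.nn _ _ _ fun ω ω' _ _ e => (Prod.ext_iff.1 e).2
  have a2 := ch_tri μ h.nn (fun ω => vf n (z ω)) (fun ω => vf n (y ω)) (fun ω => (P ω, (Q ω, F ω)))
  have a3 := (h.zy μ h.nn (fun ω => ω) (fun _ hh => hh) (fun ω => (P ω, (Q ω, F ω))) (fun ω ω' _ _ e => by
    simp only [Prod.mk.injEq] at e
    exact ⟨e.1, e.2.1⟩)).1
  rw [h.ms, mul_one] at a3
  have a4 : CH μ (fun ω => vf n (z ω)) F - ε1 - N * Real.logb 2 (8 * K) ≤
      CH μ (fun ω => vf n (y ω)) (fun ω => (Q ω, F ω)) := by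
    have := m.i1
    linarith
  -- passing from `y` to `z`, both copies
  have hzy : ∀ p : Ω × Ω → Ω, (∀ w, ν w ≠ 0 → μ (p w) ≠ 0 ∧ Q (p w) = Q w.1 ∧ vf n (y (p w)) = vf n (y w.1) ∧
      (∀ w', X w = X w' → P (p w) = P (p w'))) →
      CH ν (fun w => (Q w.1, vf n (y w.1))) X - N * Real.logb 2 (8 * K) ≤
        CH ν (fun w => (Q w.1, vf n (z (p w)))) X := by
    intro p hp
    have e1 := ch_tri ν n0 (fun w => (Q w.1, vf n (y w.1))) (fun w => (Q w.1, vf n (z (p w)))) X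
    have e2 := (h.zy ν n0 p (fun w a => (hp w a).1) (fun w => (Q w.1, X w)) (fun w w' a a' e => by
      rw [Prod.mk.injEq] at e
      obtain ⟨-, x2, -, x4⟩ := hp w a
      obtain ⟨-, y2, -, y4⟩ := hp w' a'
      exact ⟨x4 w' e.2, by rw [x2, y2, e.1]⟩)).2
    rw [hm, mul_one] at e2
    have e3 : CH ν (fun w => (Q w.1, vf n (y w.1))) (fun w => ((Q w.1, vf n (z (p w))), X w)) ≤
        CH ν (fun w => vf n (y (p w))) (fun w => (vf n (z (p w)), (Q w.1, X w))) := by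
      have e4 : CH ν (fun w => vf n (y (p w))) (fun w => (vf n (z (p w)), (Q w.1, X w))) =
          CH ν (fun w => vf n (y (p w))) (fun w => ((Q w.1, vf n (z (p w))), X w)) := by
        apply ch_congr_right
        intro w w' _ _
        simp only [Prod.mk.injEq]
        tauto
      rw [e4]
      apply ch_mono ν n0
      intro w w' a a' e e'
      simp only [Prod.mk.injEq] at e' ⊢
      obtain ⟨-, -, x3, -⟩ := hp w a
      obtain ⟨-, -, y3, -⟩ := hp w' a'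
      exact ⟨e'.1.1, by rw [← x3, ← y3]; exact e⟩
    linarith
  have hz1 := hzy (fun w => w.1) (fun w a => ⟨(sp w a).2.1, rfl, rfl, fun w' e => (xP w w' e).1⟩)
  have hz2 := hzy (fun w => w.2) (fun w a => by
    obtain ⟨⟨-, x2, x3, -⟩, -, x6⟩ := sp w a
    exact ⟨x6, x2.symm, x3.symm, fun w' e => (xP w w' e).2⟩)
  beta_reduce at hz1 hz2
  have q1 : CH ν (fun w => Q w.1) X ≤ CH μ Q F := by
    have e1 : CH ν (fun w => Q w.1) (fun w => F w.1) = CH μ Q F := by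
      rw [hν]; exact h.ch1 Q F
    rw [← e1]
    exact ch_cond ν n0 _ _ _ fun w w' _ _ e => xF w w' e
  have z1 : CH ν (fun w => vf n (z w.1)) X ≤ CH μ (fun ω => vf n (z ω)) F := by
    have e1 : CH ν (fun w => vf n (z w.1)) (fun w => F w.1) = CH μ (fun ω => vf n (z ω)) F := by
      rw [hν]; exact h.ch1 (fun ω => vf n (z ω)) F
    rw [← e1]
    exact ch_cond ν n0 _ _ _ fun w w' _ _ e => xF w w' e
  unfold dl
  refine ⟨?_, ?_, ?_⟩
  · -- `τ` is real
    have e1 := ch_chain ν (fun w => vf n (z w.1)) (fun w => Q w.1) X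
    have e2 : CH ν (fun w => (vf n (z w.1), Q w.1)) X = CH ν (fun w => (Q w.1, vf n (z w.1))) X := by
      apply ch_congr_left
      intro w w' _ _ _
      rw [Prod.mk.injEq, Prod.mk.injEq]
      exact ⟨fun e => ⟨e.2, e.1⟩, fun e => ⟨e.2, e.1⟩⟩
    have e3 := ch_tri ν n0 (fun w => Q w.1) (fun w => fl n (τ w.1)) (fun w => (vf n (z w.1), X w))
    have e4 : CH ν (fun w => Q w.1) (fun w => (fl n (τ w.1), (vf n (z w.1), X w))) ≤
        CH μ Q (fun ω => (fl n (τ ω), F ω)) := by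
      have e5 : CH ν (fun w => Q w.1) (fun w => (fl n (τ w.1), F w.1)) = CH μ Q (fun ω => (fl n (τ ω), F ω)) := by
        rw [hν]; exact h.ch1 Q (fun ω => (fl n (τ ω), F ω))
      rw [← e5]
      apply ch_cond ν n0
      intro w w' _ _ e
      simp only [Prod.mk.injEq] at e ⊢
      exact ⟨e.1, xF w w' e.2.2⟩
    have e6 := ch_chain μ (fun ω => fl n (τ ω)) Q F
    have e7 : CH μ (fun ω => (fl n (τ ω), Q ω)) F = CH μ Q F := by
      apply ch_congr_left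
      intro ω ω' a a' _
      rw [Prod.mk.injEq]
      exact ⟨fun e => e.2, fun e => ⟨by rw [(h.hQ ω ω' a a' e).1], e⟩⟩
    have := m.i4
    linarith
  · have e1 := ch_chain ν (fun w => Q w.1) (fun w => vf n (z w.1)) X
    have e2 : CH ν (fun w => vf n (z w.1)) (fun w => (Q w.1, X w)) ≤ CH ν (fun w => vf n (z w.1)) X :=
      ch_cond ν n0 _ _ _ fun w w' _ _ e => (Prod.ext_iff.1 e).2
    linarith
  · have e1 := ch_chain ν (fun w => Q w.1) (fun w => vf n (z w.2)) X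
    have e2 : CH ν (fun w => vf n (z w.2)) (fun w => (Q w.1, X w)) ≤ CH ν (fun w => vf n (z w.2)) X :=
      ch_cond ν n0 _ _ _ fun w w' _ _ e => (Prod.ext_iff.1 e).2
    linarith

end copies

/-! ### the direction of a vector -/

theorem exists_am (v : Fin (N + 1) → ℝ) : ∃ a, ∀ i, |v i| ≤ |v a| := by
  obtain ⟨a, -, ha⟩ := Finset.exists_max_image (univ : Finset (Fin (N + 1))) (fun i => |v i|) ⟨0, mem_univ _⟩
  exact ⟨a, fun i => ha i (mem_univ i)⟩

/-- a largest coordinate -/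
noncomputable def am (v : Fin (N + 1) → ℝ) : Fin (N + 1) := (exists_am v).choose

theorem am_spec (v : Fin (N + 1) → ℝ) (i : Fin (N + 1)) : |v i| ≤ |v (am v)| := (exists_am v).choose_spec i

open Classical in
/-- the direction, the largest coordinate is one -/
noncomputable def dv (v : Fin (N + 1) → ℝ) : Fin (N + 1) → ℝ :=
  if v (am v) = 0 then Pi.single (am v) 1 else fun i => v i / v (am v)

theorem dv_am (v : Fin (N + 1) → ℝ) : dv v (am v) = 1 := by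
  unfold dv
  split_ifs with h
  · exact Pi.single_eq_same _ _
  · exact div_self h

theorem dv_le (v : Fin (N + 1) → ℝ) (i : Fin (N + 1)) : |dv v i| ≤ 1 := by
  unfold dv
  split_ifs with h
  · by_cases hi : i = am v
    · rw [hi, Pi.single_eq_same, abs_one]
    · rw [Pi.single_eq_of_ne hi, abs_zero]
      exact zero_le_one
  · beta_reduce
    rw [abs_div]
    exact div_le_one_of_le₀ (am_spec v i) (abs_nonneg _)

theorem dv_mul (v : Fin (N + 1) → ℝ) (i : Fin (N + 1)) : v i = dv v i * v (am v) := by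
  unfold dv
  split_ifs with h
  · have h1 := am_spec v i
    rw [h, abs_zero] at h1
    rw [h, mul_zero]
    exact abs_eq_zero.mp (le_antisymm h1 (abs_nonneg _))
  · beta_reduce
    rw [div_mul_cancel₀ _ h]

theorem push_le {Ω' : Type} [Fintype Ω'] (p : Ω' → Ω) (ν ν' : Ω' → ℝ) (hle : ∀ w, ν w ≤ ν' w) (ω : Ω) :
    push p ν ω ≤ push p ν' ω := by
  rw [push_ind, push_ind]
  exact Finset.sum_le_sum fun w _ => mul_le_mul_of_nonneg_left (hle w) (ind_nonneg _)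

/-- **ADD**: two exact copies glued over the centre, the partner and (a refinement of) the first coordinate have the
same second coordinates up to `2 ^ (- k)`, `k` slightly smaller than `ρ n` -/
theorem AddD.add {A c z y : Ω → Fin (N + 1) → ℝ} (h : AddD μ F P Q L T τ A c z y n K) {ε1 ε2 ε3 ε4 : ℝ}
    (m : AddN μ F P Q τ z y n ε1 ε2 ε3 ε4) (k : ℕ) (hk : k ≤ n) (ρ ηU ηQ : ℝ)
    (hU : ∀ μ' : Ω → ℝ, (∀ ω, 0 ≤ μ' ω) → (∀ ω, μ' ω ≤ μ ω) →
      CH μ' (fun ω => vf n (z ω)) F ≤ (N + 1 - ρ) * n * mass μ' + ηU)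
    (hQ : ∀ (w : Ω × Ω → Fin (N + 1) → ℝ) (a : Ω × Ω → Fin (N + 1)),
      (∀ x x', cp μ F Q L y n x ≠ 0 → cp μ F Q L y n x' ≠ 0 →
        ((P x.1, P x.2), F x.1) = ((P x'.1, P x'.2), F x'.1) → w x = w x' ∧ a x = a x') →
      (∀ x, w x (a x) = 1) → (∀ x i, |w x i| ≤ 1) →
      N * n - ηQ ≤ CH (cp μ F Q L y n) (fun x => vf n (fun i => z x.2 i - w x i * z x.2 (a x)))
        (fun x => ((P x.1, P x.2), F x.1))) :
    (ρ * n - k - cN (N + 1) (4 * K)) * mass (res (cp μ F Q L y n)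
        (fun x => ∃ i, ((2 : ℝ) ^ k)⁻¹ ≤ |A x.1 i - A x.2 i|)) ≤
      ηU + ηQ + (ε4 + dl (N + 1) K ε1 ε2 ε3) + (N + 1) * Real.logb 2 (8 * (4 * K)) := by
  obtain ⟨ν, hν⟩ : ∃ ν, ν = cp μ F Q L y n := ⟨_, rfl⟩
  have n0 : ∀ w, 0 ≤ ν w := by rw [hν]; exact h.cpn
  have hm : mass ν = 1 := by rw [hν]; exact h.cp_mass
  have sp : ∀ w, ν w ≠ 0 → (L w.1 = L w.2 ∧ Q w.1 = Q w.2 ∧ vf n (y w.1) = vf n (y w.2) ∧ F w.1 = F w.2) ∧
      μ w.1 ≠ 0 ∧ μ w.2 ≠ 0 := by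
    intro w hw
    rw [hν] at hw
    exact cp_supp w hw
  obtain ⟨r1, -, -⟩ := h.real_ind m
  have hK := h.K1
  rw [← hν] at hQ r1 ⊢
  obtain ⟨s, hs⟩ : ∃ s : Ω × Ω → Fin (N + 1) → ℝ, ∀ x i, s x i = A x.1 i - A x.2 i :=
    ⟨fun x i => A x.1 i - A x.2 i, fun _ _ => rfl⟩
  have hsX : ∀ x x', ν x ≠ 0 → ν x' ≠ 0 → ((P x.1, P x.2), F x.1) = ((P x'.1, P x'.2), F x'.1) → s x = s x' := by
    intro x x' a a' e
    simp only [Prod.mk.injEq] at e
    funext i
    rw [hs, hs, (h.hP _ _ (sp x a).2.1 (sp x' a').2.1 e.1.1).2.1, (h.hP _ _ (sp x a).2.2 (sp x' a').2.2 e.1.2).2.1]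
  have hev : res ν (fun x => ∃ i, ((2 : ℝ) ^ k)⁻¹ ≤ |A x.1 i - A x.2 i|) =
      res ν (fun x => ((2 : ℝ) ^ k)⁻¹ ≤ |s x (am (s x))|) := by
    apply res_congr
    intro x _
    constructor
    · rintro ⟨i, hi⟩
      rw [← hs x i] at hi
      exact hi.trans (am_spec (s x) i)
    · intro hi
      refine ⟨am (s x), ?_⟩
      rw [← hs x]
      exact hi
  rw [hev]
  have key := noise_ev (N := N) ν n0 (fun x => F x.1) (fun x => ((P x.1, P x.2), F x.1)) (fun x => z x.1)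
    (fun x => z x.2) s (fun x => dv (s x)) (fun x => τ x.1) (fun x => am (s x)) n k hk (4 * K) (by linarith)
    (fun x x' _ _ e => (Prod.ext_iff.1 e).2)
    (fun x x' a a' e => by
      have h1 := hsX x x' a a' e
      beta_reduce
      rw [h1]
      exact ⟨rfl, rfl, rfl⟩)
    (fun x _ i => dv_le (s x) i) (fun x _ => dv_am (s x)) (fun x _ i => dv_mul (s x) i)
    (fun x a i => by
      obtain ⟨⟨x1, x2, x3, x4⟩, x5, x6⟩ := sp x a
      have g1 := h.hy _ x5 i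
      have g2 := h.hy _ x6 i
      obtain ⟨q1, q2⟩ := h.hQ _ _ x5 x6 x2
      rw [← q1, ← q2] at g2
      have g3 := close_of_fl (h.hL _ _ x5 x6 x1)
      have g4 := close_of_fl (congrFun x3 i)
      have g5 := h.bc _ x5 i
      have e1 : z x.2 i - z x.1 i - τ x.1 * s x i = -(y x.1 i - y x.2 i) +
          ((T x.1 - T x.2) * c x.1 i) + (y x.1 i - z x.1 i - τ x.1 * A x.1 i - T x.1 * c x.1 i) -
          (y x.2 i - z x.2 i - τ x.1 * A x.2 i - T x.2 * c x.1 i) := by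
        rw [hs]
        ring
      rw [e1]
      have f1 : |(T x.1 - T x.2) * c x.1 i| ≤ K * (2 ^ n)⁻¹ := by
        rw [abs_mul, mul_comm]
        exact mul_le_mul g5 g3 (abs_nonneg _) (by linarith)
      have f2 : (2 ^ n : ℝ)⁻¹ ≤ K * (2 ^ n)⁻¹ := le_mul_of_one_le_left (by positivity) hK
      have k1 := abs_sub (-(y x.1 i - y x.2 i) + ((T x.1 - T x.2) * c x.1 i) +
          (y x.1 i - z x.1 i - τ x.1 * A x.1 i - T x.1 * c x.1 i))
          (y x.2 i - z x.2 i - τ x.1 * A x.2 i - T x.2 * c x.1 i)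
      have k2 := abs_add_le (-(y x.1 i - y x.2 i) + ((T x.1 - T x.2) * c x.1 i))
          (y x.1 i - z x.1 i - τ x.1 * A x.1 i - T x.1 * c x.1 i)
      have k3 := abs_add_le (-(y x.1 i - y x.2 i)) ((T x.1 - T x.2) * c x.1 i)
      rw [abs_neg] at k3
      linarith)
    (fun x a i => (h.bz _ (sp x a).2.2 i).trans (by linarith))
    (fun x a => (h.bT _ (sp x a).2.1).trans (by linarith)) ρ ηU ηQ (ε4 + dl (N + 1) K ε1 ε2 ε3) ?_ ?_ ?_
  · rw [hm, mul_one] at key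
    exact key
  · obtain ⟨E, hE⟩ : ∃ E : Ω × Ω → Prop, E = fun x => ((2 : ℝ) ^ k)⁻¹ ≤ |s x (am (s x))| := ⟨_, rfl⟩
    rw [← hE]
    have en : ∀ w, 0 ≤ res ν E w := res_nn n0 E
    have u1 := hU (push Prod.snd (res ν E)) (fun ω => by
      rw [push_ind]
      exact Finset.sum_nonneg fun w _ => mul_nonneg (ind_nonneg _) (en w)) (fun ω => by
      have h2 : push Prod.snd ν = μ := by rw [hν]; exact h.push2
      rw [← h2]
      apply push_le
      intro w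
      by_cases hw : E w
      · rw [e4_res_pos ν E w hw]
      · rw [e4_res_neg ν E w hw]
        exact n0 w)
    rw [push_mass Prod.snd _ en, push_CH Prod.snd _ en (fun ω => vf n (z ω)) F] at u1
    have e1 : CH (res ν E) (fun x => vf n (z x.2)) (fun x => F x.1) =
        CH (res ν E) (fun x => vf n (z x.2)) (fun x => F x.2) := by
      apply ch_congr_right
      intro x x' a a'
      rw [(sp x (res_ne ν E a).1).1.2.2.2, (sp x' (res_ne ν E a').1).1.2.2.2]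
    rw [e1]
    exact u1
  · rw [hm, mul_one]
    exact hQ (fun x => dv (s x)) (fun x => am (s x)) (fun x x' a a' e => by
      have h1 := hsX x x' a a' e
      beta_reduce
      rw [h1]
      exact ⟨rfl, rfl⟩) (fun x => dv_am (s x)) (fun x i => dv_le (s x) i)
  · rw [hm, mul_one]
    linarith

end Pool.Agent.Helper22.FW
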