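import Pool.Agent.Helper22.FW.AddE
import Pool.Agent.Helper18.FW.Num

/-!
# ADD for the array (finite theorem FW): the hypothesis (hAD) of LEMMA B / `cls_sum`

`EdgD D ...` : the edge law `D` (helper25) is a digital edge (helper70), the vertices determine the coordinates.
`EdgD.mir` : the other side. `adE` : for a row `a` and two columns `c ≠ c'`: two exact copies of the pair of right
vertices glued over the base, the left vertex, any function of the pair which determines the digits of the difference of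
the parameters, and the digits of the second centre along the edge `c`, have the same difference of the second coordinates
up to `2 ^ (- k)`, except for a small mass.
-/

set_option autoImplicit false

namespace Pool.Agent.Helper22.FW

open Finset Pool.Agent.Helper69.RK Pool.Agent.Helper61.GL Pool.Agent.Helper31.EC Pool.Agent.Helper6.VS
open Pool.Agent.Helper25.FA Pool.Agent.Helper18.FW
open Pool.Agent.Helper70.FW (Edg QuoF)
open Pool.Agent.Helper61.EC (vfl)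
open Pool.Agent.Helper46.WF (Pw)
open Pool.Agent.Helper58.VW (cl)

section swap

variable {Ω φ : Type} [Fintype Ω] {N n : ℕ} {ρ η εQ ηQ c : ℝ} {μ : Ω → ℝ} {F : Ω → φ} {T T' : Ω → ℝ}
  {A C z : Ω → Fin N → ℝ}

theorem swap_z3 (c : ℝ) (T T' : Ω → ℝ) (A C z : Ω → Fin N → ℝ) :
    (fun ω i => z ω i + -c * (T' ω * A ω i - C ω i * T ω)) = fun ω i => z ω i + c * (T ω * C ω i - A ω i * T' ω) := by
  funext ω i
  ring

/-- exchange of the two sides of an edge -/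
theorem edg_swap (h : Edg N n ρ η εQ ηQ c μ F T T' A C z) : Edg N n ρ η εQ ηQ (-c) μ F T' T C A z where
  nn := h.nn
  ms := h.ms
  hc := by
    rcases h.hc with e | e
    · right
      rw [e]
    · left
      rw [e, neg_neg]
  bT := h.bT'
  bT' := h.bT
  bA := h.bC
  bC := h.bA
  bz := h.bz
  dT := h.dT'
  dT' := h.dT
  dA := h.dC
  dC := h.dA
  dz := h.dz
  i1 := by
    refine h.i1.trans (add_le_add (le_of_eq ?_) le_rfl)
    apply ch_congr_right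
    intro ω ω' _ _
    simp only [Prod.mk.injEq]
    tauto
  i2 := by
    have e1 := congrFun (swap_z3 c T T' A C z)
    simp only [e1]
    refine h.i2.trans (add_le_add (le_of_eq ?_) le_rfl)
    apply ch_congr_right
    intro ω ω' _ _
    simp only [Prod.mk.injEq]
    tauto
  i3 := by
    have h1 := h.i3
    have h2 := ch_symm μ (fun ω => (T ω, A ω)) (fun ω => (T' ω, C ω)) F
    linarith
  r1 := h.r2
  r2 := h.r1
  U := h.U
  U3 := by
    have e1 := congrFun (swap_z3 c T T' A C z)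
    simp only [e1]
    exact h.U3
  Q := h.Q
  Q3 := by
    rw [swap_z3 c T T' A C z]
    exact h.Q3

end swap

variable {Ω φ α β : Type} [Fintype Ω] {N : ℕ}

/-- the edge law `D` is a digital edge, the vertices determine the coordinates, the base and the coordinates determine
the vertices -/
structure EdgD (D : ED Ω φ α β N) (ρ η εQ ηQ c : ℝ) (tp : α → ℝ) (tq : β → ℝ) (Ap : α → Fin N → ℝ)
    (Cq : β → Fin N → ℝ) : Prop where
  ed : Edg N D.n ρ η εQ ηQ c D.μ D.F (fun ω => tp (D.P ω)) (fun ω => tq (D.Q ω)) (fun ω => Ap (D.P ω))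
    (fun ω => Cq (D.Q ω)) D.z
  om : ∀ a b i, D.om a b i = c * (tp a * Cq b i - Ap a i * tq b)
  pd : ∀ ω ω', D.μ ω ≠ 0 → D.μ ω' ≠ 0 → D.F ω = D.F ω' → tp (D.P ω) = tp (D.P ω') → Ap (D.P ω) = Ap (D.P ω') →
    D.P ω = D.P ω'
  qd : ∀ ω ω', D.μ ω ≠ 0 → D.μ ω' ≠ 0 → D.F ω = D.F ω' → tq (D.Q ω) = tq (D.Q ω') → Cq (D.Q ω) = Cq (D.Q ω') →
    D.Q ω = D.Q ω'

section edgd

variable {D : ED Ω φ α β N} {ρ η εQ ηQ c : ℝ} {tp : α → ℝ} {tq : β → ℝ} {Ap : α → Fin N → ℝ} {Cq : β → Fin N → ℝ}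

theorem EdgD.mir (h : EdgD D ρ η εQ ηQ c tp tq Ap Cq) : EdgD D.mir ρ η εQ ηQ (-c) tq tp Cq Ap where
  ed := edg_swap h.ed
  om := by
    intro b a i
    show D.om a b i = _
    rw [h.om a b i]
    ring
  pd := h.qd
  qd := h.pd

theorem EdgD.z3 (h : EdgD D ρ η εQ ηQ c tp tq Ap Cq) (ω : Ω) :
    D.z3 ω = fun i => D.z ω i + c * (tp (D.P ω) * Cq (D.Q ω) i - Ap (D.P ω) i * tq (D.Q ω)) := by
  funext i
  show D.z ω i + D.om (D.P ω) (D.Q ω) i = _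
  rw [h.om]

theorem EdgD.z3d (h : EdgD D ρ η εQ ηQ c tp tq Ap Cq) :
    D.z3d = fun ω => vfl D.n fun i => D.z ω i + c * (tp (D.P ω) * Cq (D.Q ω) i - Ap (D.P ω) i * tq (D.Q ω)) := by
  funext ω
  show vfl D.n (D.z3 ω) = _
  rw [h.z3]

/-- the coordinates and the vertices -/
theorem EdgD.PQ (h : EdgD D ρ η εQ ηQ c tp tq Ap Cq) (ω ω' : Ω) (hω : D.μ ω ≠ 0) (hω' : D.μ ω' ≠ 0) :
    ((tp (D.P ω), Ap (D.P ω)), (tq (D.Q ω), Cq (D.Q ω)), D.F ω) =
      ((tp (D.P ω'), Ap (D.P ω')), (tq (D.Q ω'), Cq (D.Q ω')), D.F ω') ↔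
    ((D.P ω, D.Q ω), D.F ω) = ((D.P ω', D.Q ω'), D.F ω') := by
  simp only [Prod.mk.injEq]
  constructor
  · rintro ⟨⟨a1, a2⟩, ⟨a3, a4⟩, a5⟩
    exact ⟨⟨h.pd ω ω' hω hω' a5 a1 a2, h.qd ω ω' hω hω' a5 a3 a4⟩, a5⟩
  · rintro ⟨⟨a1, a2⟩, a5⟩
    rw [a1, a2]
    exact ⟨⟨rfl, rfl⟩, ⟨rfl, rfl⟩, a5⟩

/-- the centre is independent of the vertices -/
theorem EdgD.n2 (h : EdgD D ρ η εQ ηQ c tp tq Ap Cq) :
    CH D.μ D.zd D.F - η * D.n ≤ CH D.μ D.zd (fun ω => ((D.P ω, D.Q ω), D.F ω)) := by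
  have h1 := h.ed.i1
  have h2 : CH D.μ D.zd (fun ω => ((D.P ω, D.Q ω), D.F ω)) = CH D.μ D.zd (fun ω => ((tp (D.P ω), Ap (D.P ω)),
      (tq (D.Q ω), Cq (D.Q ω)), D.F ω)) :=
    ch_congr_right _ _ _ _ fun ω ω' hω hω' => (h.PQ ω ω' hω hω').symm
  rw [h2]
  have h3 : D.zd = fun ω => vfl D.n (D.z ω) := rfl
  rw [h3]
  linarith

/-- the second centre is independent of the vertices -/
theorem EdgD.i2 (h : EdgD D ρ η εQ ηQ c tp tq Ap Cq) :
    CH D.μ D.z3d D.F ≤ CH D.μ D.z3d (fun ω => ((D.P ω, D.Q ω), D.F ω)) + η * D.n := by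
  have h1 := h.ed.i2
  have h2 : CH D.μ D.z3d (fun ω => ((D.P ω, D.Q ω), D.F ω)) = CH D.μ D.z3d (fun ω => ((tp (D.P ω), Ap (D.P ω)),
      (tq (D.Q ω), Cq (D.Q ω)), D.F ω)) :=
    ch_congr_right _ _ _ _ fun ω ω' hω hω' => (h.PQ ω ω' hω hω').symm
  rw [h2, h.z3d]
  exact h1

/-- the second centre has not more entropy than the centre -/
theorem EdgD.e3 (h : EdgD D ρ η εQ ηQ c tp tq Ap Cq) : CH D.μ D.z3d D.F ≤ CH D.μ D.zd D.F + (η * D.n + N) :=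
  ed_z3_le D h.ed.nn h.ed.ms h.i2

/-- the two vertices are independent -/
theorem EdgD.n1 (h : EdgD D ρ η εQ ηQ c tp tq Ap Cq) :
    CH D.μ D.Q D.F - η * D.n ≤ CH D.μ D.Q (fun ω => (D.P ω, D.F ω)) := by
  have h1 := h.ed.i3
  have h2 := ch_symm D.μ D.Q D.P D.F
  have h3 : CH D.μ D.P D.F = CH D.μ (fun ω => (tp (D.P ω), Ap (D.P ω))) D.F := by
    apply ch_congr_left
    intro ω ω' hω hω' e
    rw [Prod.mk.injEq]
    exact ⟨fun e1 => by rw [e1]; exact ⟨rfl, rfl⟩, fun e1 => h.pd ω ω' hω hω' e e1.1 e1.2⟩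
  have h4 : CH D.μ D.P (fun ω => (D.Q ω, D.F ω)) =
      CH D.μ (fun ω => (tp (D.P ω), Ap (D.P ω))) (fun ω => ((tq (D.Q ω), Cq (D.Q ω)), D.F ω)) := by
    have h5 : CH D.μ D.P (fun ω => (D.Q ω, D.F ω)) =
        CH D.μ D.P (fun ω => ((tq (D.Q ω), Cq (D.Q ω)), D.F ω)) := by
      apply ch_congr_right
      intro ω ω' hω hω'
      simp only [Prod.mk.injEq]
      constructor
      · rintro ⟨a1, a2⟩
        rw [a1]
        exact ⟨⟨rfl, rfl⟩, a2⟩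
      · rintro ⟨⟨a1, a2⟩, a3⟩
        exact ⟨h.qd ω ω' hω hω' a3 a1 a2, a3⟩
    rw [h5]
    apply ch_congr_left
    intro ω ω' hω hω' e
    rw [Prod.mk.injEq]
    exact ⟨fun e1 => by rw [e1]; exact ⟨rfl, rfl⟩, fun e1 => h.pd ω ω' hω hω' (Prod.ext_iff.1 e).2 e1.1 e1.2⟩
  linarith

/-- digits of the parameters -/
theorem EdgD.r1 (h : EdgD D ρ η εQ ηQ c tp tq Ap Cq) :
    D.n - η * D.n ≤ CH D.μ (fun ω => fl D.n (tp (D.P ω))) D.F := by
  have h1 : (1 - η) * D.n ≤ CH D.μ (fun ω => fl D.n (tp (D.P ω))) D.F := h.ed.r1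
  linarith

/-- the centre is determined by its digits -/
theorem EdgD.z_eq (h : EdgD D ρ η εQ ηQ c tp tq Ap Cq) {ω ω' : Ω} (e : D.zd ω = D.zd ω') : D.z ω = D.z ω' := by
  funext i
  rw [h.ed.dz ω i, h.ed.dz ω' i]
  unfold Pool.Agent.Helper61.EC.rd
  have h1 : fl D.n (D.z ω i) = fl D.n (D.z ω' i) := congrFun e i
  have h2 : Pool.Agent.Helper92.W.fl D.n (D.z ω i) = Pool.Agent.Helper92.W.fl D.n (D.z ω' i) := h1
  rw [h2]

/-- arrays exist -/
theorem EdgD.arr (h : EdgD D ρ η εQ ηQ c tp tq Ap Cq) {ιr ιc : Type} [Fintype ιr] [Fintype ιc] [DecidableEq ιr]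
    [DecidableEq ιc] (b0 : ιc) :
    AR D (Pool.Agent.Helper25.FA.arr D ιr b0) (ent ιr ιc Ω)
      (Fintype.card ιr * ((2 * Fintype.card ιc + 1) * (η * D.n))) :=
  arr_AR h.ed.nn (η * D.n) b0 h.n1 h.n2

end edgd

section array

variable {D : ED Ω φ α β (N + 1)} {ρ η εQ ηQ c : ℝ} {tp : α → ℝ} {tq : β → ℝ} {Ap : α → Fin (N + 1) → ℝ}
  {Cq : β → Fin (N + 1) → ℝ} {Λ ιr ιc : Type} [Fintype Λ] [Fintype ιr] [Fintype ιc] [DecidableEq ιr]
  [DecidableEq ιc] {l : Λ → ℝ} {en : ιr → ιc → Λ → Ω} {E : ℝ}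

/-- **ADD for the array** (hypothesis hAD of `cls_sum`): the pair of right vertices of the columns `c₁`, `c₂` in the row
`a`. The other side: `adE h.mir hr.mir`. -/
theorem adE (h : EdgD D ρ η εQ ηQ c tp tq Ap Cq) (hr : AR D l en E) (a : ιr) (b0 : ιc) {c₁ c₂ : ιc} (hc : c₁ ≠ c₂)
    (hρ : ρ ≤ N + 1) (hη : 0 ≤ η) (hd : 7 * E + 4 * (η * D.n) + 18 * (N + 1) ≤ ηQ * D.n) {k : ℕ} (hk : k ≤ D.n)
    (q : Seminorm ℝ (Fin (N + 1) → ℝ)) {t ε : ℝ} (hq : ∀ v : Fin (N + 1) → ℝ, (∀ i, |v i| < ((2 : ℝ) ^ k)⁻¹) → q v ≤ t)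
    (hpos : 0 < ρ * D.n - k - (21 * N + 28))
    (hε : 6 * (η * D.n) + (N + 1) * (D.n + 5) * η + (N + 1) * εQ * D.n + 7 * E + 1 + (N + 1) * (5 * N + 25) ≤
      ε * (ρ * D.n - k - (21 * N + 28)))
    (δ : Type) (g : β × β → δ) :
    Pw (amw l l
        (fun w => (D.F (en a b0 w), D.P (en a b0 w), (cl D.n (tq (D.Q (en a c₁ w)) - tq (D.Q (en a c₂ w))),
          g (D.Q (en a c₁ w), D.Q (en a c₂ w))), D.z3d (en a c₁ w)))
        (fun w => (D.F (en a b0 w), D.P (en a b0 w), (cl D.n (tq (D.Q (en a c₁ w)) - tq (D.Q (en a c₂ w))),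
          g (D.Q (en a c₁ w), D.Q (en a c₂ w))), D.z3d (en a c₁ w))))
      (fun x => t < q ((Cq (D.Q (en a c₁ x.1)) - Cq (D.Q (en a c₂ x.1))) -
        (Cq (D.Q (en a c₁ x.2)) - Cq (D.Q (en a c₂ x.2))))) ≤ ε := by
  have e3 := h.e3
  have ms := h.ed.ms
  have m := addN_pair hr ms e3 a c₁ hc tp (e4 := η * D.n) h.r1
  have z3e := h.z3
  have hl8 : Real.logb 2 (8 * 4 : ℝ) = 5 := by
    have h1 : (8 * 4 : ℝ) = 2 ^ (5 : ℕ) := by norm_num
    rw [h1, Real.logb_pow, Real.logb_self_eq_one (by norm_num)]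
    norm_num
  have hl7 : Real.logb 2 (8 * (4 * 4) : ℝ) = 7 := by
    have h1 : (8 * (4 * 4) : ℝ) = 2 ^ (7 : ℕ) := by norm_num
    rw [h1, Real.logb_pow, Real.logb_self_eq_one (by norm_num)]
    norm_num
  have hcN : cN (N + 1) (4 * 4) = 21 * N + 28 := by
    unfold cN
    rw [hl7]
    push_cast
    ring
  have hdl : dl (N + 1) 4 (E + ((N + 1 : ℕ) : ℝ) + (η * D.n + ((N + 1 : ℕ) : ℝ)))
      (E + ((N + 1 : ℕ) : ℝ) + (η * D.n + ((N + 1 : ℕ) : ℝ))) E = 7 * E + 4 * (η * D.n) + 18 * (N + 1) := by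
    unfold dl
    rw [hl8]
    push_cast
    ring
  have key := addE h.ed l hr.nn (en a c₁) (en a c₂) (hr.pu a c₂) D.Q D.P tq Cq 1 0 (by norm_num)
    (fun ω => ⟨by ring, rfl⟩) (fun ω ω' e => by rw [e]; exact ⟨rfl, rfl⟩) (fun w hw => hr.sF w hw a c₁ a c₂)
    (fun w hw => h.z_eq (hr.sZ w hw a c₁ a c₂)) (fun w hw => hr.sP w hw a c₁ c₂) (by
      simp only [z3e] at m
      exact m) hρ hη (by rw [hdl]; exact hd) k hk g
  rw [hdl, hcN, hl8, hl7] at key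
  have hcp : amw l l
        (fun w => (D.F (en a b0 w), D.P (en a b0 w), (cl D.n (tq (D.Q (en a c₁ w)) - tq (D.Q (en a c₂ w))),
          g (D.Q (en a c₁ w), D.Q (en a c₂ w))), D.z3d (en a c₁ w)))
        (fun w => (D.F (en a b0 w), D.P (en a b0 w), (cl D.n (tq (D.Q (en a c₁ w)) - tq (D.Q (en a c₂ w))),
          g (D.Q (en a c₁ w), D.Q (en a c₂ w))), D.z3d (en a c₁ w))) = amw l l
        (fun w => (D.F (en a c₁ w), D.P (en a c₁ w), (cl D.n (tq (D.Q (en a c₁ w)) - tq (D.Q (en a c₂ w))),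
          g (D.Q (en a c₁ w), D.Q (en a c₂ w))), vf D.n (fun i => D.z (en a c₁ w) i + c * (tp (D.P (en a c₁ w)) *
            Cq (D.Q (en a c₁ w)) i - Ap (D.P (en a c₁ w)) i * tq (D.Q (en a c₁ w))))))
        (fun w => (D.F (en a c₁ w), D.P (en a c₁ w), (cl D.n (tq (D.Q (en a c₁ w)) - tq (D.Q (en a c₂ w))),
          g (D.Q (en a c₁ w), D.Q (en a c₂ w))), vf D.n (fun i => D.z (en a c₁ w) i + c * (tp (D.P (en a c₁ w)) *
            Cq (D.Q (en a c₁ w)) i - Ap (D.P (en a c₁ w)) i * tq (D.Q (en a c₁ w)))))) := by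
    apply Pool.Agent.Helper99.FW.amw_congr_lab
    intro w w' hw hw'
    have e1 : ∀ u, D.z3d (en a c₁ u) = vf D.n (fun i => D.z (en a c₁ u) i + c * (tp (D.P (en a c₁ u)) *
            Cq (D.Q (en a c₁ u)) i - Ap (D.P (en a c₁ u)) i * tq (D.Q (en a c₁ u)))) := by
      intro u
      rw [← h.z3]
      rfl
    rw [hr.sF w hw a b0 a c₁, hr.sF w' hw' a b0 a c₁, hr.sP w hw a b0 c₁, hr.sP w' hw' a b0 c₁, e1, e1]
  rw [hcp]
  refine (Pool.Agent.Helper46.WF.Pw_mono _ (amw_nonneg _ _ _ _ hr.nn hr.nn) (B := fun x : Λ × Λ =>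
    ∃ i, ((2 : ℝ) ^ k)⁻¹ ≤ |((Cq (D.Q (en a c₁ x.1)) - Cq (D.Q (en a c₂ x.1))) -
      (Cq (D.Q (en a c₁ x.2)) - Cq (D.Q (en a c₂ x.2)))) i|) ?_).trans ?_
  · intro x _ hx
    by_contra hcon
    push Not at hcon
    exact absurd (hq _ hcon) (not_le.mpr hx)
  · apply le_of_mul_le_mul_left _ hpos
    refine key.trans ?_
    linarith

end array

end Pool.Agent.Helper22.FW
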