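import Pool.Agent.Helper22.FW.Add
import Pool.Agent.Helper70.FW.Top
import Pool.Agent.Helper61.GL.KC
import Pool.Agent.Helper99.FW.LemBA

/-!
# ADD for digital edges (finite theorem FW, statement of helper70)

`w` is any law with two edges `ea x`, `eb x` which have the same point `z`, the same `p = (T, A)` and the same base;
the four-term difference of the coordinates `C` of two exact copies is small. The other side is the same statement for
the swapped edge.
-/

set_option autoImplicit false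

namespace Pool.Agent.Helper22.FW

open Finset Pool.Agent.Helper69.RK Pool.Agent.Helper61.GL Pool.Agent.Helper31.EC Pool.Agent.Helper6.VS
open Pool.Agent.Helper70.FW (Edg QuoF)
open Pool.Agent.Helper61.EC (vfl)
open Pool.Agent.Helper92.W (srp)
open Pool.Agent.Helper46.WF (Pw)
open Pool.Agent.Helper58.VW (cl)

variable {Ω φ π κ Λ α β γ ξ : Type} [Fintype Ω] {N : ℕ}

theorem vfl_eq {N : ℕ} (n : ℕ) (x : Fin N → ℝ) : vfl n x = vf n x := rfl

/-- additivity over the values of a function of the label -/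
theorem ch_parts {ι : Type} [Fintype ι] [DecidableEq ι] {μ : Ω → ℝ} (f : Ω → α) (g : Ω → γ) (a : Ω → ι)
    (ha : ∀ ω ω', μ ω ≠ 0 → μ ω' ≠ 0 → g ω = g ω' → a ω = a ω') :
    CH μ f g = ∑ j, CH (res μ (fun ω => a ω = j)) f g := by
  have h1 : ∀ j, CH (res μ (fun ω => a ω = j)) f g = ∑ ω, res μ (fun ω => a ω = j) ω *
      (Real.logb 2 (pr μ g ω) - Real.logb 2 (pr μ (fun ω' => (f ω', g ω')) ω)) := by
    intro j
    exact e4_part μ f g (fun ω => a ω = j) (fun ω ω' h h' e hj => (ha ω ω' h h' e).symm.trans hj)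
  rw [Finset.sum_congr rfl fun j _ => h1 j, Finset.sum_comm]
  unfold CH
  refine Finset.sum_congr rfl fun ω _ => ?_
  rw [← Finset.sum_mul]
  congr 1
  rw [Finset.sum_eq_single (a ω)]
  · rw [e4_res_pos μ (fun ω' => a ω' = a ω) ω rfl]
  · intro j _ hj
    exact e4_res_neg μ _ ω (fun h => hj h.symm)
  · intro h
    exact absurd (Finset.mem_univ _) h

theorem mass_parts {ι : Type} [Fintype ι] [DecidableEq ι] (μ : Ω → ℝ) (a : Ω → ι) :
    mass μ = ∑ j, mass (res μ (fun ω => a ω = j)) := by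
  unfold mass
  rw [Finset.sum_comm]
  refine Finset.sum_congr rfl fun ω _ => ?_
  rw [Finset.sum_eq_single (a ω)]
  · rw [e4_res_pos μ (fun ω' => a ω' = a ω) ω rfl]
  · intro j _ hj
    exact e4_res_neg μ _ ω (fun h => hj h.symm)
  · intro h
    exact absurd (Finset.mem_univ _) h

/-- trivial bound for cells of bounded vectors -/
theorem ch_vf_le (μ : Ω → ℝ) (hμ : ∀ ω, 0 ≤ μ ω) (z : Ω → Fin N → ℝ) (G : Ω → γ) (n : ℕ) {K : ℝ} (hK : 1 ≤ K)
    (hz : ∀ ω, μ ω ≠ 0 → ∀ i, |z ω i| ≤ K) :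
    CH μ (fun ω => vf n (z ω)) G ≤ N * (n + Real.logb 2 (8 * K)) * mass μ := by
  have h0 : (1 : ℝ) ≤ 2 ^ n := one_le_pow₀ (by norm_num)
  have hK2 : K ≤ K * 2 ^ n := le_mul_of_one_le_right (by linarith) h0
  have h1 := ch_vec μ hμ (fun ω => vf n (z ω)) G (2 * K * 2 ^ n + 1) (by nlinarith) (by
    intro ω ω' h h' _ i
    apply fl_close
    rw [mul_assoc, mul_inv_cancel₀ (by positivity), mul_one]
    refine (abs_sub _ _).trans ?_
    linarith [hz ω h i, hz ω' h' i])
  refine h1.trans (mul_le_mul_of_nonneg_right (mul_le_mul_of_nonneg_left ?_ (Nat.cast_nonneg N))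
    (mass_nonneg' μ hμ))
  have h2 : Real.logb 2 (2 * K * 2 ^ n + 1 + 1) ≤ Real.logb 2 (2 ^ n * (8 * K)) :=
    logb_mono' (by nlinarith) (by nlinarith)
  rw [Real.logb_mul (by positivity) (by linarith), Real.logb_pow, Real.logb_self_eq_one (by norm_num), mul_one] at h2
  exact h2

/-- shifts by functions of the label -/
theorem ch_shift (μ : Ω → ℝ) (hμ : ∀ ω, 0 ≤ μ ω) (u v : Ω → Fin N → ℝ) (G : Ω → γ) (n : ℕ)
    (h : ∀ ω ω', μ ω ≠ 0 → μ ω' ≠ 0 → G ω = G ω' → ∀ i, u ω i - v ω i = u ω' i - v ω' i) :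
    CH μ (fun ω => vf n (u ω)) G ≤ CH μ (fun ω => vf n (v ω)) G + N * Real.logb 2 24 * mass μ := by
  have h1 := ch_tri μ hμ (fun ω => vf n (u ω)) (fun ω => vf n (v ω)) G
  have h2 := ch_vec μ hμ (fun ω => vf n (u ω)) (fun ω => (vf n (v ω), G ω)) 2 (by norm_num) (by
    intro ω ω' a a' e i
    rw [Prod.mk.injEq] at e
    have c1 := close_of_fl (congrFun e.1 i)
    have c2 := h ω ω' a a' e.2 i
    have h3 : (2 : ℝ) = 1 + 1 := by norm_num
    rw [h3]
    apply fl_close
    rw [one_mul]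
    have h4 : u ω i - u ω' i = v ω i - v ω' i := by linarith
    rw [h4]
    exact c1)
  have h3 : N * Real.logb 2 (2 + 1) * mass μ ≤ N * Real.logb 2 24 * mass μ :=
    mul_le_mul_of_nonneg_right (mul_le_mul_of_nonneg_left (logb_mono' (by norm_num) (by norm_num))
      (Nat.cast_nonneg N)) (mass_nonneg' μ hμ)
  linarith

/-- (U) on sub-weights from the pathwise form -/
theorem ch_sub_le (μ μ' : Ω → ℝ) (h0 : ∀ ω, 0 ≤ μ' ω) (hle : ∀ ω, μ' ω ≤ μ ω) (z : Ω → Fin N → ℝ) (F : Ω → φ)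
    (n : ℕ) {K : ℝ} (hK : 1 ≤ K) (hz : ∀ ω, μ ω ≠ 0 → ∀ i, |z ω i| ≤ K) (b η : ℝ) (hb : 0 ≤ b)
    (hP : Pw μ (fun ω => b < srp μ (fun ω' => vf n (z ω')) F ω) ≤ η) :
    CH μ' (fun ω => vf n (z ω)) F ≤ b * mass μ' + N * (n + Real.logb 2 (8 * K)) * η + mass μ' := by
  have hμ : ∀ ω, 0 ≤ μ ω := fun ω => (h0 ω).trans (hle ω)
  have hne : ∀ ω, μ' ω ≠ 0 → μ ω ≠ 0 := fun ω h h1 => h (le_antisymm (h1 ▸ hle ω) (h0 ω))
  obtain ⟨E, hE⟩ : ∃ E : Ω → Prop, E = fun ω => ¬ b < srp μ (fun ω' => vf n (z ω')) F ω := ⟨_, rfl⟩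
  have h1 := ((st_E4 st_E1 st_E3).2.1 Ω (Fin N → ℤ) φ μ' (fun ω => vf n (z ω)) F E h0).2
  have n1 : ∀ ω, 0 ≤ res μ' E ω := res_nn h0 E
  have n2 : ∀ ω, 0 ≤ res μ' (fun ω => ¬ E ω) ω := res_nn h0 _
  have h8 := logb8_nonneg hK
  -- bad part
  have h2 := ch_vf_le (res μ' (fun ω => ¬ E ω)) n2 z F n hK (fun ω h => hz ω (hne ω (res_ne μ' _ h).1))
  have h3 : mass (res μ' (fun ω => ¬ E ω)) ≤ η := by
    refine le_trans ?_ hP
    rw [Pw_eq]
    unfold mass
    refine Finset.sum_le_sum fun ω _ => ?_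
    by_cases hω : E ω
    · rw [e4_res_neg μ' (fun ω => ¬ E ω) ω (not_not.mpr hω)]
      exact res_nn hμ _ ω
    · rw [e4_res_pos μ' (fun ω => ¬ E ω) ω hω]
      have h4 : b < srp μ (fun ω' => vf n (z ω')) F ω := by
        rw [hE] at hω
        exact not_not.mp hω
      rw [e4_res_pos μ _ ω h4]
      exact hle ω
  have h4 : CH (res μ' (fun ω => ¬ E ω)) (fun ω => vf n (z ω)) F ≤ N * (n + Real.logb 2 (8 * K)) * η :=
    h2.trans (mul_le_mul_of_nonneg_left h3 (mul_nonneg (Nat.cast_nonneg N)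
      (add_nonneg (Nat.cast_nonneg n) h8)))
  -- good part
  obtain ⟨r, hr⟩ : ∃ r : φ → (Fin N → ℤ) → ℝ, r = fun g c =>
    ms μ (fun ω => (vf n (z ω), F ω)) (c, g) / ms μ F g := ⟨_, rfl⟩
  have rpos : ∀ ω, res μ' E ω ≠ 0 → 0 < r (F ω) (vf n (z ω)) := by
    intro ω h
    have hω := hne ω (res_ne μ' _ h).1
    rw [hr]
    exact div_pos (ms_pos μ (fun ω => (vf n (z ω), F ω)) hμ ω hω) (ms_pos μ F hμ ω hω)
  have h5 := ch_gibbs (res μ' E) n1 (fun ω => vf n (z ω)) F r rpos (by
    intro g c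
    rw [hr]
    exact div_nonneg (ms_nonneg μ _ hμ _) (ms_nonneg μ F hμ g)) (by
    intro g S
    rw [hr]
    beta_reduce
    rw [← Finset.sum_div]
    apply div_le_one_of_le₀ _ (ms_nonneg μ F hμ g)
    unfold ms
    rw [Finset.sum_comm]
    refine Finset.sum_le_sum fun ω _ => ?_
    rw [← Finset.sum_mul]
    apply mul_le_mul_of_nonneg_right _ (hμ ω)
    by_cases hg : F ω = g
    · rw [e1_ind_pos hg]
      calc ∑ c ∈ S, e1_ind ((vf n (z ω), F ω) = (c, g)) ≤ ∑ c ∈ S, if c = vf n (z ω) then (1 : ℝ) else 0 := by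
            refine Finset.sum_le_sum fun c _ => ?_
            by_cases hc : c = vf n (z ω)
            · rw [if_pos hc]
              by_cases he : (vf n (z ω), F ω) = (c, g)
              · rw [e1_ind_pos he]
              · rw [e1_ind_neg he]; exact zero_le_one
            · rw [if_neg hc, e1_ind_neg (fun he => hc (Prod.ext_iff.1 he).1.symm)]
        _ ≤ 1 := by
            rw [Finset.sum_ite_eq']
            split_ifs
            · exact le_rfl
            · exact zero_le_one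
    · rw [e1_ind_neg hg]
      apply le_of_eq
      refine Finset.sum_eq_zero fun c _ => ?_
      exact e1_ind_neg (fun he => hg (Prod.ext_iff.1 he).2))
  have h6 : - ∑ ω, res μ' E ω * Real.logb 2 (r (F ω) (vf n (z ω))) ≤ b * mass (res μ' E) := by
    unfold mass
    rw [← Finset.sum_neg_distrib, Finset.mul_sum]
    refine Finset.sum_le_sum fun ω _ => ?_
    by_cases h : res μ' E ω = 0
    · rw [h]; simp
    · obtain ⟨h7, h8'⟩ := res_ne μ' _ h
      have hω := hne ω h7
      rw [hE] at h8'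
      have h9 := not_lt.mp h8'
      unfold Pool.Agent.Helper92.W.srp at h9
      have e1 : Real.logb 2 (r (F ω) (vf n (z ω))) =
          Real.logb 2 (pr μ (fun ω' => (vf n (z ω'), F ω')) ω) - Real.logb 2 (pr μ F ω) := by
        rw [hr]
        beta_reduce
        rw [Real.logb_div (ms_pos μ (fun ω => (vf n (z ω), F ω)) hμ ω hω).ne' (ms_pos μ F hμ ω hω).ne',
          pr_eq_ms, pr_eq_ms]
      rw [e1]
      have h10 := mul_le_mul_of_nonneg_left h9 (n1 ω)
      linarith
  have h7 : b * mass (res μ' E) ≤ b * mass μ' := by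
    apply mul_le_mul_of_nonneg_left _ hb
    have := mass_split μ' E
    have := mass_nonneg' _ n2
    linarith
  linarith

/-- (Q) with a variable coordinate from the form with a fixed coordinate -/
theorem quo_var {n : ℕ} {εQ ηQ : ℝ} {μ : Ω → ℝ} {F : Ω → φ} {z : Ω → Fin (N + 1) → ℝ}
    (hQ : QuoF (N + 1) n εQ ηQ μ F z) {Ω' : Type} [Fintype Ω'] (ν : Ω' → ℝ) (p : Ω' → Ω) (hν : ∀ x, 0 ≤ ν x)
    (hm : mass ν = 1) (hp : push p ν = μ) {K : ℝ} (hK : 1 ≤ K) (hz : ∀ ω i, |z ω i| ≤ K) (X : Ω' → ξ)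
    (hI : CH ν (fun x => vf n (z (p x))) (fun x => F (p x)) ≤
      CH ν (fun x => vf n (z (p x))) (fun x => (X x, F (p x))) + ηQ * n)
    (w : Ω' → Fin (N + 1) → ℝ) (a : Ω' → Fin (N + 1))
    (hw : ∀ x x', ν x ≠ 0 → ν x' ≠ 0 → X x = X x' → F (p x) = F (p x') → w x = w x' ∧ a x = a x')
    (hwa : ∀ x, w x (a x) = 1) (hw1 : ∀ x i, |w x i| ≤ 1) :
    N * n - (N + 1) * (εQ * n + N * Real.logb 2 (8 * K)) ≤
      CH ν (fun x => vf n (fun i => z (p x) i - w x i * z (p x) (a x))) (fun x => (X x, F (p x))) := by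
  classical
  have h8 := logb8_nonneg hK
  have hXa : ∀ x x', ν x ≠ 0 → ν x' ≠ 0 → (X x, F (p x)) = (X x', F (p x')) → a x = a x' := by
    intro x x' h h' e
    rw [Prod.mk.injEq] at e
    exact (hw x x' h h' e.1 e.2).2
  have hXw : ∀ x x', ν x ≠ 0 → ν x' ≠ 0 → (X x, F (p x)) = (X x', F (p x')) → w x = w x' := by
    intro x x' h h' e
    rw [Prod.mk.injEq] at e
    exact (hw x x' h h' e.1 e.2).1
  rw [ch_parts _ _ a hXa]
  have h1 : ∀ j : Fin (N + 1), N * n * mass (res ν (fun x => a x = j)) - (εQ * n + N * Real.logb 2 (8 * K)) ≤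
      CH (res ν (fun x => a x = j)) (fun x => vf n (fun i => z (p x) i - w x i * z (p x) (a x)))
        (fun x => (X x, F (p x))) := by
    intro j
    obtain ⟨v, hv⟩ : ∃ v : Ω' → Fin (N + 1) → ℝ, ∀ x, v x = if a x = j then w x else Pi.single j 1 :=
      ⟨_, fun _ => rfl⟩
    have v1 : ∀ x, v x j = 1 := by
      intro x
      rw [hv]
      split_ifs with h
      · rw [← h]; exact hwa x
      · exact Pi.single_eq_same _ _
    have v2 : ∀ x i, |v x i| ≤ 1 := by
      intro x i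
      rw [hv]
      split_ifs with h
      · exact hw1 x i
      · by_cases hi : i = j
        · rw [hi, Pi.single_eq_same, abs_one]
        · rw [Pi.single_eq_of_ne hi, abs_zero]
          exact zero_le_one
    have q := hQ Ω' inferInstance ν p hν hp ξ X v j v1 v2 (by
      intro x x' h h' e e'
      have := hw x x' h h' e e'
      rw [hv, hv, this.1, this.2]) hI
    have sp := ch_split (μ := ν) (fun x => vfl n fun i => z (p x) i - v x i * z (p x) j) (fun x => (X x, F (p x)))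
      (fun x => a x = j) (fun x x' h h' e hj => (hXa x x' h h' e).symm.trans hj)
    have u1 := ch_quo_le (res ν (fun x => ¬ a x = j)) (res_nn hν _) (fun x => z (p x)) v (fun _ => j)
      (fun x => (X x, F (p x))) n hK (fun _ _ _ _ _ => rfl) (fun x _ i => hz _ i) (fun x _ i => v2 x i)
      (fun x _ => v1 x)
    have u2 : CH (res ν (fun x => a x = j)) (fun x => vfl n fun i => z (p x) i - v x i * z (p x) j)
        (fun x => (X x, F (p x))) =
        CH (res ν (fun x => a x = j)) (fun x => vf n (fun i => z (p x) i - w x i * z (p x) (a x)))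
        (fun x => (X x, F (p x))) := by
      apply ch_congr_left
      intro x x' h h' _
      have e1 := (res_ne ν _ h).2
      have e2 := (res_ne ν _ h').2
      rw [hv x, hv x', if_pos e1, if_pos e2, e1, e2]
      exact Iff.rfl
    have u3 := mass_split ν (fun x => a x = j)
    have m1 := mass_nonneg' _ (res_nn hν (fun x => a x = j))
    have m2 := mass_nonneg' _ (res_nn hν (fun x => ¬ a x = j))
    rw [hm] at u3
    rw [u2] at sp
    have q' : (N - εQ) * n ≤ CH ν (fun x => vfl n fun i => z (p x) i - v x i * z (p x) j)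
        (fun x => (X x, F (p x))) := by
      refine le_trans (le_of_eq ?_) q
      push_cast
      ring
    have u1' : CH (res ν (fun x => ¬ a x = j)) (fun x => vfl n fun i => z (p x) i - v x i * z (p x) j)
        (fun x => (X x, F (p x))) ≤ N * (n + Real.logb 2 (8 * K)) * mass (res ν (fun x => ¬ a x = j)) := u1
    have u4 : N * Real.logb 2 (8 * K) * mass (res ν (fun x => ¬ a x = j)) ≤ N * Real.logb 2 (8 * K) := by
      apply mul_le_of_le_one_right (mul_nonneg (Nat.cast_nonneg N) h8)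
      linarith
    have u5 : N * (n + Real.logb 2 (8 * K)) * mass (res ν (fun x => ¬ a x = j)) =
        N * n * mass (res ν (fun x => ¬ a x = j)) +
          N * Real.logb 2 (8 * K) * mass (res ν (fun x => ¬ a x = j)) := by ring
    have u6 : (N * n : ℝ) = N * n * mass (res ν (fun x => a x = j)) +
        N * n * mass (res ν (fun x => ¬ a x = j)) := by
      rw [← mul_add, ← u3, mul_one]
    have u7 : (N - εQ) * n = N * n - εQ * n := by ring
    linarith
  have h2 := Finset.sum_le_sum fun (j : Fin (N + 1)) (_ : j ∈ univ) => h1 j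
  rw [Finset.sum_sub_distrib, ← Finset.mul_sum, ← mass_parts ν a, hm, mul_one, Finset.sum_const, Finset.card_univ,
    Fintype.card_fin, nsmul_eq_mul] at h2
  push_cast at h2
  exact h2

/-- the second centre is bounded -/
theorem edg_bz3 {n : ℕ} {ρ η εQ ηQ c : ℝ} {μ : Ω → ℝ} {F : Ω → φ} {T T' : Ω → ℝ} {A C z : Ω → Fin N → ℝ}
    (hE : Edg N n ρ η εQ ηQ c μ F T T' A C z) (ω : Ω) (i : Fin N) :
    |z ω i + c * (T ω * C ω i - A ω i * T' ω)| ≤ 3 := by
  have h1 := hE.bz ω i
  have h2 : |T ω * C ω i| ≤ 1 := by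
    rw [abs_mul]
    exact mul_le_one₀ (abs_le.mpr ⟨by linarith [(hE.bT ω).1], (hE.bT ω).2.le⟩) (abs_nonneg _) (hE.bC ω i)
  have h3 : |A ω i * T' ω| ≤ 1 := by
    rw [abs_mul]
    exact mul_le_one₀ (hE.bA ω i) (abs_nonneg _) (abs_le.mpr ⟨by linarith [(hE.bT' ω).1], (hE.bT' ω).2.le⟩)
  have hc : |c| = 1 := by
    rcases hE.hc with h | h
    · rw [h, abs_one]
    · rw [h, abs_neg, abs_one]
  have h4 : |c * (T ω * C ω i - A ω i * T' ω)| ≤ 2 := by
    rw [abs_mul, hc, one_mul]
    refine (abs_sub _ _).trans ?_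
    linarith
  refine (abs_add_le _ _).trans ?_
  linarith

/-- **ADD for digital edges**: `w` is a law with two edges `ea`, `eb` with the same base, centre and point `p`; the
cells of a pair of exact copies are glued over the base, `p`, (a refinement of) the difference of the coordinates `tq`
of the two points `q` and the cell of the second centre -/
theorem addE {n : ℕ} {ρ η εQ ηQ c : ℝ} {μ : Ω → ℝ} {F : Ω → φ} {T T' : Ω → ℝ} {A C z : Ω → Fin (N + 1) → ℝ}
    (hE : Edg (N + 1) n ρ η εQ ηQ c μ F T T' A C z) {X Pt Pp : Type} [Fintype X] (w : X → ℝ) (hw : ∀ x, 0 ≤ w x)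
    (ea eb : X → Ω) (hb : push eb w = μ)
    (q : Ω → Pt) (p : Ω → Pp) (tq : Pt → ℝ) (Cq : Pt → Fin (N + 1) → ℝ) (κ κ₀ : ℝ) (hκ : |κ| ≤ 4)
    (hq : ∀ ω, T' ω = κ * tq (q ω) + κ₀ ∧ C ω = Cq (q ω))
    (hpp : ∀ ω ω', p ω = p ω' → T ω = T ω' ∧ A ω = A ω')
    (hF : ∀ x, w x ≠ 0 → F (ea x) = F (eb x)) (hz : ∀ x, w x ≠ 0 → z (ea x) = z (eb x))
    (hp : ∀ x, w x ≠ 0 → p (ea x) = p (eb x))
    {ε1 ε2 ε3 ε4 : ℝ}
    (m : AddN w (fun x => F (ea x)) (fun x => (q (ea x), q (eb x))) (fun x => p (ea x)) (fun x => T (ea x))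
      (fun x i => z (eb x) i + c * (T (eb x) * C (eb x) i - A (eb x) i * T' (eb x)))
      (fun x i => z (ea x) i + c * (T (ea x) * C (ea x) i - A (ea x) i * T' (ea x))) n ε1 ε2 ε3 ε4)
    (hρ : ρ ≤ N + 1) (hη : 0 ≤ η) (hd : dl (N + 1) 4 ε1 ε2 ε3 ≤ ηQ * n) (k : ℕ) (hk : k ≤ n)
    {δ : Type} (cc : Pt × Pt → δ) :
    (ρ * n - k - cN (N + 1) (4 * 4)) * Pw (amw w w
        (fun x => (F (ea x), p (ea x), (cl n (tq (q (ea x)) - tq (q (eb x))), cc (q (ea x), q (eb x))),
          vf n (fun i => z (ea x) i + c * (T (ea x) * C (ea x) i - A (ea x) i * T' (ea x)))))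
        (fun x => (F (ea x), p (ea x), (cl n (tq (q (ea x)) - tq (q (eb x))), cc (q (ea x), q (eb x))),
          vf n (fun i => z (ea x) i + c * (T (ea x) * C (ea x) i - A (ea x) i * T' (ea x))))))
        (fun x => ∃ i, ((2 : ℝ) ^ k)⁻¹ ≤ |((Cq (q (ea x.1)) - Cq (q (eb x.1))) -
          (Cq (q (ea x.2)) - Cq (q (eb x.2)))) i|) ≤
      (η * n + (N + 1) * (n + Real.logb 2 (8 * 4)) * η + 1) + (N + 1) * (εQ * n + N * Real.logb 2 (8 * 4)) +
        (ε4 + dl (N + 1) 4 ε1 ε2 ε3) + (N + 1) * Real.logb 2 (8 * (4 * 4)) := by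
  obtain ⟨z3, hz3⟩ : ∃ z3 : Ω → Fin (N + 1) → ℝ, z3 = fun ω i => z ω i + c * (T ω * C ω i - A ω i * T' ω) :=
    ⟨_, rfl⟩
  have e3 : ∀ ω, (fun i => z ω i + c * (T ω * C ω i - A ω i * T' ω)) = z3 ω := fun ω => by rw [hz3]
  have hE3 : QuoF (N + 1) n εQ ηQ μ F z3 := by
    rw [hz3]
    exact hE.Q3
  have hU3 := hE.U3
  have b3 : ∀ ω i, |z3 ω i| ≤ 4 := by
    intro ω i
    have := edg_bz3 hE ω i
    rw [hz3]
    linarith
  have m' : AddN w (fun x => F (ea x)) (fun x => (q (ea x), q (eb x))) (fun x => p (ea x)) (fun x => T (ea x))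
      (fun x => z3 (eb x)) (fun x => z3 (ea x)) n ε1 ε2 ε3 ε4 := by
    rw [hz3]
    exact m
  simp only [e3] at hU3 ⊢
  have hc : |c| = 1 := by
    rcases hE.hc with h | h
    · rw [h, abs_one]
    · rw [h, abs_neg, abs_one]
  have hm : mass w = 1 := by
    rw [← push_mass eb w hw, hb, hE.ms]
  have hpT : ∀ x, w x ≠ 0 → T (eb x) = T (ea x) ∧ A (eb x) = A (ea x) := fun x hx =>
    hpp _ _ (hp x hx).symm
  -- the data
  have D : AddD w (fun x => F (ea x)) (fun x => (q (ea x), q (eb x))) (fun x => p (ea x))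
      (fun x => (cl n (tq (q (ea x)) - tq (q (eb x))), cc (q (ea x), q (eb x))))
      (fun x => tq (q (ea x)) - tq (q (eb x))) (fun x => T (ea x))
      (fun x i => c * (Cq (q (ea x)) i - Cq (q (eb x)) i)) (fun x i => -(c * κ * A (ea x) i))
      (fun x => z3 (eb x)) (fun x => z3 (ea x)) n 4 :=
    { nn := hw
      ms := hm
      hP := by
        intro x x' _ _ e
        rw [Prod.mk.injEq] at e
        rw [e.1, e.2]
        exact ⟨rfl, rfl, rfl⟩
      hL := by
        intro x x' _ _ e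
        exact (Prod.ext_iff.1 e).1
      hQ := by
        intro x x' _ _ e
        obtain ⟨e1, e2⟩ := hpp _ _ e
        rw [e1, e2]
        exact ⟨rfl, rfl⟩
      K1 := by norm_num
      bT := by
        intro x _
        exact abs_le.mpr ⟨by linarith [(hE.bT (ea x)).1], by linarith [(hE.bT (ea x)).2]⟩
      bc := by
        intro x _ i
        rw [abs_neg, abs_mul, abs_mul, hc, one_mul]
        calc |κ| * |A (ea x) i| ≤ 4 * 1 := mul_le_mul hκ (hE.bA _ _) (abs_nonneg _) (by norm_num)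
          _ = 4 := by norm_num
      bz := fun x _ i => b3 _ _
      hy := by
        intro x hx i
        obtain ⟨t1, t2⟩ := hpT x hx
        have t3 := congrFun (hz x hx) i
        have h0 : z3 (ea x) i - z3 (eb x) i - T (ea x) * (c * (Cq (q (ea x)) i - Cq (q (eb x)) i)) -
            (tq (q (ea x)) - tq (q (eb x))) * -(c * κ * A (ea x) i) = 0 := by
          rw [hz3]
          beta_reduce
          rw [t1, t2, t3, (hq (ea x)).1, (hq (eb x)).1, (hq (ea x)).2, (hq (eb x)).2]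
          ring
        rw [h0, abs_zero]
        positivity }
  have hk2 := D.real_ind m'
  have key := D.add m' k hk ρ (η * n + (N + 1) * (n + Real.logb 2 (8 * 4)) * η + 1)
    ((N + 1) * (εQ * n + N * Real.logb 2 (8 * 4))) ?_ ?_
  · have hcp : amw w w
        (fun x => (F (ea x), p (ea x), (cl n (tq (q (ea x)) - tq (q (eb x))), cc (q (ea x), q (eb x))),
          vf n (z3 (ea x))))
        (fun x => (F (ea x), p (ea x), (cl n (tq (q (ea x)) - tq (q (eb x))), cc (q (ea x), q (eb x))),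
          vf n (z3 (ea x)))) = cp w (fun x => F (ea x)) (fun x => p (ea x))
      (fun x => (cl n (tq (q (ea x)) - tq (q (eb x))), cc (q (ea x), q (eb x)))) (fun x => z3 (ea x)) n := by
      apply Pool.Agent.Helper99.FW.amw_congr_lab
      intro x x' _ _
      unfold lab
      simp only [Prod.mk.injEq]
      constructor
      · rintro ⟨a1, a2, ⟨a3, a4⟩, a5⟩
        exact ⟨⟨⟨a3, a4⟩, a2, a5⟩, a1⟩
      · rintro ⟨⟨⟨a3, a4⟩, a2, a5⟩, a1⟩
        exact ⟨a1, a2, ⟨a3, a4⟩, a5⟩
    rw [hcp, Pw_eq]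
    have hev : ∀ x : X × X, (∃ i, ((2 : ℝ) ^ k)⁻¹ ≤ |((Cq (q (ea x.1)) - Cq (q (eb x.1))) -
        (Cq (q (ea x.2)) - Cq (q (eb x.2)))) i|) ↔
        ∃ i, ((2 : ℝ) ^ k)⁻¹ ≤ |c * (Cq (q (ea x.1)) i - Cq (q (eb x.1)) i) -
          c * (Cq (q (ea x.2)) i - Cq (q (eb x.2)) i)| := by
      intro x
      apply exists_congr
      intro i
      rw [← mul_sub, abs_mul, hc, one_mul]
      exact Iff.rfl
    simp only [hev]
    push_cast at key ⊢
    exact key
  · intro μ' h0 hle
    have hm' : mass μ' ≤ 1 := by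
      rw [← hm]
      exact Finset.sum_le_sum fun x _ => hle x
    have hne : ∀ x, μ' x ≠ 0 → w x ≠ 0 := fun x h h1 => h (le_antisymm (h1 ▸ hle x) (h0 x))
    have e1 : CH μ' (fun x => vf n (z3 (eb x))) (fun x => F (ea x)) =
        CH (push eb μ') (fun ω => vf n (z3 ω)) F := by
      rw [push_CH eb μ' h0 (fun ω => vf n (z3 ω)) F]
      apply ch_congr_right
      intro x x' h h'
      rw [hF x (hne x h), hF x' (hne x' h')]
    have e2 := ch_sub_le μ (push eb μ') (fun ω => by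
      rw [push_ind]
      exact Finset.sum_nonneg fun x _ => mul_nonneg (ind_nonneg _) (h0 x)) (fun ω => by
      rw [← hb]
      exact push_le eb μ' w hle ω) z3 F n (K := 4) (by norm_num) (fun ω _ i => b3 ω i)
      (((N + 1 : ℕ) - ρ) * n + η * n) η (by
        have h1 : (0 : ℝ) ≤ ((N + 1 : ℕ) : ℝ) - ρ := by
          push_cast
          linarith
        positivity) (by
        refine le_trans ?_ hU3
        apply Pool.Agent.Helper46.WF.Pw_mono _ hE.nn
        intro ω _ h
        exact ⟨n, le_rfl, h⟩)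
    rw [push_mass eb μ' h0] at e2
    rw [e1]
    push_cast at e2
    have e4 : η * n * mass μ' ≤ η * n := mul_le_of_le_one_right (by positivity) hm'
    have e5 : ((N : ℝ) + 1 - ρ) * n * mass μ' + η * n * mass μ' = (((N : ℝ) + 1 - ρ) * n + η * n) * mass μ' := by
      ring
    linarith
  · intro v a hva hv1 hv2
    have hs : ∀ x : X × X, cp w (fun x => F (ea x)) (fun x => p (ea x))
      (fun x => (cl n (tq (q (ea x)) - tq (q (eb x))), cc (q (ea x), q (eb x)))) (fun x => z3 (ea x)) n x ≠ 0 →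
        F (ea x.1) = F (eb x.2) := by
      intro x hx
      obtain ⟨⟨-, -, -, x4⟩, -, x6⟩ := cp_supp x hx
      exact x4.trans (hF _ x6)
    have h2 := D.push2
    have e0 : ∀ ω ω' : X × X, cp w (fun x => F (ea x)) (fun x => p (ea x))
      (fun x => (cl n (tq (q (ea x)) - tq (q (eb x))), cc (q (ea x), q (eb x)))) (fun x => z3 (ea x)) n ω ≠ 0 →
        cp w (fun x => F (ea x)) (fun x => p (ea x))
      (fun x => (cl n (tq (q (ea x)) - tq (q (eb x))), cc (q (ea x), q (eb x)))) (fun x => z3 (ea x)) n ω' ≠ 0 →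
        (((((q (ea ω.1), q (eb ω.1)), (q (ea ω.2), q (eb ω.2))), F (ea ω.1)) =
          (((q (ea ω'.1), q (eb ω'.1)), (q (ea ω'.2), q (eb ω'.2))), F (ea ω'.1))) ↔
        ((((q (ea ω.1), q (eb ω.1)), (q (ea ω.2), q (eb ω.2))), F (eb ω.2)) =
          (((q (ea ω'.1), q (eb ω'.1)), (q (ea ω'.2), q (eb ω'.2))), F (eb ω'.2)))) := by
      intro x x' h h'
      rw [hs x h, hs x' h']
    have qv := quo_var hE3 (cp w (fun x => F (ea x)) (fun x => p (ea x))
      (fun x => (cl n (tq (q (ea x)) - tq (q (eb x))), cc (q (ea x), q (eb x)))) (fun x => z3 (ea x)) n)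
      (fun x => eb x.2) D.cpn D.cp_mass (by
        rw [← hb, ← h2, push_push]
        rw [h2]) (K := 4) (by norm_num) b3
      (fun x => ((q (ea x.1), q (eb x.1)), (q (ea x.2), q (eb x.2)))) (by
        have r3 := hk2.2.2
        rw [ch_congr_right _ _ _ _ e0] at r3
        have r4 : CH (cp w (fun x => F (ea x)) (fun x => p (ea x))
            (fun x => (cl n (tq (q (ea x)) - tq (q (eb x))), cc (q (ea x), q (eb x)))) (fun x => z3 (ea x)) n)
            (fun x => vf n (z3 (eb x.2))) (fun x => F (eb x.2)) =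
            CH w (fun x => vf n (z3 (eb x))) (fun x => F (ea x)) := by
          rw [D.ch2 (fun x => vf n (z3 (eb x))) (fun x => F (eb x))]
          apply ch_congr_right
          intro x x' h h'
          rw [hF x h, hF x' h']
        rw [r4]
        linarith) v a (by
        intro x x' h h' e1 e2
        apply hva x x' h h'
        exact (e0 x x' h h').mpr (Prod.ext e1 e2)) hv1 hv2
    rw [ch_congr_right _ _ _ _ e0]
    exact qv

end Pool.Agent.Helper22.FW
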