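import Pool.Agent.Helper15.VG.Form
import Pool.Agent.Helper15.VW.Pf
import Pool.Agent.Helper15.VW.Exc

/-!
# The constants of row [K] are affine in the logarithm of the margin `C`
-/

set_option autoImplicit false

namespace Pool.Agent.Helper22.FW

open Pool.Agent.Helper15.VW Pool.Agent.Helper15.VG

/-- affine bound of a function of `C` in `log C` -/
def AffB (f : ℝ → ℝ) : Prop := ∃ a b : ℝ, 0 ≤ a ∧ 0 ≤ b ∧ ∀ C : ℝ, 1 ≤ C → f C ≤ a * Real.logb 2 C + b

theorem AffB.const (c : ℝ) : AffB fun _ => c :=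
  ⟨0, |c|, le_rfl, abs_nonneg c, fun C _ => by rw [zero_mul, zero_add]; exact le_abs_self c⟩

theorem AffB.add {f g : ℝ → ℝ} (hf : AffB f) (hg : AffB g) : AffB fun C => f C + g C := by
  obtain ⟨a, b, ha, hb, h⟩ := hf
  obtain ⟨a', b', ha', hb', h'⟩ := hg
  refine ⟨a + a', b + b', by positivity, by positivity, fun C hC => ?_⟩
  have h1 := h C hC
  have h2 := h' C hC
  beta_reduce
  linarith

theorem AffB.smul {f : ℝ → ℝ} (hf : AffB f) {c : ℝ} (hc : 0 ≤ c) : AffB fun C => c * f C := by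
  obtain ⟨a, b, ha, hb, h⟩ := hf
  refine ⟨c * a, c * b, by positivity, by positivity, fun C hC => ?_⟩
  have h1 := mul_le_mul_of_nonneg_left (h C hC) hc
  beta_reduce
  linarith

theorem AffB.comp {f : ℝ → ℝ} (hf : AffB f) {c : ℝ} (hc : 1 ≤ c) : AffB fun C => f (c * C) := by
  obtain ⟨a, b, ha, hb, h⟩ := hf
  have h0 : 0 ≤ Real.logb 2 c := Real.logb_nonneg (by norm_num) hc
  refine ⟨a, a * Real.logb 2 c + b, ha, by positivity, fun C hC => ?_⟩
  have h1 := h (c * C) (by nlinarith)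
  rw [Real.logb_mul (by linarith) (by linarith)] at h1
  beta_reduce
  linarith

/-- logarithms of polynomials -/
theorem AffB.log {p : ℝ → ℝ} (A : ℝ) (d : ℕ) (hA : 1 ≤ A) (h : ∀ C : ℝ, 1 ≤ C → 0 < p C ∧ p C ≤ A * C ^ d) :
    AffB fun C => Real.logb 2 (p C) := by
  refine ⟨d, Real.logb 2 A, Nat.cast_nonneg d, Real.logb_nonneg (by norm_num) hA, fun C hC => ?_⟩
  obtain ⟨h1, h2⟩ := h C hC
  have h3 : Real.logb 2 (p C) ≤ Real.logb 2 (A * C ^ d) := Real.logb_le_logb_of_le (by norm_num) h1 h2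
  rw [Real.logb_mul (by linarith) (by positivity), Real.logb_pow] at h3
  linarith

theorem affB_cT (r : ℕ) : AffB (cT r) := by
  unfold cT
  exact ((AffB.log 5 1 (by norm_num) fun C hC => ⟨by linarith, by rw [pow_one]; linarith⟩).smul (Nat.cast_nonneg r)).add
    (AffB.const _)

theorem affB_cN (r : ℕ) : AffB (cN r) := by
  unfold cN
  refine ((AffB.log (4 + 8 * r) 1 (by
    have : (0 : ℝ) ≤ r := Nat.cast_nonneg r
    linarith) fun C hC => ?_).smul (Nat.cast_nonneg r)).add (AffB.const _)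
  have h0 : (0 : ℝ) ≤ r := Nat.cast_nonneg r
  have h1 : 0 ≤ r * C := by positivity
  refine ⟨by nlinarith, ?_⟩
  rw [pow_one]
  nlinarith

theorem affB_cC (r : ℕ) : AffB (cC r) := by
  unfold cC
  refine ((AffB.log 15 2 (by norm_num) fun C hC => ⟨by positivity, by nlinarith⟩).add
    ((AffB.log 10 1 (by norm_num) fun C hC => ⟨by positivity, by rw [pow_one]; linarith⟩).smul
      (Nat.cast_nonneg r))).add (AffB.log 6 1 (by norm_num) fun C hC => ⟨by positivity, by rw [pow_one]; linarith⟩)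

theorem affB_cF1 : AffB (cF1 1) := by
  unfold cF1 cK
  refine (AffB.smul (f := fun C => Real.logb 2 (2 * C + 4) + Real.logb 2 (C + 3)) ?_ (Nat.cast_nonneg 1)).add
    ((AffB.log 3 1 (by norm_num) fun C hC => ⟨by positivity, by rw [pow_one]; linarith⟩).smul (by norm_num))
  exact (AffB.log 6 1 (by norm_num) fun C hC => ⟨by positivity, by rw [pow_one]; linarith⟩).add
    (AffB.log 4 1 (by norm_num) fun C hC => ⟨by positivity, by rw [pow_one]; linarith⟩)

theorem affB_cF2 (r : ℕ) : AffB (cF2 r 1) := by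
  have e : cF2 r 1 = fun C => cC r (6 * C) + 2 + 2 * Real.logb 2 (C * C + C + 2 + 1) := by
    funext C
    unfold cF2
    have h1 : C * (4 * ((1 : ℕ) : ℝ) + 2) = 6 * C := by
      push_cast
      ring
    rw [h1]
    push_cast
    ring
  rw [e]
  refine (((affB_cC r).comp (by norm_num)).add (AffB.const 2)).add
    ((AffB.log 5 2 (by norm_num) fun C hC => ⟨by positivity, by nlinarith⟩).smul (by norm_num))

theorem affB_cF3 (r : ℕ) : AffB (cF3 r 1) := by
  have e : cF3 r 1 = fun C => cT r (6 * C) + Real.logb 2 (2 * (6 * C) + 2) := by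
    funext C
    unfold cF3
    have h1 : C * (4 * ((1 : ℕ) : ℝ) + 2) = 6 * C := by
      push_cast
      ring
    rw [h1]
  rw [e]
  exact ((affB_cT r).comp (by norm_num)).add
    (AffB.log 14 1 (by norm_num) fun C hC => ⟨by positivity, by rw [pow_one]; linarith⟩)

/-- in powers of two -/
theorem AffB.two {f : ℝ → ℝ} (hf : AffB f) {c : ℝ} (hc : 1 ≤ c) :
    ∃ a b : ℝ, 0 ≤ a ∧ 0 ≤ b ∧ ∀ x : ℕ, f (c * 2 ^ x) ≤ a * x + b := by
  obtain ⟨a, b, ha, hb, h⟩ := hf.comp hc
  refine ⟨a, b, ha, hb, fun x => ?_⟩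
  have h1 := h (2 ^ x) (one_le_pow₀ (by norm_num))
  rw [Real.logb_pow, Real.logb_self_eq_one (by norm_num), mul_one] at h1
  exact h1

end Pool.Agent.Helper22.FW
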