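import Pool.Agent.Helper22.FW.NumF
import Pool.Agent.Helper61.FW.Cst1
import Pool.Agent.Helper78.FW.HD

/-!
# `COST1` holds: Theorem FW in finite form
-/

set_option autoImplicit false

namespace Pool.Agent.Helper22.FW

open Finset Pool.Agent.Helper69.RK Pool.Agent.Helper61.GL Pool.Agent.Helper25.FA Pool.Agent.Helper46.WF
  Pool.Agent.Helper70.FW Pool.Agent.Helper58.TR Pool.Agent.Helper99.FW Pool.Agent.Helper61.FW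
  Pool.Agent.Helper58.VW Pool.Agent.Helper78.FW Pool.Agent.Helper15.VW Pool.Agent.Helper18.FW
  Pool.Agent.Helper58.FW
open Pool.Agent.Helper61.EC (vfl)
open Pool.Agent.Helper15.VG (cF1 cF2 cF3)
open Pool.Agent.Helper9.ND (Rc)
open Pool.Agent.Helper6.FW (CK CK_big pvK psK G0K off)
open Pool.Agent.Helper9.FW (cst_p)

noncomputable section

/-- **the rows of one side and the mean of their costs**, dimension `N + 1` -/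
theorem cost1 (N : ℕ) {ρ : ℝ} (hρ : 0 < ρ) (hρ1 : ρ ≤ 1) : COST1 (N + 1) ρ := by
  intro b k0 e τ0 hb he hτ0
  obtain ⟨C₀, hC0, κ, r, ρw, hκ, hCst, k, K, hk, hK, δ, hδ, P, S', X, hS', hSC, hSP, hP2, hX, hnod, εA, hεA, εQ₀,
    hεQ₀, H⟩ := numF N hρ hρ1 k0 he hτ0
  have hC1 : 1 ≤ CK (N + 1) C₀ := by
    have h1 := (CK_big (C₀ := C₀) (Nat.succ_pos N)).1
    linarith
  refine ⟨CK (N + 1) C₀, hC1, κ, r, ρw, hκ, hCst, k, K, hk, hK, δ, hδ, P, S', X, hS', hSP, hP2, hnod, εQ₀, hεQ₀,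
    fun ηQ hηQ => ?_⟩
  obtain ⟨η₀, hη₀, H⟩ := H ηQ hηQ
  refine ⟨η₀, hη₀, fun η hη hη1 => ?_⟩
  obtain ⟨n₀, H⟩ := H η hη hη1
  refine ⟨n₀, ?_⟩
  intro Ω φ α β _ _ _ D hn εQ c hεQ tp tq Ap Cq h FP hFP FQ hFQ Λ _ l en hr hx a0 b0 oL oR hoff I hI
  have hF := H D.n hn εQ hεQ
  have hcst := hCst ((1 / 2) ^ Fn ρ D.n) (by positivity) (pow_le_one₀ (by norm_num) (by norm_num))
  have hN0 : (0 : ℝ) ≤ ((N + 1 : ℕ) : ℝ) := Nat.cast_nonneg _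
  have hF1 := kcF1_nn (C := CK (N + 1) C₀) (by linarith)
  have hF3 := kcF3_nn (N + 1) (C := CK (N + 1) C₀) (by linarith)
  have hT0 := kcT_nn (N + 1) (C := (((N + 1 : ℕ) : ℝ) + ((N + 1 : ℕ) : ℝ) + 1) * CK (N + 1) C₀) (by positivity)
  have hlr0 : 0 ≤ Real.logb 2 (Fintype.card (Rc (N + 1) r)) := by
    by_cases h0 : Fintype.card (Rc (N + 1) r) = 0
    · rw [h0]
      simp
    · exact Real.logb_nonneg (by norm_num) (by exact_mod_cast Nat.one_le_iff_ne_zero.mpr h0)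
  have hpv : 0 ≤ pvK (kR (N + 1) ρ (CK (N + 1) C₀)) K := by
    unfold pvK
    have q2 : (1 : ℝ) ≤ 2 ^ kR (N + 1) ρ (CK (N + 1) C₀) := one_le_pow₀ (by norm_num)
    have q3 : (1 / (2048 * (2 : ℝ) ^ kR (N + 1) ρ (CK (N + 1) C₀))) ^ 2 ≤ 1 := by
      apply pow_le_one₀ (by positivity)
      rw [div_le_one (by positivity)]
      linarith
    exact pow_nonneg (by linarith) _
  have hps : 0 ≤ psK (N + 1) (kR (N + 1) ρ (CK (N + 1) C₀)) K κ := by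
    unfold psK
    have h1 := cst_p hcst
    exact mul_nonneg (Nat.cast_nonneg _) (pow_nonneg (by linarith) _)
  have hk00 : 0 ≤ ((N + 1 : ℕ) : ℝ) * (2 * (Ln P D.n * Real.logb 2 (Fintype.card (Rc (N + 1) r))) +
        cF1 1 (CK (N + 1) C₀)) +
      ((N + 1 : ℕ) : ℝ) * (kR (N + 1) ρ (CK (N + 1) C₀) + cF3 (N + 1) 1 (CK (N + 1) C₀)) *
        (I * pvK (kR (N + 1) ρ (CK (N + 1) C₀)) K) +
      (kR (N + 1) ρ (CK (N + 1) C₀) + cT (N + 1) ((((N + 1 : ℕ) : ℝ) + ((N + 1 : ℕ) : ℝ) + 1) * CK (N + 1) C₀)) *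
        (I * psK (N + 1) (kR (N + 1) ρ (CK (N + 1) C₀)) K κ) := by positivity
  have hcD0 : 0 ≤ ((N + 1 : ℕ) : ℝ) * (kR (N + 1) ρ (CK (N + 1) C₀) + cF3 (N + 1) 1 (CK (N + 1) C₀)) := by positivity
  have hcd0 : 0 ≤ ((N + 1 : ℕ) : ℝ) * (K : ℝ) := by positivity
  have hcT0 : 0 ≤ ((N + 1 : ℕ) : ℝ) * (kR (N + 1) ρ (CK (N + 1) C₀) + cF3 (N + 1) 1 (CK (N + 1) C₀)) *
      (I + (Ln P D.n * P : ℕ)) +
      (kR (N + 1) ρ (CK (N + 1) C₀) + cT (N + 1) ((((N + 1 : ℕ) : ℝ) + ((N + 1 : ℕ) : ℝ) + 1) * CK (N + 1) C₀)) * I := by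
    positivity
  have hcn0 : 0 ≤ (kR (N + 1) ρ (CK (N + 1) C₀) : ℝ) * I := by positivity
  refine ⟨kAF D l en FP tp Ap FQ tq Cq P ρw (kR (N + 1) ρ (CK (N + 1) C₀)) r ((1 / 2) ^ Fn ρ D.n) κ oL oR S' C₀
    (Ln P D.n) (mvs k K) (fun a _ b v => (G0K D en a b0 v, off b (fun b v => Qp D en a (8 * K) b v) v)) δ
    (((N + 1 : ℕ) : ℝ) * (kR (N + 1) ρ (CK (N + 1) C₀) + cF3 (N + 1) 1 (CK (N + 1) C₀)))
    (((N + 1 : ℕ) : ℝ) * (2 * (Ln P D.n * Real.logb 2 (Fintype.card (Rc (N + 1) r))) +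
        cF1 1 (CK (N + 1) C₀)) +
      ((N + 1 : ℕ) : ℝ) * (kR (N + 1) ρ (CK (N + 1) C₀) + cF3 (N + 1) 1 (CK (N + 1) C₀)) *
        (I * pvK (kR (N + 1) ρ (CK (N + 1) C₀)) K) +
      (kR (N + 1) ρ (CK (N + 1) C₀) + cT (N + 1) ((((N + 1 : ℕ) : ℝ) + ((N + 1 : ℕ) : ℝ) + 1) * CK (N + 1) C₀)) *
        (I * psK (N + 1) (kR (N + 1) ρ (CK (N + 1) C₀)) K κ))
    (((N + 1 : ℕ) : ℝ) * K) 0
    (((N + 1 : ℕ) : ℝ) * (kR (N + 1) ρ (CK (N + 1) C₀) + cF3 (N + 1) 1 (CK (N + 1) C₀)) *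
      (I + (Ln P D.n * P : ℕ)) +
      (kR (N + 1) ρ (CK (N + 1) C₀) + cT (N + 1) ((((N + 1 : ℕ) : ℝ) + ((N + 1 : ℕ) : ℝ) + 1) * CK (N + 1) C₀)) * I)
    (kR (N + 1) ρ (CK (N + 1) C₀) * I) (kR (N + 1) ρ (CK (N + 1) C₀)) I a0 b0 ⟨0, hK⟩, ?_, ?_, ?_⟩
  · intro w hw m _
    exact kAF_nonneg h hr FP FQ P ρw _ r _ κ oL oR S' C₀ _ _ _ hδ.le hcD0 hk00 hcd0 le_rfl hcT0 hcn0 _ I a0 b0 _ hw m
  · intro j0 hM
    refine rows_kAF h FP hFQ hr hx a0 b0 hK hcst oL oR hδ.le hb hF.hLP (Xm := Fn ρ D.n + X) ?_ (by omega) hF.hn1'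
      hF.hn2'
    have h1 : (416 : ℝ) * ((N + 1 : ℕ) : ℝ) ≤ 2 ^ X := by exact_mod_cast hX
    have h2 : ((1 : ℝ) / 2) ^ Fn ρ D.n * 2 ^ (Fn ρ D.n + X) = 2 ^ X := by
      rw [pow_add, ← mul_assoc, ← mul_pow]
      norm_num
    rw [h2]
    exact h1
  · refine (kAF_mean h hr hx hFP hFQ hcst P oL oR a0 b0 ⟨0, hK⟩ hC0 hSC hSP hF.hn hF.hsl ?_ hη hF.hd hF.hk hF.hkg
      hF.hpos hF.hεA (fun a => ?_) (mvs k K) _ (fun a m b w w' _ _ h1 h2 h3 h4 h5 => glK_count b0 a b w w' h1 h2 h3 h4 h5)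
      (fun a m b w w' h1 h2 h3 => glK_fp hr _ _ a0 b0 a b w w' h1 h2 h3) _ I hcD0 hcd0 hcT0 hcn0).trans
      (hF.tot I hI _ _ _ _ _ _ hcD0 le_rfl le_rfl hcd0 le_rfl ?_ hcT0 le_rfl hcn0 le_rfl)
    · have : (0 : ℝ) ≤ N := Nat.cast_nonneg N
      linarith
    · exact hoff.2 a
    · positivity

/-- **THEOREM FW IN FINITE FORM**, all dimensions -/
theorem topf_all {N : ℕ} (hN : 0 < N) {ρ : ℝ} (hρ : 0 < ρ) (hρ1 : ρ ≤ 1) : TOPF N ρ 0 (ρ ^ 2 / 256) := by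
  obtain ⟨M, rfl⟩ : ∃ M, N = M + 1 := ⟨N - 1, by omega⟩
  exact topf_of_cost1 hN hρ hρ1 (cost1 M hρ hρ1)

end

end Pool.Agent.Helper22.FW
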