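import Pool.Agent.Helper61.GL.KRG
import Pool.Agent.Helper61.GL.Cal

/-!
# Real noise in the direction of a known vector (finite form)

`z1 = z0 + tau s + err` with `s` known to the label `X`: the entropy of `z1` is at least the entropy of `z1` modulo `s`
plus the entropy of the real number `tau` over `z0`, up to the logarithm of the length of `s`.
-/

set_option autoImplicit false

namespace Pool.Agent.Helper22.FW

open Finset Pool.Agent.Helper69.RK Pool.Agent.Helper61.GL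

variable {Ω α β γ δ ξ : Type} [Fintype Ω]

/-- cells of level `n` of a vector -/
noncomputable def vf {N : ℕ} (n : ℕ) (x : Fin N → ℝ) : Fin N → ℤ := fun i => fl n (x i)

/-- vector valued counting -/
theorem ch_vec {N : ℕ} (μ : Ω → ℝ) (hμ : ∀ ω, 0 ≤ μ ω) (X : Ω → Fin N → ℤ) (G : Ω → γ) (K : ℝ) (hK : 0 ≤ K)
    (h : ∀ ω ω', μ ω ≠ 0 → μ ω' ≠ 0 → G ω = G ω' → ∀ i, |(X ω i : ℝ) - X ω' i| ≤ K) :
    CH μ X G ≤ N * Real.logb 2 (K + 1) * mass μ :=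
  st_E3.2 Ω γ N μ X G K hμ hK fun ω ω' a b c => h ω ω' a b c

/-- cells of close numbers -/
theorem fl_close {n : ℕ} {x y c : ℝ} (h : |x - y| ≤ c * (2 ^ n)⁻¹) : |((fl n x : ℤ) : ℝ) - (fl n y : ℤ)| ≤ c + 1 := by
  unfold fl
  refine (floor_near _ _).trans ?_
  have h0 : (0 : ℝ) < 2 ^ n := by positivity
  rw [← mul_sub, abs_mul, abs_of_pos h0]
  have h1 := mul_le_mul_of_nonneg_left h h0.le
  have h2 : (2 : ℝ) ^ n * (c * (2 ^ n)⁻¹) = c := by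
    rw [mul_left_comm, mul_inv_cancel₀ h0.ne', mul_one]
  rw [h2] at h1
  linarith

/-- equal cells -/
theorem close_of_fl {n : ℕ} {x y : ℝ} (h : fl n x = fl n y) : |x - y| ≤ (2 ^ n)⁻¹ := by
  have h1 := floor_eq_near (a := 2 ^ n * x) (b := 2 ^ n * y) h
  have h0 : (0 : ℝ) < 2 ^ n := by positivity
  rw [← mul_sub, abs_mul, abs_of_pos h0] at h1
  rw [← one_div, le_div_iff₀ h0, mul_comm]
  exact h1

/-- the constant of the noise inequality -/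
noncomputable def cN (N : ℕ) (E0 : ℝ) : ℝ := (3 * N + 1) * Real.logb 2 (8 * E0)

theorem logb_mono' {x y : ℝ} (hx : 0 < x) (h : x ≤ y) : Real.logb 2 x ≤ Real.logb 2 y :=
  Real.logb_le_logb_of_le (by norm_num) hx h

theorem logb8_nonneg {E0 : ℝ} (h : 1 ≤ E0) : 0 ≤ Real.logb 2 (8 * E0) :=
  Real.logb_nonneg (by norm_num) (by linarith)

theorem mass_nonneg' (μ : Ω → ℝ) (hμ : ∀ ω, 0 ≤ μ ω) : 0 ≤ mass μ := Finset.sum_nonneg fun ω _ => hμ ω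

/-- **real noise** -/
theorem noise {N : ℕ} (μ : Ω → ℝ) (hμ : ∀ ω, 0 ≤ μ ω) (X : Ω → ξ) (z0 z1 s w : Ω → Fin N → ℝ) (τ : Ω → ℝ)
    (a : Ω → Fin N) (n m : ℕ) (hmn : m ≤ n) (E0 : ℝ) (hE0 : 1 ≤ E0)
    (hs : ∀ ω ω', μ ω ≠ 0 → μ ω' ≠ 0 → X ω = X ω' → s ω = s ω' ∧ a ω = a ω' ∧ w ω = w ω')
    (hw : ∀ ω, μ ω ≠ 0 → ∀ i, |w ω i| ≤ 1)
    (hsw : ∀ ω, μ ω ≠ 0 → ∀ i, s ω i = w ω i * s ω (a ω))
    (hsm : ∀ ω, μ ω ≠ 0 → ((2 : ℝ) ^ m)⁻¹ ≤ |s ω (a ω)|)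
    (hz : ∀ ω, μ ω ≠ 0 → ∀ i, |z1 ω i - z0 ω i - τ ω * s ω i| ≤ E0 * (2 ^ n)⁻¹) :
    CH μ (fun ω => vf n (fun i => z1 ω i - w ω i * z1 ω (a ω))) X +
        CH μ (fun ω => fl n (τ ω)) (fun ω => (vf n (z0 ω), X ω)) - (m + cN N E0) * mass μ ≤
      CH μ (fun ω => vf n (z1 ω)) X := by
  have hM := mass_nonneg' μ hμ
  have h8 := logb8_nonneg hE0
  obtain ⟨Q, hQ⟩ : ∃ Q : Ω → Fin N → ℤ, Q = fun ω => vf n (fun i => z1 ω i - w ω i * z1 ω (a ω)) :=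
    ⟨_, rfl⟩
  obtain ⟨Z0, hZ0⟩ : ∃ Z : Ω → Fin N → ℤ, Z = fun ω => vf n (z0 ω) := ⟨_, rfl⟩
  obtain ⟨Z1, hZ1⟩ : ∃ Z : Ω → Fin N → ℤ, Z = fun ω => vf n (z1 ω) := ⟨_, rfl⟩
  obtain ⟨t, ht⟩ : ∃ t : Ω → ℤ, t = fun ω => fl n (τ ω) := ⟨_, rfl⟩
  obtain ⟨u, hu⟩ : ∃ t : Ω → ℤ, t = fun ω => fl (n - m) (τ ω) := ⟨_, rfl⟩
  rw [← hQ, ← ht]
  have eZ0 : ∀ ω, vf n (z0 ω) = Z0 ω := fun ω => by rw [hZ0]
  have eZ1 : (fun ω => vf n (z1 ω)) = Z1 := hZ1.symm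
  rw [eZ1]
  simp only [eZ0]
  -- step 1
  have s1 : CH μ Q (fun ω => (Z1 ω, X ω)) ≤ N * Real.logb 2 (8 * E0) * mass μ := by
    have h1 := ch_vec μ hμ Q (fun ω => (Z1 ω, X ω)) 3 (by norm_num) (by
      intro ω ω' h h' e i
      rw [Prod.mk.injEq] at e
      obtain ⟨e1, e2⟩ := e
      obtain ⟨-, q2, q3⟩ := hs ω ω' h h' e2
      rw [hZ1] at e1
      have c1 := close_of_fl (congrFun e1 i)
      have c2 := close_of_fl (congrFun e1 (a ω))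
      rw [hQ]
      beta_reduce
      unfold vf
      have h2 : (3 : ℝ) = 2 + 1 := by norm_num
      rw [h2]
      apply fl_close
      rw [← q2, ← q3]
      have h3 : z1 ω i - w ω i * z1 ω (a ω) - (z1 ω' i - w ω i * z1 ω' (a ω)) =
          (z1 ω i - z1 ω' i) - w ω i * (z1 ω (a ω) - z1 ω' (a ω)) := by ring
      rw [h3]
      refine (abs_sub _ _).trans ?_
      rw [abs_mul]
      have h4 := mul_le_mul (hw ω h i) c2 (abs_nonneg _) zero_le_one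
      linarith)
    refine h1.trans (mul_le_mul_of_nonneg_right (mul_le_mul_of_nonneg_left ?_ (Nat.cast_nonneg N)) hM)
    exact logb_mono' (by norm_num) (by linarith)
  -- step 4
  have s4 : CH μ u (fun ω => (Z1 ω, (Z0 ω, (Q ω, X ω)))) ≤ Real.logb 2 (8 * E0) * mass μ := by
    have h1 := ch_int μ hμ u (fun ω => (Z1 ω, (Z0 ω, (Q ω, X ω)))) (4 * E0 + 1) (by linarith) (by
      intro ω ω' h h' e
      simp only [Prod.mk.injEq] at e
      obtain ⟨e1, e2, -, e3⟩ := e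
      obtain ⟨q1, q2, q3⟩ := hs ω ω' h h' e3
      rw [hZ1] at e1
      rw [hZ0] at e2
      have c1 := close_of_fl (congrFun e1 (a ω))
      have c2 := close_of_fl (congrFun e2 (a ω))
      have d1 := hz ω h (a ω)
      have d2 := hz ω' h' (a ω)
      rw [← q1] at d2
      rw [hu]
      apply fl_close
      have g1 : |(τ ω - τ ω') * s ω (a ω)| ≤ 4 * E0 * (2 ^ n)⁻¹ := by
        have e4 : (τ ω - τ ω') * s ω (a ω) = (z1 ω (a ω) - z1 ω' (a ω)) - (z0 ω (a ω) - z0 ω' (a ω)) -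
            ((z1 ω (a ω) - z0 ω (a ω) - τ ω * s ω (a ω)) - (z1 ω' (a ω) - z0 ω' (a ω) - τ ω' * s ω (a ω))) := by
          ring
        rw [e4]
        refine (abs_sub _ _).trans ?_
        have a1 := abs_sub (z1 ω (a ω) - z1 ω' (a ω)) (z0 ω (a ω) - z0 ω' (a ω))
        have a2 := abs_sub (z1 ω (a ω) - z0 ω (a ω) - τ ω * s ω (a ω)) (z1 ω' (a ω) - z0 ω' (a ω) - τ ω' * s ω (a ω))
        have a3 : (2 ^ n : ℝ)⁻¹ ≤ E0 * (2 ^ n)⁻¹ := le_mul_of_one_le_left (by positivity) hE0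
        linarith
      rw [abs_mul] at g1
      have g2 := hsm ω h
      have g3 : |τ ω - τ ω'| * ((2 : ℝ) ^ m)⁻¹ ≤ 4 * E0 * (2 ^ n)⁻¹ :=
        (mul_le_mul_of_nonneg_left g2 (abs_nonneg _)).trans g1
      have g4 : ((2 : ℝ) ^ (n - m))⁻¹ = (2 ^ n)⁻¹ * 2 ^ m := by
        rw [pow_sub₀ _ two_ne_zero hmn, mul_inv, inv_inv]
      rw [g4, ← mul_assoc]
      have hm0 : (0 : ℝ) < 2 ^ m := by positivity
      rw [← div_le_iff₀ hm0, div_eq_mul_inv]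
      exact g3)
    refine h1.trans (mul_le_mul_of_nonneg_right ?_ hM)
    exact logb_mono' (by linarith) (by linarith)
  -- step 5
  have s5 : CH μ Q (fun ω => (Z0 ω, X ω)) ≤ N * Real.logb 2 (8 * E0) * mass μ := by
    have h1 := ch_vec μ hμ Q (fun ω => (Z0 ω, X ω)) (6 * E0 + 1) (by linarith) (by
      intro ω ω' h h' e i
      rw [Prod.mk.injEq] at e
      obtain ⟨e1, e2⟩ := e
      obtain ⟨q1, q2, q3⟩ := hs ω ω' h h' e2
      rw [hZ0] at e1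
      have c1 := close_of_fl (congrFun e1 i)
      have c2 := close_of_fl (congrFun e1 (a ω))
      have d1 := hz ω h i
      have d2 := hz ω' h' i
      have d3 := hz ω h (a ω)
      have d4 := hz ω' h' (a ω)
      rw [← q1] at d2 d4
      rw [hQ]
      beta_reduce
      unfold vf
      apply fl_close
      rw [← q2, ← q3]
      have hw1 := hw ω h i
      have e3 := hsw ω h i
      obtain ⟨v, hv⟩ : ∃ v, v = w ω i := ⟨_, rfl⟩
      rw [← hv] at hw1 e3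
      beta_reduce
      rw [← hv]
      have h3 : z1 ω i - v * z1 ω (a ω) - (z1 ω' i - v * z1 ω' (a ω)) =
          ((z0 ω i - z0 ω' i) - v * (z0 ω (a ω) - z0 ω' (a ω))) +
          (((z1 ω i - z0 ω i - τ ω * s ω i) - (z1 ω' i - z0 ω' i - τ ω' * s ω i)) -
          v * ((z1 ω (a ω) - z0 ω (a ω) - τ ω * s ω (a ω)) -
            (z1 ω' (a ω) - z0 ω' (a ω) - τ ω' * s ω (a ω)))) := by
        rw [e3]; ring
      rw [h3]
      have b1 : |v * (z0 ω (a ω) - z0 ω' (a ω))| ≤ (2 ^ n)⁻¹ := by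
        rw [abs_mul]
        have := mul_le_mul hw1 c2 (abs_nonneg _) zero_le_one
        linarith
      have b2 : |(z1 ω (a ω) - z0 ω (a ω) - τ ω * s ω (a ω)) -
            (z1 ω' (a ω) - z0 ω' (a ω) - τ ω' * s ω (a ω))| ≤ 2 * E0 * (2 ^ n)⁻¹ := by
        refine (abs_sub _ _).trans ?_
        linarith
      have b3 : |v * ((z1 ω (a ω) - z0 ω (a ω) - τ ω * s ω (a ω)) -
            (z1 ω' (a ω) - z0 ω' (a ω) - τ ω' * s ω (a ω)))| ≤ 2 * E0 * (2 ^ n)⁻¹ := by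
        rw [abs_mul]
        have := mul_le_mul hw1 b2 (abs_nonneg _) zero_le_one
        linarith
      have b4 : |(z1 ω i - z0 ω i - τ ω * s ω i) - (z1 ω' i - z0 ω' i - τ ω' * s ω i)| ≤ 2 * E0 * (2 ^ n)⁻¹ := by
        refine (abs_sub _ _).trans ?_
        linarith
      have a3 : (2 ^ n : ℝ)⁻¹ ≤ E0 * (2 ^ n)⁻¹ := le_mul_of_one_le_left (by positivity) hE0
      have k1 := abs_add_le ((z0 ω i - z0 ω' i) - v * (z0 ω (a ω) - z0 ω' (a ω)))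
        (((z1 ω i - z0 ω i - τ ω * s ω i) - (z1 ω' i - z0 ω' i - τ ω' * s ω i)) -
          v * ((z1 ω (a ω) - z0 ω (a ω) - τ ω * s ω (a ω)) -
            (z1 ω' (a ω) - z0 ω' (a ω) - τ ω' * s ω (a ω))))
      have k2 := abs_sub (z0 ω i - z0 ω' i) (v * (z0 ω (a ω) - z0 ω' (a ω)))
      have k3 := abs_sub ((z1 ω i - z0 ω i - τ ω * s ω i) - (z1 ω' i - z0 ω' i - τ ω' * s ω i))
        (v * ((z1 ω (a ω) - z0 ω (a ω) - τ ω * s ω (a ω)) -
            (z1 ω' (a ω) - z0 ω' (a ω) - τ ω' * s ω (a ω))))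
      linarith)
    refine h1.trans (mul_le_mul_of_nonneg_right (mul_le_mul_of_nonneg_left ?_ (Nat.cast_nonneg N)) hM)
    exact logb_mono' (by linarith) (by linarith)
  -- step 6
  have s6 : CH μ t (fun ω => (u ω, (Z0 ω, X ω))) ≤ m * mass μ := by
    have h1 := ch_int μ hμ t (fun ω => (u ω, (Z0 ω, X ω))) (2 ^ m - 1)
      (by
        have : (1 : ℝ) ≤ 2 ^ m := one_le_pow₀ (by norm_num)
        linarith) (by
      intro ω ω' h h' e
      rw [Prod.mk.injEq] at e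
      obtain ⟨e1, -⟩ := e
      rw [hu] at e1
      beta_reduce at e1
      rw [fl_div (Nat.sub_le n m), fl_div (Nat.sub_le n m)] at e1
      have e2 : n - (n - m) = m := by omega
      rw [e2] at e1
      rw [ht]
      beta_reduce
      obtain ⟨A, hA⟩ : ∃ A, A = fl n (τ ω) := ⟨_, rfl⟩
      obtain ⟨B, hB⟩ : ∃ A, A = fl n (τ ω') := ⟨_, rfl⟩
      rw [← hA, ← hB] at e1 ⊢
      have hp : (0 : ℤ) < ((2 ^ m : ℕ) : ℤ) := by positivity
      have h1 := Int.emod_nonneg A hp.ne'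
      have h2 := Int.emod_lt_of_pos A hp
      have h3 := Int.emod_nonneg B hp.ne'
      have h4 := Int.emod_lt_of_pos B hp
      have h5 := Int.mul_ediv_add_emod A ((2 ^ m : ℕ) : ℤ)
      have h6 := Int.mul_ediv_add_emod B ((2 ^ m : ℕ) : ℤ)
      rw [e1] at h5
      have h7 : |A - B| ≤ ((2 ^ m : ℕ) : ℤ) - 1 := by
        rw [abs_le]
        constructor <;> omega
      have h8 : ((|A - B| : ℤ) : ℝ) ≤ ((((2 ^ m : ℕ) : ℤ) - 1 : ℤ) : ℝ) := by exact_mod_cast h7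
      push_cast at h8
      exact h8)
    refine h1.trans (le_of_eq ?_)
    have h2 : (2 : ℝ) ^ m - 1 + 1 = 2 ^ m := by ring
    rw [h2, Real.logb_pow, Real.logb_self_eq_one (by norm_num), mul_one]
  -- assembly
  have f1 := ch_chain μ Q Z1 X
  have f2 := ch_chain μ Z1 Q X
  have f3 : CH μ (fun ω => (Q ω, Z1 ω)) X = CH μ (fun ω => (Z1 ω, Q ω)) X := by
    apply ch_congr_left
    intro ω ω' _ _ _
    rw [Prod.mk.injEq, Prod.mk.injEq]
    exact ⟨fun h => ⟨h.2, h.1⟩, fun h => ⟨h.2, h.1⟩⟩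
  have f4 : CH μ Z1 (fun ω => (Z0 ω, (Q ω, X ω))) ≤ CH μ Z1 (fun ω => (Q ω, X ω)) :=
    ch_cond μ hμ _ _ _ fun ω ω' _ _ e => (Prod.ext_iff.1 e).2
  have f5 := ch_tri μ hμ u Z1 (fun ω => (Z0 ω, (Q ω, X ω)))
  have f6 := ch_tri μ hμ u Q (fun ω => (Z0 ω, X ω))
  have f7 : CH μ u (fun ω => (Q ω, (Z0 ω, X ω))) = CH μ u (fun ω => (Z0 ω, (Q ω, X ω))) := by
    apply ch_congr_right
    intro ω ω' _ _
    simp only [Prod.mk.injEq]
    tauto
  have f8 := ch_tri μ hμ t u (fun ω => (Z0 ω, X ω))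
  unfold cN
  have e : ((m : ℝ) + (3 * N + 1) * Real.logb 2 (8 * E0)) * mass μ =
    m * mass μ + 3 * (N * Real.logb 2 (8 * E0) * mass μ) + Real.logb 2 (8 * E0) * mass μ := by ring
  rw [e]
  have h9 : 0 ≤ N * Real.logb 2 (8 * E0) * mass μ := mul_nonneg (mul_nonneg (Nat.cast_nonneg N) h8) hM
  linarith

/-- additivity over an event known to the label -/
theorem ch_split {μ : Ω → ℝ} (f : Ω → α) (g : Ω → γ) (E : Ω → Prop)
    (hE : ∀ ω ω', μ ω ≠ 0 → μ ω' ≠ 0 → g ω = g ω' → E ω → E ω') :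
    CH μ f g = CH (res μ E) f g + CH (res μ (fun ω => ¬ E ω)) f g := by
  rw [e4_part μ f g E hE, e4_part μ f g (fun ω => ¬ E ω) (fun ω ω' h h' e hn he => hn (hE ω' ω h' h e.symm he)),
    ← Finset.sum_add_distrib]
  unfold CH
  refine Finset.sum_congr rfl fun ω _ => ?_
  by_cases h : E ω
  · rw [e4_res_pos μ E ω h, e4_res_neg μ _ ω (not_not.mpr h), zero_mul, add_zero]
  · rw [e4_res_neg μ E ω h, e4_res_pos μ (fun ω => ¬ E ω) ω h, zero_mul, zero_add]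

theorem mass_split (μ : Ω → ℝ) (E : Ω → Prop) : mass μ = mass (res μ E) + mass (res μ (fun ω => ¬ E ω)) := by
  unfold mass
  rw [← Finset.sum_add_distrib]
  refine Finset.sum_congr rfl fun ω _ => ?_
  by_cases h : E ω
  · rw [e4_res_pos μ E ω h, e4_res_neg μ _ ω (not_not.mpr h), add_zero]
  · rw [e4_res_neg μ E ω h, e4_res_pos μ (fun ω => ¬ E ω) ω h, zero_add]

theorem res_nn {μ : Ω → ℝ} (hμ : ∀ ω, 0 ≤ μ ω) (E : Ω → Prop) (ω : Ω) : 0 ≤ res μ E ω := by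
  by_cases h : E ω
  · rw [e4_res_pos μ E ω h]; exact hμ ω
  · rw [e4_res_neg μ E ω h]

/-- trivial bound for the cells of a bounded number -/
theorem ch_fl_le (μ : Ω → ℝ) (hμ : ∀ ω, 0 ≤ μ ω) (τ : Ω → ℝ) (G : Ω → γ) (n : ℕ) {K : ℝ} (hK : 1 ≤ K)
    (hτ : ∀ ω, μ ω ≠ 0 → |τ ω| ≤ K) : CH μ (fun ω => fl n (τ ω)) G ≤ (n + Real.logb 2 (8 * K)) * mass μ := by
  have h0 : (1 : ℝ) ≤ 2 ^ n := one_le_pow₀ (by norm_num)
  have hK2 : K ≤ K * 2 ^ n := le_mul_of_one_le_right (by linarith) h0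
  have h1 := ch_int μ hμ (fun ω => fl n (τ ω)) G (2 * K * 2 ^ n + 1) (by nlinarith) (by
    intro ω ω' h h' _
    apply fl_close
    rw [mul_assoc, mul_inv_cancel₀ (by positivity), mul_one]
    refine (abs_sub _ _).trans ?_
    linarith [hτ ω h, hτ ω' h'])
  refine h1.trans (mul_le_mul_of_nonneg_right ?_ (mass_nonneg' μ hμ))
  have h2 : Real.logb 2 (2 * K * 2 ^ n + 1 + 1) ≤ Real.logb 2 (2 ^ n * (8 * K)) :=
    logb_mono' (by nlinarith) (by nlinarith)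
  rw [Real.logb_mul (by positivity) (by linarith), Real.logb_pow, Real.logb_self_eq_one (by norm_num), mul_one] at h2
  exact h2

/-- trivial bound for the cells of a vector modulo a known vector -/
theorem ch_quo_le {N : ℕ} (μ : Ω → ℝ) (hμ : ∀ ω, 0 ≤ μ ω) (z w : Ω → Fin (N + 1) → ℝ) (a : Ω → Fin (N + 1))
    (X : Ω → ξ) (n : ℕ) {K : ℝ} (hK : 1 ≤ K) (hX : ∀ ω ω', μ ω ≠ 0 → μ ω' ≠ 0 → X ω = X ω' → a ω = a ω')
    (hz : ∀ ω, μ ω ≠ 0 → ∀ i, |z ω i| ≤ K) (hw : ∀ ω, μ ω ≠ 0 → ∀ i, |w ω i| ≤ 1)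
    (hwa : ∀ ω, μ ω ≠ 0 → w ω (a ω) = 1) :
    CH μ (fun ω => vf n (fun i => z ω i - w ω i * z ω (a ω))) X ≤ N * (n + Real.logb 2 (8 * K)) * mass μ := by
  have h0 : (1 : ℝ) ≤ 2 ^ n := one_le_pow₀ (by norm_num)
  have hK2 : K ≤ K * 2 ^ n := le_mul_of_one_le_right (by linarith) h0
  have h1 := ch_vec μ hμ (fun ω (j : Fin N) => fl n (z ω ((a ω).succAbove j) - w ω ((a ω).succAbove j) * z ω (a ω)))
    X (4 * K * 2 ^ n + 1) (by nlinarith) (by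
      intro ω ω' h h' _ j
      apply fl_close
      rw [mul_assoc, mul_inv_cancel₀ (by positivity), mul_one]
      have b : ∀ ω, μ ω ≠ 0 → |z ω ((a ω).succAbove j) - w ω ((a ω).succAbove j) * z ω (a ω)| ≤ 2 * K := by
        intro ω h
        refine (abs_sub _ _).trans ?_
        rw [abs_mul]
        have h3 := mul_le_mul (hw ω h ((a ω).succAbove j)) (hz ω h (a ω)) (abs_nonneg _) zero_le_one
        linarith [hz ω h ((a ω).succAbove j)]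
      refine (abs_sub _ _).trans ?_
      linarith [b ω h, b ω' h'])
  have h2 : CH μ (fun ω => vf n (fun i => z ω i - w ω i * z ω (a ω))) X ≤
      CH μ (fun ω (j : Fin N) => fl n (z ω ((a ω).succAbove j) - w ω ((a ω).succAbove j) * z ω (a ω))) X := by
    apply ch_mono μ hμ
    intro ω ω' h h' e e'
    have ea := hX ω ω' h h' e'
    funext i
    unfold vf
    by_cases hi : i = a ω
    · rw [hi]
      have q1 : z ω (a ω) - w ω (a ω) * z ω (a ω) = 0 := by rw [hwa ω h]; ring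
      have q2 : z ω' (a ω) - w ω' (a ω) * z ω' (a ω') = 0 := by rw [ea, hwa ω' h']; ring
      beta_reduce
      rw [q1, q2]
    · obtain ⟨j, rfl⟩ := Fin.exists_succAbove_eq hi
      have e3 := congrFun e j
      beta_reduce at e3
      rw [← ea] at e3
      rw [← ea]
      exact e3
  refine h2.trans (h1.trans (mul_le_mul_of_nonneg_right (mul_le_mul_of_nonneg_left ?_ (Nat.cast_nonneg N))
    (mass_nonneg' μ hμ)))
  have h3 : Real.logb 2 (4 * K * 2 ^ n + 1 + 1) ≤ Real.logb 2 (2 ^ n * (8 * K)) :=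
    logb_mono' (by nlinarith) (by nlinarith)
  rw [Real.logb_mul (by positivity) (by linarith), Real.logb_pow, Real.logb_self_eq_one (by norm_num), mul_one] at h3
  exact h3

/-- **real noise on an event**: a real noise in the direction of a known vector is small, if the vector with the
noise has the deficit `ρ` on the event and its quotients are full -/
theorem noise_ev {N : ℕ} {φ : Type} (μ : Ω → ℝ) (hμ : ∀ ω, 0 ≤ μ ω) (F : Ω → φ) (X : Ω → ξ)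
    (z0 z1 s w : Ω → Fin (N + 1) → ℝ) (τ : Ω → ℝ)
    (a : Ω → Fin (N + 1)) (n m : ℕ) (hmn : m ≤ n) (K : ℝ) (hK : 1 ≤ K)
    (hXF : ∀ ω ω', μ ω ≠ 0 → μ ω' ≠ 0 → X ω = X ω' → F ω = F ω')
    (hs : ∀ ω ω', μ ω ≠ 0 → μ ω' ≠ 0 → X ω = X ω' → s ω = s ω' ∧ a ω = a ω' ∧ w ω = w ω')
    (hw : ∀ ω, μ ω ≠ 0 → ∀ i, |w ω i| ≤ 1) (hwa : ∀ ω, μ ω ≠ 0 → w ω (a ω) = 1)
    (hsw : ∀ ω, μ ω ≠ 0 → ∀ i, s ω i = w ω i * s ω (a ω))
    (hz : ∀ ω, μ ω ≠ 0 → ∀ i, |z1 ω i - z0 ω i - τ ω * s ω i| ≤ K * (2 ^ n)⁻¹)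
    (hb : ∀ ω, μ ω ≠ 0 → ∀ i, |z1 ω i| ≤ K) (hbτ : ∀ ω, μ ω ≠ 0 → |τ ω| ≤ K) (ρ ηU ηQ ηR : ℝ)
    (hU : CH (res μ (fun ω => ((2 : ℝ) ^ m)⁻¹ ≤ |s ω (a ω)|)) (fun ω => vf n (z1 ω)) F ≤
      (N + 1 - ρ) * n * mass (res μ (fun ω => ((2 : ℝ) ^ m)⁻¹ ≤ |s ω (a ω)|)) + ηU)
    (hQ : N * n * mass μ - ηQ ≤ CH μ (fun ω => vf n (fun i => z1 ω i - w ω i * z1 ω (a ω))) X)
    (hR : n * mass μ - ηR ≤ CH μ (fun ω => fl n (τ ω)) (fun ω => (vf n (z0 ω), X ω))) :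
    (ρ * n - m - cN (N + 1) K) * mass (res μ (fun ω => ((2 : ℝ) ^ m)⁻¹ ≤ |s ω (a ω)|)) ≤
      ηU + ηQ + ηR + (N + 1) * Real.logb 2 (8 * K) * mass μ := by
  obtain ⟨E, hE⟩ : ∃ E : Ω → Prop, E = fun ω => ((2 : ℝ) ^ m)⁻¹ ≤ |s ω (a ω)| := ⟨_, rfl⟩
  rw [← hE] at hU ⊢
  have hEX : ∀ ω ω', μ ω ≠ 0 → μ ω' ≠ 0 → X ω = X ω' → E ω → E ω' := by
    intro ω ω' h h' e he
    obtain ⟨q1, q2, -⟩ := hs ω ω' h h' e
    rw [hE] at he ⊢
    beta_reduce at he ⊢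
    rw [← q1, ← q2]
    exact he
  have c1 := ch_split (μ := μ) (fun ω => vf n (fun i => z1 ω i - w ω i * z1 ω (a ω))) X E hEX
  have c2 := ch_split (μ := μ) (fun ω => fl n (τ ω)) (fun ω => (vf n (z0 ω), X ω)) E
    (fun ω ω' h h' e => hEX ω ω' h h' (Prod.ext_iff.1 e).2)
  have hn1 : ∀ ω, 0 ≤ res μ E ω := res_nn hμ E
  have hn2 : ∀ ω, 0 ≤ res μ (fun ω => ¬ E ω) ω := res_nn hμ _
  have ne : ∀ {G : Ω → Prop} {ω}, res μ G ω ≠ 0 → μ ω ≠ 0 := fun h => (res_ne μ _ h).1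
  have c3 := ch_quo_le (res μ (fun ω => ¬ E ω)) hn2 z1 w a X n hK
    (fun ω ω' h h' e => (hs ω ω' (ne h) (ne h') e).2.1) (fun ω h => hb ω (ne h)) (fun ω h => hw ω (ne h))
    (fun ω h => hwa ω (ne h))
  have c4 := ch_fl_le (res μ (fun ω => ¬ E ω)) hn2 τ (fun ω => (vf n (z0 ω), X ω)) n hK
    (fun ω h => hbτ ω (ne h))
  have c5 := noise (res μ E) hn1 X z0 z1 s w τ a n m hmn K hK
    (fun ω ω' h h' e => hs ω ω' (ne h) (ne h') e) (fun ω h => hw ω (ne h)) (fun ω h => hsw ω (ne h))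
    (fun ω h => by
      have := (res_ne μ _ h).2
      rw [hE] at this
      exact this) (fun ω h => hz ω (ne h))
  have c6 := ch_cond (res μ E) hn1 (fun ω => vf n (z1 ω)) F X (fun ω ω' h h' e => hXF ω ω' (ne h) (ne h') e)
  have c7 := mass_split μ E
  have m1 := mass_nonneg' _ hn1
  have m2 := mass_nonneg' _ hn2
  have h8 := logb8_nonneg hK
  have hN : (0 : ℝ) ≤ N := Nat.cast_nonneg N
  have m3 : (N + 1) * Real.logb 2 (8 * K) * mass (res μ (fun ω => ¬ E ω)) ≤ (N + 1) * Real.logb 2 (8 * K) * mass μ := by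
    apply mul_le_mul_of_nonneg_left _ (mul_nonneg (by linarith) h8)
    linarith
  rw [c1, c7] at hQ
  rw [c2, c7] at hR
  rw [c7] at m3
  rw [c7]
  obtain ⟨x, hx⟩ : ∃ x, mass (res μ E) = x := ⟨_, rfl⟩
  obtain ⟨x', hx'⟩ : ∃ x, mass (res μ (fun ω => ¬ E ω)) = x := ⟨_, rfl⟩
  rw [hx] at hU c5 m1
  rw [hx'] at c3 c4 m2
  rw [hx, hx'] at hQ hR m3
  rw [hx, hx']
  nlinarith

end Pool.Agent.Helper22.FW
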