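import Pool.Agent.Helper22.FW.NumX
import Pool.Agent.Helper70.FW.Afg
import Pool.Agent.Helper6.FW.RowKI

/-!
# The numbers of `COST1`

`numF` : all constants of the costs of one side, in the order of the quantifiers of `COST1` (dimension `N + 1`); `NF` :
the inequalities at the scale `n`.
-/

set_option autoImplicit false

namespace Pool.Agent.Helper22.FW

open Pool.Agent.Helper99.FW Pool.Agent.Helper61.FW Pool.Agent.Helper70.FW Pool.Agent.Helper6.FW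
open Pool.Agent.Helper15.VW Pool.Agent.Helper15.VG Pool.Agent.Helper9.ND

noncomputable section

/-- the bound of the mean of the costs (`kx` of helper58), dimension `N + 1` -/
def kxb (N k K P S' C₀ ρw r L R I : ℕ) (κ δ εA E ek c0 k00 cd ce cT cn : ℝ) : ℝ :=
  L * S' * (c0 * (L * (P - S') + clsN (N + 1) ρw r κ L P S' C₀ k E ek εA) + k00) +
    k * (L * S' * (cd * (K * (2 * ek + (2 * E + 8 * K * (E + 4 * ((N + 1 : ℕ) : ℝ) + (ek + ((N + 1 : ℕ) : ℝ)))))) +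
      ce) + cT * (L * S' * (8 * K * δ) + 8 * K * (4 / δ ^ 2 * (S' * (((k + 2 * K : ℕ) + 1) *
        (E + ((N + 1 : ℕ) : ℝ) + (ek + ((N + 1 : ℕ) : ℝ))))))) + cn * nBad (N + 1) r ρw L ek) +
    L * (P - S') * (R * I)

/-- the inequalities at the scale `n` (dimension `N + 1`) -/
structure NF (N k K P S' C₀ ρw r n : ℕ) (ρ κ δ εA η εQ ηQ τ0 E : ℝ) : Prop where
  hn : Ln P n * P + C₀ ≤ n
  hLP : Ln P n * P ≤ n
  hsl : ((N + 1 : ℕ) : ℝ) / (1 / 2) ^ Fn ρ n * (Kas (N + 1) * 2 ^ (Ln P n * P)) ≤ 270000 * 2 ^ n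
  hd : 7 * E + 4 * (η * n) + 18 * (N + 1) ≤ ηQ * n
  hk : Fn ρ n + (N + 1) ≤ n
  hkg : ((N + 1 : ℕ) : ℝ) / (1 / 2) ^ Fn ρ n * ((2 : ℝ) ^ (Fn ρ n + (N + 1)))⁻¹ ≤ 270000
  hpos : 0 < ρ * n - (Fn ρ n + (N + 1) : ℕ) - (21 * N + 28)
  hεA : 6 * (η * n) + (N + 1) * (n + 5) * η + (N + 1) * εQ * n + 7 * E + 1 + (N + 1) * (5 * N + 25) ≤
    εA * (ρ * n - (Fn ρ n + (N + 1) : ℕ) - (21 * N + 28))
  hn1 : ((N + 1 : ℕ) : ℝ) * (24 * K + 2) * 2 ^ Fn ρ n ≤ 2 ^ n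
  hn2 : ((N + 1 : ℕ) : ℝ) * (Kas (N + 1) * 2 ^ (Ln P n * P)) * 2 ^ Fn ρ n ≤ 2 ^ n
  tot : ∀ I : ℕ, I ≤ n → ∀ c0 k00 cd ce cT' cn : ℝ, 0 ≤ c0 → c0 ≤ kcD (N + 1) ρ (CK (N + 1) C₀) →
    k00 ≤ ((N + 1 : ℕ) : ℝ) * (2 * (Ln P n * Real.logb 2 (Fintype.card (Rc (N + 1) r))) + cF1 1 (CK (N + 1) C₀)) +
      ((N + 1 : ℕ) : ℝ) * (kR (N + 1) ρ (CK (N + 1) C₀) + cF3 (N + 1) 1 (CK (N + 1) C₀)) *
        (I * pvK (kR (N + 1) ρ (CK (N + 1) C₀)) K) +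
      (kR (N + 1) ρ (CK (N + 1) C₀) + cT (N + 1) ((((N + 1 : ℕ) : ℝ) + ((N + 1 : ℕ) : ℝ) + 1) * CK (N + 1) C₀)) *
        (I * psK (N + 1) (kR (N + 1) ρ (CK (N + 1) C₀)) K κ) →
    0 ≤ cd → cd ≤ ((N + 1 : ℕ) : ℝ) * K →
    ce ≤ ((N + 1 : ℕ) : ℝ) * (2 * (Ln P n * Real.logb 2 (Fintype.card (Rc (N + 1) r))) + cF1 1 (CK (N + 1) C₀)) →
    0 ≤ cT' → cT' ≤ ((N + 1 : ℕ) : ℝ) * (kR (N + 1) ρ (CK (N + 1) C₀) + cF3 (N + 1) 1 (CK (N + 1) C₀)) *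
      (I + (Ln P n * P : ℕ)) +
      (kR (N + 1) ρ (CK (N + 1) C₀) + cT (N + 1) ((((N + 1 : ℕ) : ℝ) + ((N + 1 : ℕ) : ℝ) + 1) * CK (N + 1) C₀)) * I →
    0 ≤ cn → cn ≤ kR (N + 1) ρ (CK (N + 1) C₀) * I →
    kxb N k K P S' C₀ ρw r (Ln P n) (kR (N + 1) ρ (CK (N + 1) C₀)) I κ δ εA E (η * n) c0 k00 cd ce cT' cn ≤
      τ0 * (n : ℝ) ^ 2 / kcD (N + 1) ρ (CK (N + 1) C₀)

/-- powers of two -/
theorem le_two_pow' (x : ℝ) : ∃ a : ℕ, x ≤ 2 ^ a := by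
  obtain ⟨a, ha⟩ := pow_unbounded_of_one_lt x (one_lt_two (α := ℝ))
  exact ⟨a, ha.le⟩

/-- the inequalities of the floors -/
theorem num_fl (N K C₀ P : ℕ) {ρ : ℝ} (hρ : 0 < ρ) (hρ1 : ρ ≤ 1) (hP : 1 ≤ P) : ∃ n₀ : ℕ, ∀ n : ℕ, n₀ ≤ n →
    Ln P n * P + C₀ ≤ n ∧ Ln P n * P ≤ n ∧
    ((N + 1 : ℕ) : ℝ) / (1 / 2) ^ Fn ρ n * (Kas (N + 1) * 2 ^ (Ln P n * P)) ≤ 270000 * 2 ^ n ∧
    ((N + 1 : ℕ) : ℝ) / (1 / 2) ^ Fn ρ n * ((2 : ℝ) ^ (Fn ρ n + (N + 1)))⁻¹ ≤ 270000 ∧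
    (((Fn ρ n + (N + 1) : ℕ) : ℝ) ≤ ρ / 2 * n) ∧
    ((N + 1 : ℕ) : ℝ) * (24 * K + 2) * 2 ^ Fn ρ n ≤ 2 ^ n ∧
    ((N + 1 : ℕ) : ℝ) * (Kas (N + 1) * 2 ^ (Ln P n * P)) * 2 ^ Fn ρ n ≤ 2 ^ n := by
  obtain ⟨a, ha⟩ := le_two_pow' (((N + 1 : ℕ) : ℝ) * (24 * K + 2))
  obtain ⟨a2, ha2⟩ := le_two_pow' (((N + 1 : ℕ) : ℝ) * |Kas (N + 1)|)
  obtain ⟨n1, hn1⟩ := num_lev hρ hρ1 1 one_pos 0 1 P 0 le_rfl hP
  obtain ⟨n2, hn2⟩ := exists_nat_ge (4 * ((N : ℝ) + 1) / ρ)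
  refine ⟨max (max n1 n2) (2 * (C₀ + a + a2)), fun n hn => ?_⟩
  have hna : n1 ≤ n := ((le_max_left _ _).trans (le_max_left _ _)).trans hn
  have hnb : n2 ≤ n := ((le_max_right _ _).trans (le_max_left _ _)).trans hn
  have hnc : 2 * (C₀ + a + a2) ≤ n := (le_max_right _ _).trans hn
  obtain ⟨-, hl4, -⟩ := hn1 n hna
  have hF := Fn_le' hρ hρ1 n
  have hF32 : 32 * Fn ρ n ≤ n := by
    have h1 : (32 : ℝ) * Fn ρ n ≤ n := by linarith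
    exact_mod_cast h1
  have hFr : (Fn ρ n : ℝ) ≤ ρ / 32 * n := by
    unfold Fn
    exact Nat.floor_le (by positivity)
  have hp0 : (0 : ℝ) < 2 ^ Fn ρ n := by positivity
  have hdiv : ((N + 1 : ℕ) : ℝ) / (1 / 2) ^ Fn ρ n = ((N + 1 : ℕ) : ℝ) * 2 ^ Fn ρ n := by
    rw [one_div, inv_pow, div_inv_eq_mul]
  have hN0 : (0 : ℝ) ≤ ((N + 1 : ℕ) : ℝ) := Nat.cast_nonneg _
  have key2 : ((N + 1 : ℕ) : ℝ) * (Kas (N + 1) * 2 ^ (Ln P n * P)) * 2 ^ Fn ρ n ≤ 2 ^ n := by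
    have h1 : ((N + 1 : ℕ) : ℝ) * (Kas (N + 1) * 2 ^ (Ln P n * P)) * 2 ^ Fn ρ n ≤
        2 ^ a2 * 2 ^ (Ln P n * P) * 2 ^ Fn ρ n := by
      apply mul_le_mul_of_nonneg_right _ hp0.le
      have h2 : ((N + 1 : ℕ) : ℝ) * Kas (N + 1) ≤ 2 ^ a2 :=
        (mul_le_mul_of_nonneg_left (le_abs_self _) hN0).trans ha2
      calc ((N + 1 : ℕ) : ℝ) * (Kas (N + 1) * 2 ^ (Ln P n * P)) = ((N + 1 : ℕ) : ℝ) * Kas (N + 1) * 2 ^ (Ln P n * P) := by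
            ring
        _ ≤ 2 ^ a2 * 2 ^ (Ln P n * P) := mul_le_mul_of_nonneg_right h2 (by positivity)
    refine h1.trans ?_
    rw [← pow_add, ← pow_add]
    exact pow_le_pow_right₀ (by norm_num) (by omega)
  refine ⟨by omega, by omega, ?_, ?_, ?_, ?_, key2⟩
  · rw [hdiv]
    have h1 : ((N + 1 : ℕ) : ℝ) * 2 ^ Fn ρ n * (Kas (N + 1) * 2 ^ (Ln P n * P)) =
        ((N + 1 : ℕ) : ℝ) * (Kas (N + 1) * 2 ^ (Ln P n * P)) * 2 ^ Fn ρ n := by ring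
    rw [h1]
    have h2 : (0 : ℝ) ≤ 2 ^ n := by positivity
    linarith
  · rw [hdiv, pow_add, mul_inv]
    have h1 : ((N + 1 : ℕ) : ℝ) * 2 ^ Fn ρ n * (((2 : ℝ) ^ Fn ρ n)⁻¹ * ((2 : ℝ) ^ (N + 1))⁻¹) =
        ((N + 1 : ℕ) : ℝ) / 2 ^ (N + 1) := by
      field_simp
    rw [h1]
    have h2 : ((N + 1 : ℕ) : ℝ) ≤ 2 ^ (N + 1) := by
      exact_mod_cast (Nat.lt_two_pow_self (n := N + 1)).le
    have h3 : ((N + 1 : ℕ) : ℝ) / 2 ^ (N + 1) ≤ 1 := by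
      rw [div_le_one (by positivity)]
      exact h2
    linarith
  · have h1 : 4 * ((N : ℝ) + 1) / ρ ≤ n := hn2.trans (by exact_mod_cast hnb)
    rw [div_le_iff₀ hρ] at h1
    push_cast
    have h2 : (0 : ℝ) ≤ ρ * n := by positivity
    linarith
  · calc ((N + 1 : ℕ) : ℝ) * (24 * K + 2) * 2 ^ Fn ρ n ≤ 2 ^ a * 2 ^ Fn ρ n := mul_le_mul_of_nonneg_right ha hp0.le
      _ = 2 ^ (a + Fn ρ n) := by rw [pow_add]
      _ ≤ 2 ^ n := pow_le_pow_right₀ (by norm_num) (by omega)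

/-- **the numbers of `COST1`** -/
theorem numF (N : ℕ) {ρ : ℝ} (hρ : 0 < ρ) (hρ1 : ρ ≤ 1) (k0 : ℕ) {e τ0 : ℝ} (he : 0 < e) (hτ0 : 0 < τ0) :
    ∃ C₀ : ℕ, 1 ≤ C₀ ∧ ∃ (κ : ℝ) (r ρw : ℕ), 53248 * ((((N + 1 : ℕ) : ℝ) + 1) * κ) ≤ e ∧
    (∀ g : ℝ, 0 < g → g ≤ 1 → Cst (N + 1) (kR (N + 1) ρ (CK (N + 1) C₀)) ρw r g κ) ∧ ∃ k K : ℕ, k0 ≤ k ∧ 1 ≤ K ∧
    ∃ δ : ℝ, 0 < δ ∧ ∃ P S' X : ℕ, 0 < S' ∧ S' + C₀ + 2 ≤ P ∧ S' + ρw ≤ P ∧ P ≤ 2 * S' ∧ 416 * (N + 1) ≤ 2 ^ X ∧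
    64 * 2 ^ ρw * (ρw * Real.logb 2 (Fintype.card (Rc (N + 1) r))) ≤ e * P ∧
    ∃ εA : ℝ, 0 < εA ∧ ∃ εQ₀ : ℝ, 0 < εQ₀ ∧ ∀ ηQ : ℝ, 0 < ηQ → ∃ η₀ : ℝ, 0 < η₀ ∧ ∀ η : ℝ, 0 ≤ η → η ≤ η₀ →
    ∃ n₀ : ℕ, ∀ n : ℕ, n₀ ≤ n → ∀ εQ : ℝ, εQ ≤ εQ₀ →
      NF N k K P S' C₀ ρw r n ρ κ δ εA η εQ ηQ τ0 ((k + 2 * K : ℕ) * ((2 * (k + 2 * K : ℕ) + 1) * (η * n))) := by
  obtain ⟨aa, bb, ha, hb, hab⟩ := afg (N + 1) hρ (CN := 42120000 * ((N + 1 : ℕ) : ℝ) ^ 3) (by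
    have h1 : (1 : ℝ) ≤ ((N + 1 : ℕ) : ℝ) ^ 3 := one_le_pow₀ (by
      push_cast
      linarith [(Nat.cast_nonneg N : (0 : ℝ) ≤ N)])
    linarith)
  obtain ⟨τ, hτ, hτa, hτb⟩ : ∃ τ : ℝ, 0 < τ ∧ 20 * τ ≤ τ0 ∧ τ ≤ e := by
    refine ⟨min (τ0 / 20) e, lt_min (by positivity) he, ?_, min_le_right _ _⟩
    have := min_le_left (τ0 / 20) e
    linarith
  obtain ⟨C₀, hC0, hnum⟩ := numK N (N + 1) k0 ρ aa bb τ hρ hρ1 ha hb hτ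
  refine ⟨C₀, hC0, ?_⟩
  obtain ⟨C, hC⟩ : ∃ C : ℝ, C = CK (N + 1) C₀ := ⟨_, rfl⟩
  have hC1 : 1 ≤ C := by
    have h1 := (CK_big (C₀ := C₀) (Nat.succ_pos N)).1
    rw [hC]
    linarith
  obtain ⟨R, hR⟩ : ∃ R : ℕ, R = kR (N + 1) ρ C := ⟨_, rfl⟩
  obtain ⟨w, hw⟩ : ∃ w : ℝ, w = kw (N + 1) ρ C := ⟨_, rfl⟩
  obtain ⟨hw0, hw1, hw2, hw3, hw4, hw5, hw6, hw7, hw8⟩ := kw_ge (N + 1) ρ hC1
  rw [← hw] at hw0 hw1 hw2 hw3 hw4 hw5 hw6 hw7 hw8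
  rw [← hR] at hw1 hw7 hw8
  have hwab : w ≤ aa * C₀ + bb := by
    rw [hw, hC]
    exact hab C₀
  have hR6 : 6 ≤ R := by
    rw [hR]
    exact kR_six _ _ _
  obtain ⟨κ, r, ρw, hCst, hnum⟩ := hnum w R hw0 hwab hR6
  have hkp : 53248 * ((((N + 1 : ℕ) : ℝ) + 1) * κ) ≤ e := by
    obtain ⟨k, K, -, -, δ, -, P₀, hP⟩ := hnum 0 1 le_rfl one_pos le_rfl
    obtain ⟨S', -, -, -, -, -, -, εA, -, εQ₀, -, h1⟩ := hP P₀ le_rfl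
    obtain ⟨η₀, hη₀, n₀, h2⟩ := h1 εQ₀ le_rfl 1 one_pos
    have h3 := ((h2 0 le_rfl hη₀.le n₀ le_rfl _ rfl).2.2 0 (by simp)).kp
    have h4 := W1_one (N + 1) hw0
    have hκ := (hCst 1 one_pos le_rfl).hκ
    have h5 : 0 ≤ 53248 * ((((N + 1 : ℕ) : ℝ) + 1) * κ) := by positivity
    have h6 : 514 * (53248 * ((((N + 1 : ℕ) : ℝ) + 1) * κ)) ≤
        W1 (N + 1) w * (514 * (53248 * ((((N + 1 : ℕ) : ℝ) + 1) * κ))) :=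
      le_mul_of_one_le_left (by positivity) h4
    linarith
  refine ⟨κ, r, ρw, hkp, ?_, ?_⟩
  · rw [← hC, ← hR]
    exact hCst
  have hκ := (hCst 1 one_pos le_rfl).hκ
  have hκ1 := (hCst 1 one_pos le_rfl).hκ1
  -- the loss of a step
  obtain ⟨p1, hp1⟩ : ∃ p1 : ℝ, p1 = (1 / (2048 * (2 : ℝ) ^ R)) ^ 2 := ⟨_, rfl⟩
  obtain ⟨p2, hp2⟩ : ∃ p2 : ℝ, p2 = κ / (2 ^ 25 * (((N + 1 : ℕ) : ℝ) + 1) * ((2 : ℝ) ^ R) ^ 2) := ⟨_, rfl⟩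
  have h2R : (1 : ℝ) ≤ 2 ^ R := one_le_pow₀ (by norm_num)
  have hp10 : 0 < p1 := by
    rw [hp1]
    positivity
  have hp20 : 0 < p2 := by
    rw [hp2]
    positivity
  have hp11 : p1 ≤ 1 := by
    rw [hp1]
    apply pow_le_one₀ (by positivity)
    rw [div_le_one (by positivity)]
    linarith
  have hκle : κ ≤ 1 := by
    refine le_trans ?_ hκ1
    apply le_mul_of_one_le_left hκ.le
    have h1 : (1 : ℝ) ≤ (((N + 1 : ℕ) : ℝ) + 1) ^ 3 := one_le_pow₀ (by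
      push_cast
      linarith [(Nat.cast_nonneg N : (0 : ℝ) ≤ N)])
    have h2 : (1 : ℝ) ≤ ((2 : ℝ) ^ R) ^ 4 := one_le_pow₀ h2R
    exact one_le_mul_of_one_le_of_one_le (one_le_mul_of_one_le_of_one_le (by norm_num) h1) h2
  have hp21 : p2 ≤ 1 := by
    rw [hp2, div_le_one (by positivity)]
    refine hκle.trans ?_
    have h1 : (1 : ℝ) ≤ ((N + 1 : ℕ) : ℝ) + 1 := by
      linarith [(Nat.cast_nonneg (N + 1) : (0 : ℝ) ≤ ((N + 1 : ℕ) : ℝ))]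
    have h2 : (1 : ℝ) ≤ ((2 : ℝ) ^ R) ^ 2 := one_le_pow₀ h2R
    exact one_le_mul_of_one_le_of_one_le (one_le_mul_of_one_le_of_one_le (by norm_num) h1) h2
  obtain ⟨p, hp⟩ : ∃ p : ℝ, p = min p1 p2 := ⟨_, rfl⟩
  have hp0 : 0 < p := by
    rw [hp]
    exact lt_min hp10 hp20
  have hpa : p ≤ p1 := by
    rw [hp]
    exact min_le_left _ _
  have hpb : p ≤ p2 := by
    rw [hp]
    exact min_le_right _ _
  obtain ⟨c, hc⟩ : ∃ c : ℝ, c = ((Pool.Agent.Helper92.FW.net (N + 1) (1 / (8 * ((N + 1 : ℕ) : ℝ)))).card : ℝ) := ⟨_, rfl⟩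
  have hc0 : 0 ≤ c := by
    rw [hc]
    exact Nat.cast_nonneg _
  obtain ⟨k, K, hk, hK, δ, hδ, P₀, hP⟩ := hnum (c + 1) p (by linarith) hp0 (hpa.trans hp11)
  obtain ⟨S', hS0, hSC, hSρ, hPS, hlr, hnod, εA, hεA, εQ₀, hεQ₀, h1⟩ := hP P₀ le_rfl
  refine ⟨k, K, hk, hK, δ, hδ, ?_⟩
  obtain ⟨X, hX⟩ : ∃ X : ℕ, 416 * (N + 1) ≤ 2 ^ X := ⟨416 * (N + 1), (Nat.lt_two_pow_self).le⟩
  refine ⟨P₀, S', X, hS0, hSC, hSρ, hPS, hX, hnod.trans (mul_le_mul_of_nonneg_right hτb (Nat.cast_nonneg _)), εA, hεA,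
    εQ₀, hεQ₀, fun ηQ hηQ => ?_⟩
  obtain ⟨η₀, hη₀, n₀, h2⟩ := h1 εQ₀ le_rfl ηQ hηQ
  refine ⟨η₀, hη₀, fun η hη hη1 => ?_⟩
  obtain ⟨n1, hn1⟩ := num_fl N K C₀ P₀ hρ hρ1 (show 1 ≤ P₀ by omega)
  refine ⟨max n₀ n1, fun n hn εQ hεQ => ?_⟩
  obtain ⟨f1, f2, f3, f4, f5, f6, f7⟩ := hn1 n ((le_max_right _ _).trans hn)
  obtain ⟨g1, g2, g3⟩ := h2 η hη hη1 n ((le_max_left _ _).trans hn) _ rfl
  obtain ⟨g4, g5, g6⟩ := g2 _ f5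
  have hn0 : (0 : ℝ) ≤ n := Nat.cast_nonneg n
  obtain ⟨E, hE⟩ : ∃ E : ℝ, E = ((k + 2 * K : ℕ) : ℝ) * ((2 * ((k + 2 * K : ℕ) : ℝ) + 1) * (η * n)) := ⟨_, rfl⟩
  rw [← hE] at g1 g6 g3 ⊢
  have hE0 : 0 ≤ E := by
    rw [hE]
    positivity
  refine ⟨f1, f2, f3, g1, g4, f4, g5, ?_, f6, f7, ?_⟩
  · refine le_trans ?_ g6
    have h3 : ((N : ℝ) + 1) * εQ * n ≤ (N + 1) * εQ₀ * n := by
      apply mul_le_mul_of_nonneg_right _ hn0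
      exact mul_le_mul_of_nonneg_left hεQ (by positivity)
    linarith
  · intro I hI c0 k00 cd ce cT' cn hc00 hc01 hk00 hcd0 hcd hce hcT0 hcT hcn0 hcn
    rw [← hC] at hc01 hk00 hce hcT hcn ⊢
    rw [← hR] at hk00 hcT hcn ⊢
    obtain ⟨lr, hlr'⟩ : ∃ lr : ℝ, lr = Real.logb 2 (Fintype.card (Rc (N + 1) r)) := ⟨_, rfl⟩
    have hlr0 : 0 ≤ lr := by
      rw [hlr']
      by_cases h0 : Fintype.card (Rc (N + 1) r) = 0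
      · rw [h0]
        simp
      · exact Real.logb_nonneg (by norm_num) (by exact_mod_cast Nat.one_le_iff_ne_zero.mpr h0)
    have hI0 : (0 : ℝ) ≤ I := Nat.cast_nonneg I
    have hI' : (I : ℝ) ≤ n := by exact_mod_cast hI
    have hu0 : (0 : ℝ) ≤ ((N + 1 : ℕ) : ℝ) := Nat.cast_nonneg _
    have hR0 : (0 : ℝ) ≤ R := Nat.cast_nonneg R
    have hL0 : (0 : ℝ) ≤ Ln P₀ n := Nat.cast_nonneg _
    have hLP : ((Ln P₀ n * P₀ : ℕ) : ℝ) ≤ n := by exact_mod_cast f2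
    have hF3 := kcF3_nn (N + 1) (C := C) (by linarith)
    have hT0 := kcT_nn (N + 1) (C := (2 * ((N + 1 : ℕ) : ℝ) + 1) * C) (by positivity)
    have e2 : (((N + 1 : ℕ) : ℝ) + ((N + 1 : ℕ) : ℝ) + 1) * C = (2 * ((N + 1 : ℕ) : ℝ) + 1) * C := by ring
    rw [e2] at hk00 hcT
    obtain ⟨c3, hc3⟩ : ∃ c3 : ℝ, c3 = R + cF3 (N + 1) 1 C := ⟨_, rfl⟩
    obtain ⟨c4, hc4⟩ : ∃ c4 : ℝ, c4 = R + cT (N + 1) ((2 * ((N + 1 : ℕ) : ℝ) + 1) * C) := ⟨_, rfl⟩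
    rw [← hc3, ← hc4] at hk00 hcT
    rw [← hc3] at hw7
    rw [← hc4] at hw8
    have hc30 : 0 ≤ c3 := by
      rw [hc3]
      positivity
    have hc40 : 0 ≤ c4 := by
      rw [hc4]
      positivity
    rw [← hlr'] at hk00 hce
    have hcDn : 0 ≤ kcD (N + 1) ρ C := kcD_nn _ _ hC1
    have hcD1 : 1 ≤ kcD (N + 1) ρ C := kcD_ge (Nat.succ_pos N) ρ hC1
    have hcDle : kcD (N + 1) ρ C ≤ ((N + 1 : ℕ) : ℝ) * w := by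
      have : kcD (N + 1) ρ C = ((N + 1 : ℕ) : ℝ) * c3 := by
        rw [hc3, hR]
        rfl
      rw [this]
      exact mul_le_mul_of_nonneg_left hw7 hu0
    have hpv0 : 0 ≤ (1 - p) ^ K := pow_nonneg (by linarith [hpa.trans hp11]) _
    have hpv : pvK R K ≤ (c + 1) * (1 - p) ^ K := by
      unfold pvK
      rw [← hp1]
      have h3 : (1 - p1) ^ K ≤ (1 - p) ^ K := pow_le_pow_left₀ (by linarith) (by linarith) _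
      have h4 : 0 ≤ c * (1 - p) ^ K := mul_nonneg hc0 hpv0
      linarith
    have hps : psK (N + 1) R K κ ≤ (c + 1) * (1 - p) ^ K := by
      unfold psK
      rw [← hp2, ← hc]
      have h3 : (1 - p2) ^ K ≤ (1 - p) ^ K := pow_le_pow_left₀ (by linarith) (by linarith) _
      have h4 := mul_le_mul_of_nonneg_left h3 hc0
      linarith
    obtain ⟨q, hq⟩ : ∃ q : ℝ, q = (c + 1) * (1 - p) ^ K := ⟨_, rfl⟩
    have hq0 : 0 ≤ q := by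
      rw [hq]
      exact mul_nonneg (by linarith) hpv0
    rw [← hq] at hpv hps
    have hwu : ((N + 1 : ℕ) : ℝ) * w + w = (((N + 1 : ℕ) : ℝ) + 1) * w := by ring
    have hk00' : k00 ≤ ((N + 1 : ℕ) : ℝ) * (2 * (Ln P₀ n * lr) + w) +
        2 * (((N + 1 : ℕ) : ℝ) + 1) * w * n * ((c + 1) * (1 - p) ^ K) := by
      rw [← hq]
      refine hk00.trans ?_
      have h3 : ((N + 1 : ℕ) : ℝ) * (2 * (Ln P₀ n * lr) + cF1 1 C) ≤ ((N + 1 : ℕ) : ℝ) * (2 * (Ln P₀ n * lr) + w) :=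
        mul_le_mul_of_nonneg_left (by linarith) hu0
      have h4 : ((N + 1 : ℕ) : ℝ) * c3 * (I * pvK R K) ≤ ((N + 1 : ℕ) : ℝ) * w * (n * q) := by
        have h5 : I * pvK R K ≤ n * q := by
          refine (mul_le_mul_of_nonneg_left hpv hI0).trans (mul_le_mul_of_nonneg_right hI' hq0)
        refine (mul_le_mul_of_nonneg_left h5 (by positivity)).trans ?_
        exact mul_le_mul_of_nonneg_right (mul_le_mul_of_nonneg_left hw7 hu0) (by positivity)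
      have h6 : c4 * (I * psK (N + 1) R K κ) ≤ w * (n * q) := by
        have h5 : I * psK (N + 1) R K κ ≤ n * q := by
          refine (mul_le_mul_of_nonneg_left hps hI0).trans (mul_le_mul_of_nonneg_right hI' hq0)
        refine (mul_le_mul_of_nonneg_left h5 hc40).trans ?_
        exact mul_le_mul_of_nonneg_right hw8 (by positivity)
      have h7 : 0 ≤ (((N + 1 : ℕ) : ℝ) + 1) * w * (n * q) := by positivity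
      have h8 : 2 * (((N + 1 : ℕ) : ℝ) + 1) * w * n * q =
          2 * ((((N + 1 : ℕ) : ℝ) * w * (n * q)) + w * (n * q)) := by ring
      rw [h8]
      have h9 : 0 ≤ ((N + 1 : ℕ) : ℝ) * w * (n * q) := by positivity
      have h10 : 0 ≤ w * (n * q) := by positivity
      linarith
    have hce' : ce ≤ ((N + 1 : ℕ) : ℝ) * (2 * (Ln P₀ n * lr) + w) :=
      hce.trans (mul_le_mul_of_nonneg_left (by linarith) hu0)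
    have hcT'' : cT' ≤ 3 * (((N + 1 : ℕ) : ℝ) + 1) * w * n := by
      refine hcT.trans ?_
      have h3 : ((N + 1 : ℕ) : ℝ) * c3 * (I + (Ln P₀ n * P₀ : ℕ)) ≤ ((N + 1 : ℕ) : ℝ) * w * (2 * n) := by
        apply mul_le_mul (mul_le_mul_of_nonneg_left hw7 hu0) (by linarith) (by positivity) (by positivity)
      have h4 : c4 * I ≤ w * n := mul_le_mul hw8 hI' hI0 hw0
      have h5 : 3 * (((N + 1 : ℕ) : ℝ) + 1) * w * n =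
          ((N + 1 : ℕ) : ℝ) * w * (2 * n) + w * n + (((N + 1 : ℕ) : ℝ) * (w * n) + 2 * (w * n)) := by ring
      rw [h5]
      have h6 : 0 ≤ ((N + 1 : ℕ) : ℝ) * (w * n) + 2 * (w * n) := by positivity
      linarith
    have hcn' : cn ≤ (((N + 1 : ℕ) : ℝ) + 1) * w * n := by
      refine hcn.trans ?_
      have h3 : (R : ℝ) * I ≤ w * n := mul_le_mul hw1 hI' hI0 hw0
      have h4 : 0 ≤ ((N + 1 : ℕ) : ℝ) * (w * n) := by positivity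
      have h5 : (((N + 1 : ℕ) : ℝ) + 1) * w * n = ((N + 1 : ℕ) : ℝ) * (w * n) + w * n := by ring
      rw [h5]
      linarith
    have he' : 2 * (Ln P₀ n * lr) ≤ 2 * ((Ln P₀ n + 1) * lr) := by linarith
    have hkx := (g3 (Ln P₀ n) f2).kx hw0 f2 (show S' ≤ P₀ by omega) hE0 (mul_nonneg hη hn0) hκ.le hεA.le hδ.le
      (by linarith : 0 ≤ c + 1) (hpa.trans hp11) hI (e := 2 * (Ln P₀ n * lr)) hw1 hc00 (hc01.trans hcDle) hk00' hcd0 hcd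
      hce' hcT0 hcT'' hcn0 hcn' (by positivity) (by rw [← hlr']; exact he')
    rw [le_div_iff₀ (by linarith)]
    by_cases hneg : kxb N k K P₀ S' C₀ ρw r (Ln P₀ n) R I κ δ εA E (η * n) c0 k00 cd ce cT' cn ≤ 0
    · refine (mul_nonpos_of_nonpos_of_nonneg hneg hcDn).trans ?_
      positivity
    · have hpos' := (not_le.mp hneg).le
      have hw00 : ((N + 1 : ℕ) : ℝ) * w ≤ (((N + 1 : ℕ) : ℝ) + 1) * w := by linarith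
      refine (mul_le_mul_of_nonneg_left (hcDle.trans hw00) hpos').trans ?_
      refine le_trans hkx ?_
      have h3 : (0 : ℝ) ≤ (n : ℝ) ^ 2 := by positivity
      exact mul_le_mul_of_nonneg_right hτa h3

/-- the other form of `hn1` -/
theorem NF.hn1' {N k K P S' C₀ ρw r n : ℕ} {ρ κ δ εA η εQ ηQ τ0 E : ℝ}
    (h : NF N k K P S' C₀ ρw r n ρ κ δ εA η εQ ηQ τ0 E) :
    ((N + 1 : ℕ) : ℝ) * (24 * K + 2) ≤ (1 / 2) ^ Fn ρ n * 2 ^ n := by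
  have h1 := h.hn1
  rw [one_div, inv_pow, ← div_eq_inv_mul, le_div_iff₀ (by positivity)]
  exact h1

/-- the other form of `hn2` -/
theorem NF.hn2' {N k K P S' C₀ ρw r n : ℕ} {ρ κ δ εA η εQ ηQ τ0 E : ℝ}
    (h : NF N k K P S' C₀ ρw r n ρ κ δ εA η εQ ηQ τ0 E) :
    ((N + 1 : ℕ) : ℝ) * (Kas (N + 1) * 2 ^ (Ln P n * P)) ≤ (1 / 2) ^ Fn ρ n * 2 ^ n := by
  have h1 := h.hn2
  rw [one_div, inv_pow, ← div_eq_inv_mul, le_div_iff₀ (by positivity)]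
  exact h1

end

end Pool.Agent.Helper22.FW
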