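import Pool.Agent.Helper62.FW.Asy
import Pool.Agent.Helper99.FW.Tre

/-!
# The constants of theorem FW, second half: the costs of the rows

Order: `C₀` (margins of LEMMA B), `R`, node depth, `κ, r, ρw` (body of a node), `k` (spectators), `K` (blocks), `δ` (one
step), `P, S'` (blocks of levels), `εA, εQ`, then `η` (after `ηQ`) and `n₀`.  All costs are small multiples of `n`
against the weights `W1`, `W3`.
-/

set_option autoImplicit false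

namespace Pool.Agent.Helper22.FW

open Finset Filter Topology Pool.Agent.Helper99.FW Pool.Agent.Helper62.FW

noncomputable section

/-- the weight of the constants chosen before the number of the spectators -/
def W1 (u : ℕ) (w : ℝ) : ℝ := 1000 * (u + 1) ^ 2 * (w + 1) ^ 3

/-- the weight of all constants -/
def W3 (u k K : ℕ) (w : ℝ) : ℝ := W1 u w * ((k + 1) * (K + 1) ^ 3)

theorem W1_one (u : ℕ) {w : ℝ} (hw : 0 ≤ w) : 1 ≤ W1 u w := by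
  unfold W1
  have h1 : (0 : ℝ) ≤ u := Nat.cast_nonneg u
  have h2 : 1 ≤ (w + 1) ^ 3 := one_le_pow₀ (by linarith)
  have h3 : (1 : ℝ) ≤ (u + 1) ^ 2 := one_le_pow₀ (by linarith)
  nlinarith

theorem W3_ge (u k K : ℕ) {w : ℝ} (hw : 0 ≤ w) : W1 u w ≤ W3 u k K w := by
  unfold W3
  have h1 : (0 : ℝ) ≤ k := Nat.cast_nonneg k
  have h2 : (0 : ℝ) ≤ K := Nat.cast_nonneg K
  have h3 := W1_one u hw
  have h4 : (1 : ℝ) ≤ (K + 1) ^ 3 := one_le_pow₀ (by linarith)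
  have h5 : (1 : ℝ) ≤ (k + 1) * (K + 1) ^ 3 := by nlinarith
  nlinarith

/-- the numbers (dimension `N + 1`) -/
structure NK (N u k K L P S' C₀ ρw n : ℕ) (lr w τ κ nt p δ εA E ek : ℝ) : Prop where
  c0 : W1 u w * (8 / 2 ^ C₀) ≤ τ
  kp : W1 u w * (514 * (53248 * ((((N + 1 : ℕ) : ℝ) + 1) * κ))) ≤ τ
  sp : W1 u w * (((N + 1 : ℕ) : ℝ) / (k + 1)) ≤ τ
  net : W3 u k K w * (nt * (1 - p) ^ K) ≤ τ
  tv : W3 u k K w * δ ≤ τ
  ad : W3 u k K w * (256 * εA) ≤ τ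
  gap : W3 u k K w * (L * (P - S')) ≤ τ * n
  rc : W3 u k K w * ((L + 1) * lr) ≤ τ * n
  nod : W3 u k K w * (514 * (64 * 2 ^ ρw * (ρw * (L * lr + ek)))) ≤ τ * n
  off : W3 u k K w * (4 / δ ^ 2 * (S' * ((k + 2 * K + 1) * (E + ((N + 1 : ℕ) : ℝ) + (ek + ((N + 1 : ℕ) : ℝ)))))) ≤ τ * n
  d3 : W3 u k K w * (16 * 2 ^ C₀ * (C₀ * ((E + 2 * ek) + C₀))) ≤ τ * n
  lin : W3 u k K w * (E + ek + ((N + 1 : ℕ) : ℝ)) ≤ τ * n

/-- choice of `C₀` -/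
theorem choose_C0 (u : ℕ) (aa bb τ : ℝ) (ha : 0 ≤ aa) (hb : 0 ≤ bb) (hτ : 0 < τ) :
    ∃ C₀ : ℕ, 1 ≤ C₀ ∧ W1 u (aa * C₀ + bb) * (8 / 2 ^ C₀) ≤ τ := by
  obtain ⟨n₀, hn⟩ := exp_small (8000 * (u + 1) ^ 2 * (aa + bb + 1) ^ 3) 3 (δ := 1) (e := τ) one_pos hτ
  refine ⟨n₀ + 1, by omega, ?_⟩
  have h1 := hn (n₀ + 1) (by omega)
  have hx : (1 : ℝ) ≤ ((n₀ + 1 : ℕ) : ℝ) := by
    push_cast
    linarith [(Nat.cast_nonneg n₀ : (0 : ℝ) ≤ n₀)]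
  have e1 : (2 : ℝ) ^ (-(1 * ((n₀ + 1 : ℕ) : ℝ))) = 1 / 2 ^ (n₀ + 1) := by
    rw [one_mul, Real.rpow_neg (by norm_num), Real.rpow_natCast, one_div]
  rw [e1] at h1
  refine le_trans ?_ h1
  have h2 : aa * ((n₀ + 1 : ℕ) : ℝ) + bb + 1 ≤ (aa + bb + 1) * ((n₀ + 1 : ℕ) : ℝ) := by nlinarith
  have h3 : (aa * ((n₀ + 1 : ℕ) : ℝ) + bb + 1) ^ 3 ≤ ((aa + bb + 1) * ((n₀ + 1 : ℕ) : ℝ)) ^ 3 := by
    apply pow_le_pow_left₀ _ h2
    positivity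
  unfold W1
  have h4 : (0 : ℝ) ≤ 1000 * (u + 1) ^ 2 * (8 / 2 ^ (n₀ + 1)) := by positivity
  calc 1000 * ((u : ℝ) + 1) ^ 2 * (aa * ((n₀ + 1 : ℕ) : ℝ) + bb + 1) ^ 3 * (8 / 2 ^ (n₀ + 1))
      = 1000 * (u + 1) ^ 2 * (8 / 2 ^ (n₀ + 1)) * (aa * ((n₀ + 1 : ℕ) : ℝ) + bb + 1) ^ 3 := by ring
    _ ≤ 1000 * (u + 1) ^ 2 * (8 / 2 ^ (n₀ + 1)) * ((aa + bb + 1) * ((n₀ + 1 : ℕ) : ℝ)) ^ 3 :=
      mul_le_mul_of_nonneg_left h3 h4
    _ = 8000 * (u + 1) ^ 2 * (aa + bb + 1) ^ 3 * ((n₀ + 1 : ℕ) : ℝ) ^ 3 * (1 / 2 ^ (n₀ + 1)) := by ring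

/-- choice of the body of a node -/
theorem choose_kap (N D : ℕ) (hD : 6 ≤ D) (W τ : ℝ) (hW : 0 ≤ W) (hτ : 0 < τ) :
    ∃ (κ : ℝ) (r ρw : ℕ), (∀ g : ℝ, 0 < g → g ≤ 1 → Cst (N + 1) D ρw r g κ) ∧
      W * (514 * (53248 * ((((N + 1 : ℕ) : ℝ) + 1) * κ))) ≤ τ := by
  obtain ⟨κ, h0, h1, h2⟩ := small_fin (ι := Fin 2)
    ![2 ^ 74 * (((N + 1 : ℕ) : ℝ) + 1) ^ 3 * ((2 : ℝ) ^ D) ^ 4, W * (514 * (53248 * (((N + 1 : ℕ) : ℝ) + 1)))]
    ![1, τ] (by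
      intro i
      fin_cases i
      · exact one_pos
      · exact hτ) one_pos
  have h3 := h2 0
  have h4 := h2 1
  simp only [Matrix.cons_val_zero, Matrix.cons_val_one] at h3 h4
  refine ⟨κ, 300000 * (N + 1) ^ 2, D + (300000 * (N + 1) ^ 2) ^ 3, fun g hg hg1 => ?_, ?_⟩
  · exact {
      hN := Nat.succ_pos N
      hD := hD
      hDρ := Nat.le_add_right _ _
      hg := hg
      hg1 := hg1
      hκ := h0
      hκ1 := h3
      hr := le_rfl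
      hQ := by
        rw [Nat.add_sub_cancel_left]
        exact (Nat.lt_two_pow_self (n := (300000 * (N + 1) ^ 2) ^ 3)).le }
  · refine le_trans (le_of_eq ?_) h4
    ring

/-- choice of the number of blocks -/
theorem choose_K (W nt p τ : ℝ) (hW : 0 ≤ W) (hnt : 0 ≤ nt) (hp : 0 < p) (hp1 : p ≤ 1) (hτ : 0 < τ) :
    ∃ K : ℕ, 1 ≤ K ∧ W * (K + 1) ^ 3 * (nt * (1 - p) ^ K) ≤ τ := by
  have h1 : Tendsto (fun n : ℕ => (n : ℝ) ^ 3 * (1 - p) ^ n) atTop (𝓝 0) :=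
    tendsto_pow_const_mul_const_pow_of_abs_lt_one 3 (by
      rw [abs_of_nonneg (by linarith)]
      linarith)
  have h2 := h1.const_mul (W * nt * 8)
  rw [mul_zero] at h2
  obtain ⟨n₀, hn₀⟩ := Filter.eventually_atTop.mp (h2.eventually (gt_mem_nhds hτ))
  refine ⟨n₀ + 1, by omega, ?_⟩
  have h3 := (hn₀ (n₀ + 1) (by omega)).le
  refine le_trans ?_ h3
  have hx : (1 : ℝ) ≤ ((n₀ + 1 : ℕ) : ℝ) := by
    push_cast
    linarith [(Nat.cast_nonneg n₀ : (0 : ℝ) ≤ n₀)]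
  have h4 : (((n₀ + 1 : ℕ) : ℝ) + 1) ^ 3 ≤ 8 * ((n₀ + 1 : ℕ) : ℝ) ^ 3 := by
    have h6 : ((n₀ + 1 : ℕ) : ℝ) + 1 ≤ 2 * ((n₀ + 1 : ℕ) : ℝ) := by linarith
    calc (((n₀ + 1 : ℕ) : ℝ) + 1) ^ 3 ≤ (2 * ((n₀ + 1 : ℕ) : ℝ)) ^ 3 := pow_le_pow_left₀ (by linarith) h6 3
      _ = 8 * ((n₀ + 1 : ℕ) : ℝ) ^ 3 := by ring
  have h5 : 0 ≤ W * (nt * (1 - p) ^ (n₀ + 1)) :=
    mul_nonneg hW (mul_nonneg hnt (pow_nonneg (by linarith) _))
  calc W * (((n₀ + 1 : ℕ) : ℝ) + 1) ^ 3 * (nt * (1 - p) ^ (n₀ + 1))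
      = W * (nt * (1 - p) ^ (n₀ + 1)) * (((n₀ + 1 : ℕ) : ℝ) + 1) ^ 3 := by ring
    _ ≤ W * (nt * (1 - p) ^ (n₀ + 1)) * (8 * ((n₀ + 1 : ℕ) : ℝ) ^ 3) := mul_le_mul_of_nonneg_left h4 h5
    _ = W * nt * 8 * (((n₀ + 1 : ℕ) : ℝ) ^ 3 * (1 - p) ^ (n₀ + 1)) := by ring

/-- choice of the length of the blocks of levels -/
theorem choose_P (W τ lr : ℝ) (c ρw : ℕ) (hW : 0 ≤ W) (hlr : 0 ≤ lr) (hτ : 0 < τ) :
    ∃ P₀ : ℕ, 1 ≤ P₀ ∧ ∀ P : ℕ, P₀ ≤ P → 2 * c < P ∧ lr ≤ P ∧ W * (514 * (64 * 2 ^ ρw * (ρw * lr))) ≤ τ / 2 * P ∧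
      ∀ n L : ℕ, P ≤ n → L * P ≤ n →
      W * (L * c) ≤ τ * n ∧ W * ((L + 1) * lr) ≤ τ * n ∧
      W * (514 * (64 * 2 ^ ρw * (ρw * (L * lr)))) ≤ τ / 2 * n := by
  obtain ⟨P₀, h0, h1, h2⟩ := big_all (ι := Fin 4) ![W * c, W * (2 * lr), W * (514 * (64 * 2 ^ ρw * (ρw * lr))), lr]
    ![τ, τ, τ / 2, 1] (by
      intro i
      fin_cases i
      · exact hτ
      · exact hτ
      · exact half_pos hτ
      · exact one_pos) (2 * c + 1)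
  refine ⟨P₀, h1, fun P hP => ?_⟩
  have h3 := h2 P hP 0
  have h4 := h2 P hP 1
  have h5 := h2 P hP 2
  have h6 := h2 P hP 3
  simp only [Matrix.cons_val_zero, Matrix.cons_val_one, Matrix.cons_val, one_mul] at h3 h4 h5 h6
  refine ⟨by omega, h6, h5, fun n L hPn hL => ?_⟩
  have hP0 : (0 : ℝ) < P := by exact_mod_cast (h1.trans hP)
  have hLP : (L : ℝ) * P ≤ n := by exact_mod_cast hL
  have hPn' : (P : ℝ) ≤ n := by exact_mod_cast hPn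
  have hL0 : (0 : ℝ) ≤ L := Nat.cast_nonneg L
  have key : ∀ x e : ℝ, 0 ≤ e → x ≤ e * P → L * x ≤ e * n := by
    intro x e he hx
    calc L * x ≤ L * (e * P) := mul_le_mul_of_nonneg_left hx hL0
      _ = e * (L * P) := by ring
      _ ≤ e * n := mul_le_mul_of_nonneg_left hLP he
  refine ⟨?_, ?_, ?_⟩
  · calc W * (L * c) = L * (W * c) := by ring
      _ ≤ τ * n := key _ _ hτ.le h3
  · have h6 : ((L : ℝ) + 1) * P ≤ 2 * n := by linarith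
    have h7 : W * (2 * lr) / P ≤ τ := by
      rw [div_le_iff₀ hP0]
      exact h4
    have h8 : 0 ≤ W * (2 * lr) / P := by positivity
    calc W * ((L + 1) * lr) = (W * (2 * lr) / P) * (((L + 1) * P) / 2) := by
          field_simp
      _ ≤ (W * (2 * lr) / P) * n := mul_le_mul_of_nonneg_left (by linarith) h8
      _ ≤ τ * n := mul_le_mul_of_nonneg_right h7 (Nat.cast_nonneg n)
  · calc W * (514 * (64 * 2 ^ ρw * (ρw * (L * lr)))) = L * (W * (514 * (64 * 2 ^ ρw * (ρw * lr)))) := by ring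
      _ ≤ τ / 2 * n := key _ _ (half_pos hτ).le h5

/-- **[NUM-K]** the constants of the costs of the rows (dimension `N + 1`) -/
theorem numK (N u k0 : ℕ) (rho aa bb τ : ℝ) (hρ : 0 < rho) (hρ1 : rho ≤ 1) (ha : 0 ≤ aa) (hb : 0 ≤ bb) (hτ : 0 < τ) :
    ∃ C₀ : ℕ, 1 ≤ C₀ ∧ ∀ (w : ℝ) (D : ℕ), 0 ≤ w → w ≤ aa * C₀ + bb → 6 ≤ D →
    ∃ (κ : ℝ) (r ρw : ℕ), (∀ g : ℝ, 0 < g → g ≤ 1 → Cst (N + 1) D ρw r g κ) ∧
    ∀ nt p : ℝ, 0 ≤ nt → 0 < p → p ≤ 1 → ∃ k K : ℕ, k0 ≤ k ∧ 1 ≤ K ∧ ∃ δ : ℝ, 0 < δ ∧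
    ∃ P₀ : ℕ, ∀ P : ℕ, P₀ ≤ P → ∃ S' : ℕ, 0 < S' ∧ S' + C₀ + 2 ≤ P ∧ S' + ρw ≤ P ∧ P ≤ 2 * S' ∧
    Real.logb 2 (Fintype.card (Pool.Agent.Helper9.ND.Rc (N + 1) r)) ≤ P ∧
    64 * 2 ^ ρw * (ρw * Real.logb 2 (Fintype.card (Pool.Agent.Helper9.ND.Rc (N + 1) r))) ≤ τ * P ∧ ∃ εA : ℝ, 0 < εA ∧ ∃ εQ₀ : ℝ, 0 < εQ₀ ∧ ∀ εQ : ℝ, εQ ≤ εQ₀ → ∀ ηQ : ℝ, 0 < ηQ →
    ∃ η₀ : ℝ, 0 < η₀ ∧ ∃ n₀ : ℕ, ∀ η : ℝ, 0 ≤ η → η ≤ η₀ → ∀ n : ℕ, n₀ ≤ n → ∀ E : ℝ,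
      E = ((k + 2 * K : ℕ) : ℝ) * ((2 * ((k + 2 * K : ℕ) : ℝ) + 1) * (η * n)) →
      (7 * E + 4 * (η * n) + 18 * (N + 1) ≤ ηQ * n) ∧
      (∀ kt : ℕ, (kt : ℝ) ≤ rho / 2 * n → kt ≤ n ∧ 0 < rho * n - kt - (21 * N + 28) ∧
        6 * (η * n) + (N + 1) * (n + 5) * η + (N + 1) * εQ * n + 7 * E + 1 + (N + 1) * (5 * N + 25) ≤
          εA * (rho * n - kt - (21 * N + 28))) ∧
      ∀ L : ℕ, L * P ≤ n → NK N u k K L P S' C₀ ρw n (Real.logb 2 (Fintype.card (Pool.Agent.Helper9.ND.Rc (N + 1) r)))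
        w τ κ nt p δ εA E (η * n) := by
  obtain ⟨C₀, hC1, hC0⟩ := choose_C0 u aa bb τ ha hb hτ
  refine ⟨C₀, hC1, fun w D hw hwC hD => ?_⟩
  have hWw : W1 u w ≤ W1 u (aa * C₀ + bb) := by
    unfold W1
    gcongr
  have hW1 := W1_one u hw
  have hW0 : 0 ≤ W1 u w := by linarith
  have hc0 : W1 u w * (8 / 2 ^ C₀) ≤ τ := (mul_le_mul_of_nonneg_right hWw (by positivity)).trans hC0
  obtain ⟨κ, r, ρw, hCst, hkp⟩ := choose_kap N D hD (W1 u w) τ hW0 hτ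
  refine ⟨κ, r, ρw, hCst, fun nt p hnt hp hp1 => ?_⟩
  -- the number of spectators
  obtain ⟨k, hk0, hk1, hk⟩ := big_fin' (ι := Unit) (fun _ => W1 u w * ((N + 1 : ℕ) : ℝ)) (fun _ => τ) (fun _ => hτ) k0
  have hsp : W1 u w * (((N + 1 : ℕ) : ℝ) / (k + 1)) ≤ τ := by
    have h1 := hk ()
    have h2 : (0 : ℝ) < k + 1 := by positivity
    rw [mul_div_assoc', div_le_iff₀ h2]
    linarith
  obtain ⟨K, hK1, hK⟩ := choose_K (W1 u w * (k + 1)) nt p τ (by positivity) hnt hp hp1 hτ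
  refine ⟨k, K, hk0, hK1, ?_⟩
  set W : ℝ := W3 u k K w with hWdef
  have hWW : W = W1 u w * ((k + 1) * (K + 1) ^ 3) := rfl
  have hWge : W1 u w ≤ W := W3_ge u k K hw
  have hW : 0 < W := by linarith
  have hnet : W * (nt * (1 - p) ^ K) ≤ τ := by
    rw [hWW]
    refine le_trans (le_of_eq ?_) hK
    ring
  refine ⟨τ / W, by positivity, ?_⟩
  set δ : ℝ := τ / W with hδ
  have hδ0 : 0 < δ := by positivity
  set lr : ℝ := Real.logb 2 (Fintype.card (Pool.Agent.Helper9.ND.Rc (N + 1) r)) with hlr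
  have hlr0 : 0 ≤ lr := by
    rw [hlr]
    by_cases h0 : Fintype.card (Pool.Agent.Helper9.ND.Rc (N + 1) r) = 0
    · rw [h0]
      simp
    · exact Real.logb_nonneg (by norm_num) (by exact_mod_cast Nat.one_le_iff_ne_zero.mpr h0)
  obtain ⟨P₀, hP1, hP⟩ := choose_P W τ lr (C₀ + 2 + ρw) ρw hW.le hlr0 hτ
  refine ⟨P₀, fun P hPP => ?_⟩
  obtain ⟨hcP, hlP, hlP2, hPn⟩ := hP P hPP
  obtain ⟨S', hS'⟩ : ∃ S' : ℕ, S' + (C₀ + 2 + ρw) = P := ⟨P - (C₀ + 2 + ρw), by omega⟩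
  refine ⟨S', by omega, by omega, by omega, by omega, hlP, ?_, ?_⟩
  · have h1 : 0 ≤ 64 * 2 ^ ρw * (ρw * lr) := by positivity
    have h2 : (1 : ℝ) ≤ W := by linarith
    have h3 : 64 * 2 ^ ρw * (ρw * lr) ≤ W * (514 * (64 * 2 ^ ρw * (ρw * lr))) := by
      have h4 : 64 * 2 ^ ρw * (ρw * lr) ≤ 514 * (64 * 2 ^ ρw * (ρw * lr)) := by linarith
      exact h4.trans (le_mul_of_one_le_left (by linarith) h2)
    have h5 : 0 ≤ τ * P := by positivity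
    linarith
  -- the error of ADD
  obtain ⟨εA, hεA, -, hεA1⟩ := small_fin (ι := Unit) (fun _ => W * 256) (fun _ => τ) (fun _ => hτ) one_pos
  refine ⟨εA, hεA, ?_⟩
  obtain ⟨εQ₀, hεQ, -, hεQ1⟩ := small_fin (ι := Unit) (fun _ => (N : ℝ) + 1) (fun _ => εA * (rho / 4))
    (fun _ => by positivity) one_pos
  refine ⟨εQ₀, hεQ, fun εQ hεQ2 ηQ hηQ => ?_⟩
  set b : ℝ := ((k + 2 * K : ℕ) : ℝ) with hb'
  set eE : ℝ := b * (2 * b + 1) with heE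
  have hb0 : 0 ≤ b := Nat.cast_nonneg _
  have heE0 : 0 ≤ eE := by positivity
  set co : ℝ := W * (4 / δ ^ 2 * (S' * (k + 2 * K + 1))) with hco
  have hco0 : 0 ≤ co := by positivity
  set cd : ℝ := W * (16 * 2 ^ C₀ * C₀) with hcd
  have hcd0 : 0 ≤ cd := by positivity
  set cn : ℝ := W * (514 * (64 * 2 ^ ρw * ρw)) with hcn
  have hcn0 : 0 ≤ cn := by positivity
  obtain ⟨η₀, hη0, hη1, n₀, hn1, hn⟩ := asy_fin (ι := Fin 7)
    ![7 * eE + 4, 6 + (N + 1) + 7 * eE, cn, co * (eE + 1), cd * (eE + 2), W * (eE + 1), 0]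
    (fun _ => 0)
    ![18 * (N + 1), 5 * (N + 1) + 1 + (N + 1) * (5 * N + 25) + εA * (21 * N + 28), 0, co * (2 * (N + 1)), cd * C₀,
      W * (N + 1), 2 * (21 * N + 28) + 2 + 2 * P]
    ![ηQ, εA * (rho / 4), τ / 2, τ, τ, τ, rho] (by
      intro i
      fin_cases i
      · exact hηQ
      · show 0 < εA * (rho / 4)
        positivity
      · exact half_pos hτ
      · exact hτ
      · exact hτ
      · exact hτ
      · exact hρ) one_pos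
  refine ⟨η₀, hη0, n₀, fun η hη hη' n hn' E hE => ?_⟩
  have g := hn η hη hη' n hn'
  have g0 := g 0
  have g1 := g 1
  have g2 := g 2
  have g3 := g 3
  have g4 := g 4
  have g5 := g 5
  have g6 := g 6
  simp only [Matrix.cons_val_zero, Matrix.cons_val_one, Matrix.cons_val, zero_mul, add_zero, zero_add] at g0 g1 g2 g3 g4 g5 g6
  have hn0 : (0 : ℝ) ≤ n := Nat.cast_nonneg n
  have hE' : E = eE * (η * n) := by
    rw [hE, heE]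
    ring
  have hPn' : P ≤ n := by
    have h1 : (P : ℝ) ≤ n := by
      have h2 : rho * n ≤ n := mul_le_of_le_one_left hn0 hρ1
      have h3 : (0 : ℝ) ≤ N := Nat.cast_nonneg N
      have h4 : (0 : ℝ) ≤ P := Nat.cast_nonneg P
      linarith
    exact_mod_cast h1
  refine ⟨?_, ?_, ?_⟩
  · rw [hE']
    linarith
  · intro kt hkt
    have h2 : rho * n ≤ n := mul_le_of_le_one_left hn0 hρ1
    have h3 : (0 : ℝ) ≤ N := Nat.cast_nonneg N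
    have h4 : (0 : ℝ) ≤ P := Nat.cast_nonneg P
    refine ⟨?_, ?_, ?_⟩
    · have : (kt : ℝ) ≤ n := by linarith
      exact_mod_cast this
    · linarith
    · have h5 : ((N : ℝ) + 1) * εQ * n ≤ εA * (rho / 4) * n := by
        have h6 := hεQ1 ()
        have h7 : ((N : ℝ) + 1) * εQ ≤ ((N : ℝ) + 1) * εQ₀ := mul_le_mul_of_nonneg_left hεQ2 (by linarith)
        exact mul_le_mul_of_nonneg_right (h7.trans h6) hn0
      have h8 : ((N : ℝ) + 1) * (n + 5) * η ≤ ((N : ℝ) + 1) * (η * n) + 5 * ((N : ℝ) + 1) := by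
        have h9 : η ≤ 1 := hη'.trans hη1
        nlinarith only [h9]
      have h10 : εA * (rho * n - kt - (21 * N + 28)) ≥ εA * (rho / 2 * n - (21 * N + 28)) :=
        mul_le_mul_of_nonneg_left (by linarith) hεA.le
      rw [hE']
      nlinarith only [g1, h5, h8, h10]
  · intro L hL
    obtain ⟨p1, p2, p3⟩ := hPn n L hPn' hL
    have hN1 : ((N + 1 : ℕ) : ℝ) = N + 1 := by push_cast; ring
    exact {
      c0 := hc0
      kp := hkp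
      sp := hsp
      net := hnet
      tv := by
        show W * δ ≤ τ
        rw [hδ, mul_div_cancel₀ _ hW.ne']
      ad := by
        have h1 := hεA1 ()
        show W * (256 * εA) ≤ τ
        linarith
      gap := by
        have h1 : (P : ℝ) - S' = ((C₀ + 2 + ρw : ℕ) : ℝ) := by
          rw [← hS']
          push_cast
          ring
        rw [h1]
        exact p1
      rc := p2
      nod := by
        have h1 : W * (514 * (64 * 2 ^ ρw * (ρw * (L * lr + η * n)))) =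
            W * (514 * (64 * 2 ^ ρw * (ρw * (L * lr)))) + cn * (η * n) := by
          rw [hcn]
          ring
        show W * (514 * (64 * 2 ^ ρw * (ρw * (L * lr + η * n)))) ≤ τ * n
        rw [h1]
        linarith
      off := by
        show W * (4 / δ ^ 2 * (S' * ((k + 2 * K + 1) * (E + ((N + 1 : ℕ) : ℝ) + (η * n + ((N + 1 : ℕ) : ℝ)))))) ≤ τ * n
        refine le_trans (le_of_eq ?_) g3
        rw [hE', hN1, hco]
        ring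
      d3 := by
        show W * (16 * 2 ^ C₀ * (C₀ * ((E + 2 * (η * n)) + C₀))) ≤ τ * n
        refine le_trans (le_of_eq ?_) g4
        rw [hE', hcd]
        ring
      lin := by
        show W * (E + η * n + ((N + 1 : ℕ) : ℝ)) ≤ τ * n
        refine le_trans (le_of_eq ?_) g5
        rw [hE', hN1]
        ring }

end

end Pool.Agent.Helper22.FW
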