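import Pool.Agent.Helper22.FW.NumK
import Pool.Agent.Helper99.FW.Cla

/-!
# The total of the costs of one side
-/

set_option autoImplicit false

namespace Pool.Agent.Helper22.FW

open Pool.Agent.Helper99.FW

noncomputable section

variable {N u k K L P S' C₀ ρw n r : ℕ} {w τ κ nt p δ εA E ek : ℝ}

theorem W1_eq (u : ℕ) (w : ℝ) : W1 u w = 1000 * ((u + 1) ^ 2 * (w + 1) ^ 3) := by
  unfold W1
  ring

/-- the bound of the bad events of pairs -/
theorem NK.cls (h : NK N u k K L P S' C₀ ρw n (Real.logb 2 (Fintype.card (Pool.Agent.Helper9.ND.Rc (N + 1) r))) w τ κ nt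
    p δ εA E ek) (hw : 0 ≤ w) (hL : L * P ≤ n) (hS : S' ≤ P) (hE : 0 ≤ E) (hek : 0 ≤ ek) (hκ : 0 ≤ κ) (hεA : 0 ≤ εA) :
    W1 u w * clsN (N + 1) ρw r κ L P S' C₀ k E ek εA ≤ 4000 * (τ * n) := by
  set lr : ℝ := Real.logb 2 (Fintype.card (Pool.Agent.Helper9.ND.Rc (N + 1) r)) with hlr
  have hlr0 : 0 ≤ lr := by
    rw [hlr]
    by_cases h0 : Fintype.card (Pool.Agent.Helper9.ND.Rc (N + 1) r) = 0
    · rw [h0]
      simp
    · exact Real.logb_nonneg (by norm_num) (by exact_mod_cast Nat.one_le_iff_ne_zero.mpr h0)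
  have hW1 := W1_one u hw
  have hW0 : 0 ≤ W1 u w := by linarith
  have hW3 := W3_ge u k K hw
  have hn0 : (0 : ℝ) ≤ n := Nat.cast_nonneg n
  have hL0 : (0 : ℝ) ≤ L := Nat.cast_nonneg L
  have hN1 : (1 : ℝ) ≤ ((N + 1 : ℕ) : ℝ) := by
    push_cast
    linarith [(Nat.cast_nonneg N : (0 : ℝ) ≤ N)]
  have hLP : (L : ℝ) * P ≤ n := by exact_mod_cast hL
  have hLS : (L : ℝ) * S' ≤ n := by
    have : (S' : ℝ) ≤ P := by exact_mod_cast hS
    nlinarith
  -- the items with the weight `W1`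
  have i1 : W1 u w * (8 / 2 ^ C₀ * (L * P)) ≤ τ * n := by
    have h1 : W1 u w * (8 / 2 ^ C₀ * (L * P)) = W1 u w * (8 / 2 ^ C₀) * (L * P) := by ring
    have h2 : 0 ≤ W1 u w * (8 / 2 ^ C₀) := by positivity
    rw [h1]
    calc W1 u w * (8 / 2 ^ C₀) * (L * P) ≤ W1 u w * (8 / 2 ^ C₀) * n := mul_le_mul_of_nonneg_left hLP h2
      _ ≤ τ * n := mul_le_mul_of_nonneg_right h.c0 hn0
  have i2 : W1 u w * (16 * 2 ^ C₀ * (C₀ * ((E + 2 * ek) + C₀))) ≤ τ * n :=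
    (mul_le_mul_of_nonneg_right hW3 (by positivity)).trans h.d3
  have i3 : W1 u w * ((L + 1) * lr) ≤ τ * n := (mul_le_mul_of_nonneg_right hW3 (by positivity)).trans h.rc
  have i3' : W1 u w * (L * lr) ≤ τ * n := by
    refine le_trans (mul_le_mul_of_nonneg_left ?_ hW0) i3
    nlinarith only [hlr0]
  have i4 : W1 u w * (E + ek + ((N + 1 : ℕ) : ℝ)) ≤ τ * n :=
    (mul_le_mul_of_nonneg_right hW3 (by positivity)).trans h.lin
  have i5 : W1 u w * (514 * (64 * 2 ^ ρw * (ρw * (L * lr + ek)))) ≤ τ * n :=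
    (mul_le_mul_of_nonneg_right hW3 (by positivity)).trans h.nod
  have i6 : W1 u w * (514 * (L * S' * (53248 * ((((N + 1 : ℕ) : ℝ) + 1) * κ)))) ≤ τ * n := by
    have h2 : 0 ≤ W1 u w * (514 * (53248 * ((((N + 1 : ℕ) : ℝ) + 1) * κ))) := by positivity
    calc W1 u w * (514 * (L * S' * (53248 * ((((N + 1 : ℕ) : ℝ) + 1) * κ))))
        = W1 u w * (514 * (53248 * ((((N + 1 : ℕ) : ℝ) + 1) * κ))) * (L * S') := by ring
      _ ≤ W1 u w * (514 * (53248 * ((((N + 1 : ℕ) : ℝ) + 1) * κ))) * n := mul_le_mul_of_nonneg_left hLS h2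
      _ ≤ τ * n := mul_le_mul_of_nonneg_right h.kp hn0
  have i7 : W1 u w * (256 * (L * S' * εA)) ≤ τ * n := by
    have h1 : W1 u w * (256 * εA) ≤ τ := (mul_le_mul_of_nonneg_right hW3 (by positivity)).trans h.ad
    have h2 : 0 ≤ W1 u w * (256 * εA) := by positivity
    calc W1 u w * (256 * (L * S' * εA)) = W1 u w * (256 * εA) * (L * S') := by ring
      _ ≤ W1 u w * (256 * εA) * n := mul_le_mul_of_nonneg_left hLS h2
      _ ≤ τ * n := mul_le_mul_of_nonneg_right h1 hn0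
  have i8 : W1 u w * (L * S' * (((N + 1 : ℕ) : ℝ) / (k + 1))) ≤ τ * n := by
    have h2 : 0 ≤ W1 u w * (((N + 1 : ℕ) : ℝ) / (k + 1)) := by positivity
    calc W1 u w * (L * S' * (((N + 1 : ℕ) : ℝ) / (k + 1))) = W1 u w * (((N + 1 : ℕ) : ℝ) / (k + 1)) * (L * S') := by ring
      _ ≤ W1 u w * (((N + 1 : ℕ) : ℝ) / (k + 1)) * n := mul_le_mul_of_nonneg_left hLS h2
      _ ≤ τ * n := mul_le_mul_of_nonneg_right h.sp hn0
  have i9 : W1 u w * ((E + ((N + 1 : ℕ) : ℝ) + (ek + ((N + 1 : ℕ) : ℝ))) + E + (E + 2 * ek) + 2) ≤ 4 * (τ * n) := by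
    have h1 : (E + ((N + 1 : ℕ) : ℝ) + (ek + ((N + 1 : ℕ) : ℝ))) + E + (E + 2 * ek) + 2 ≤
        4 * (E + ek + ((N + 1 : ℕ) : ℝ)) := by linarith
    have h2 := mul_le_mul_of_nonneg_left h1 hW0
    linarith
  have hτn : 0 ≤ τ * n := le_trans (by positivity) i3'
  have e1 : W1 u w * clsN (N + 1) ρw r κ L P S' C₀ k E ek εA =
      W1 u w * (8 / 2 ^ C₀ * (L * P)) + W1 u w * (16 * 2 ^ C₀ * (C₀ * ((E + 2 * ek) + C₀))) +
      1024 * (W1 u w * (L * lr)) +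
      512 * (W1 u w * ((E + ((N + 1 : ℕ) : ℝ) + (ek + ((N + 1 : ℕ) : ℝ))) + E + (E + 2 * ek) + 2)) +
      W1 u w * (514 * (64 * 2 ^ ρw * (ρw * (L * lr + ek)))) +
      W1 u w * (514 * (L * S' * (53248 * ((((N + 1 : ℕ) : ℝ) + 1) * κ)))) +
      W1 u w * (256 * (L * S' * εA)) + 2 * (W1 u w * (L * S' * (((N + 1 : ℕ) : ℝ) / (k + 1)))) := by
    unfold clsN
    rw [← hlr]
    ring
  rw [e1]
  linarith

/-- the numbers of the step errors -/
def TTn (N k K L S' : ℕ) (δ E ek : ℝ) : ℝ :=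
  8 * K * (L * S' * δ + 4 / δ ^ 2 * (S' * ((k + 2 * K + 1) * (E + ((N + 1 : ℕ) : ℝ) + (ek + ((N + 1 : ℕ) : ℝ))))))

/-- **the total of the costs of one side** -/
theorem NK.total (h : NK N u k K L P S' C₀ ρw n (Real.logb 2 (Fintype.card (Pool.Agent.Helper9.ND.Rc (N + 1) r))) w τ κ nt
    p δ εA E ek) (hw : 0 ≤ w) (hL : L * P ≤ n) (hS : S' ≤ P) (hE : 0 ≤ E) (hek : 0 ≤ ek) (hκ : 0 ≤ κ) (hεA : 0 ≤ εA)
    (hδ : 0 ≤ δ) (hnt : 0 ≤ nt) (hp1 : p ≤ 1) {R I : ℕ} (hI : I ≤ n) {e cf c3 c4 : ℝ} (hR : (R : ℝ) ≤ w)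
    (hcf0 : 0 ≤ cf) (hcf : cf ≤ w) (hc30 : 0 ≤ c3) (hc3 : c3 ≤ w) (hc40 : 0 ≤ c4) (hc4 : c4 ≤ w)
    (he0 : 0 ≤ e) (he : e ≤ 2 * ((L + 1) * (Real.logb 2 (Fintype.card (Pool.Agent.Helper9.ND.Rc (N + 1) r))))) :
    ((L * P : ℕ) * (u * (e + cf) + (u * c3 * I + c4 * I) * (nt * (1 - p) ^ K)) +
      (L * P : ℕ) * (u * c3 * (L * (P - S') + clsN (N + 1) ρw r κ L P S' C₀ k E ek εA)) +
      k * ((L * P : ℕ) * (u * K * (K * (2 * ek + 2 * E + 8 * K * (E + 5 * ((N + 1 : ℕ) : ℝ) + ek)))) +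
        (u * c3 * (I + (L * P : ℕ)) + c4 * I) * TTn N k K L S' δ E ek +
        R * I * (64 * 2 ^ ρw * (ρw * (L * (Real.logb 2 (Fintype.card (Pool.Agent.Helper9.ND.Rc (N + 1) r))) + ek)))) +
      L * (P - S') * (R * I)) * ((u + 1) * w) ≤ 20 * τ * (n : ℝ) ^ 2 := by
  have hcls := h.cls hw hL hS hE hek hκ hεA
  set lr : ℝ := Real.logb 2 (Fintype.card (Pool.Agent.Helper9.ND.Rc (N + 1) r)) with hlr
  have hlr0 : 0 ≤ lr := by
    rw [hlr]
    by_cases h0 : Fintype.card (Pool.Agent.Helper9.ND.Rc (N + 1) r) = 0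
    · rw [h0]
      simp
    · exact Real.logb_nonneg (by norm_num) (by exact_mod_cast Nat.one_le_iff_ne_zero.mpr h0)
  obtain ⟨A, hA⟩ : ∃ A : ℝ, A = (u + 1) ^ 2 * (w + 1) ^ 3 := ⟨_, rfl⟩
  obtain ⟨kK, hkK⟩ : ∃ kK : ℝ, kK = (k + 1) * (K + 1) ^ 3 := ⟨_, rfl⟩
  have eW1 : W1 u w = 1000 * A := by rw [W1_eq, hA]
  have eW3 : W3 u k K w = 1000 * (A * kK) := by
    unfold W3
    rw [eW1, hkK]
    ring
  have hu0 : (0 : ℝ) ≤ u := Nat.cast_nonneg u
  have hk0 : (0 : ℝ) ≤ k := Nat.cast_nonneg k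
  have hK0 : (0 : ℝ) ≤ K := Nat.cast_nonneg K
  have hn0 : (0 : ℝ) ≤ n := Nat.cast_nonneg n
  have hR0 : (0 : ℝ) ≤ R := Nat.cast_nonneg R
  have hI0 : (0 : ℝ) ≤ I := Nat.cast_nonneg I
  have hI' : (I : ℝ) ≤ n := by exact_mod_cast hI
  have hL0 : (0 : ℝ) ≤ L := Nat.cast_nonneg L
  have hM0 : (0 : ℝ) ≤ (L * P : ℕ) := Nat.cast_nonneg _
  have hM : ((L * P : ℕ) : ℝ) ≤ n := by exact_mod_cast hL
  have hPS : (0 : ℝ) ≤ P - S' := by
    have : (S' : ℝ) ≤ P := by exact_mod_cast hS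
    linarith
  have hN1 : (1 : ℝ) ≤ ((N + 1 : ℕ) : ℝ) := by
    push_cast
    linarith [(Nat.cast_nonneg N : (0 : ℝ) ≤ N)]
  have hA0 : 0 ≤ A := by
    rw [hA]
    positivity
  have hq0 : 0 ≤ nt * (1 - p) ^ K := mul_nonneg hnt (pow_nonneg (by linarith) _)
  have hkK1 : 1 ≤ kK := by
    rw [hkK]
    have : (1 : ℝ) ≤ (K + 1) ^ 3 := one_le_pow₀ (by linarith)
    nlinarith only [this]
  have hkk : (k : ℝ) ≤ kK := by
    rw [hkK]
    have : (1 : ℝ) ≤ (K + 1) ^ 3 := one_le_pow₀ (by linarith)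
    nlinarith only [this]
  have hkKK : (k : ℝ) * K ≤ kK := by
    rw [hkK]
    have h1 : (K : ℝ) ≤ (K + 1) ^ 3 := by
      have e1 : ((K : ℝ) + 1) ^ 3 = K + (1 + 2 * K + 3 * (K * K) + K * (K * K)) := by ring
      rw [e1]
      have : 0 ≤ 1 + 2 * (K : ℝ) + 3 * (K * K) + K * (K * K) := by positivity
      linarith
    exact mul_le_mul (by linarith) h1 hK0 (by linarith)
  have hkK3 : (k : ℝ) * (K ^ 2 * (K + 1)) ≤ kK := by
    rw [hkK]
    have h1 : (K : ℝ) ^ 2 * (K + 1) ≤ (K + 1) ^ 3 := by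
      have e1 : ((K : ℝ) + 1) ^ 3 = K ^ 2 * (K + 1) + (1 + 3 * K + 2 * (K * K)) := by ring
      rw [e1]
      have : 0 ≤ 1 + 3 * (K : ℝ) + 2 * (K * K) := by positivity
      linarith
    exact mul_le_mul (by linarith) h1 (by positivity) (by linarith)
  -- weights
  have hww : w * w ≤ (w + 1) ^ 3 := by
    have e1 : (w + 1) ^ 3 = w * w + (1 + 3 * w + 2 * (w * w) + w * (w * w)) := by ring
    rw [e1]
    have : 0 ≤ 1 + 3 * w + 2 * (w * w) + w * (w * w) := by positivity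
    linarith
  have hw3 : w ≤ (w + 1) ^ 3 := by
    have e1 : (w + 1) ^ 3 = w + (1 + 2 * w + 3 * (w * w) + w * (w * w)) := by ring
    rw [e1]
    have : 0 ≤ 1 + 2 * w + 3 * (w * w) + w * (w * w) := by positivity
    linarith
  have huu : (u : ℝ) * (u + 1) ≤ (u + 1) ^ 2 := by
    have e1 : ((u : ℝ) + 1) ^ 2 = u * (u + 1) + (u + 1) := by ring
    rw [e1]
    linarith
  have huu1 : (u : ℝ) + 1 ≤ (u + 1) ^ 2 := by
    have e1 : ((u : ℝ) + 1) ^ 2 = (u + 1) + u * (u + 1) := by ring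
    rw [e1]
    have : 0 ≤ (u : ℝ) * (u + 1) := by positivity
    linarith
  have hthou : ∀ x : ℝ, 0 ≤ x → x / 1000 ≤ x := fun x hx => by linarith
  have wA : ∀ a b : ℝ, 0 ≤ a → a ≤ w → 0 ≤ b → b ≤ w → ((u : ℝ) * a) * ((u + 1) * b) ≤ A := by
    intro a b ha ha' hb hb'
    rw [hA]
    have h1 : ((u : ℝ) * a) * ((u + 1) * b) = (u * (u + 1)) * (a * b) := by ring
    rw [h1]
    have h2 : a * b ≤ w * w := mul_le_mul ha' hb' hb hw
    exact mul_le_mul huu (h2.trans hww) (mul_nonneg ha hb) (by positivity)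
  have wB : ∀ a b : ℝ, 0 ≤ a → a ≤ w → 0 ≤ b → b ≤ w → a * ((u + 1) * b) ≤ A := by
    intro a b ha ha' hb hb'
    rw [hA]
    have h1 : a * ((u + 1) * b) = ((u : ℝ) + 1) * (a * b) := by ring
    rw [h1]
    have h2 : a * b ≤ w * w := mul_le_mul ha' hb' hb hw
    exact mul_le_mul huu1 (h2.trans hww) (mul_nonneg ha hb) (by positivity)
  have wC : (u : ℝ) * ((u + 1) * w) ≤ A := by
    rw [hA]
    have h1 : (u : ℝ) * ((u + 1) * w) = (u * (u + 1)) * w := by ring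
    rw [h1]
    exact mul_le_mul huu hw3 hw (by positivity)
  -- the items
  have hW3pos : 0 ≤ A * kK := mul_nonneg hA0 (by linarith)
  have j_rc : A * kK * ((L + 1) * lr) ≤ τ * n / 1000 := by
    have := h.rc
    rw [eW3] at this
    linarith
  have j_lin : A * kK * (E + ek + ((N + 1 : ℕ) : ℝ)) ≤ τ * n / 1000 := by
    have := h.lin
    rw [eW3] at this
    linarith
  have j_one : A * kK ≤ τ * n / 1000 := by
    refine le_trans ?_ j_lin
    apply le_mul_of_one_le_right hW3pos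
    linarith
  have j_net : A * kK * (nt * (1 - p) ^ K) ≤ τ / 1000 := by
    have := h.net
    rw [eW3] at this
    linarith
  have j_gap : A * kK * (L * (P - S')) ≤ τ * n / 1000 := by
    have := h.gap
    rw [eW3] at this
    linarith
  have j_nod : A * kK * (64 * 2 ^ ρw * (ρw * (L * lr + ek))) ≤ τ * n / 1000 := by
    have h1 := h.nod
    rw [eW3] at h1
    have h2 : 0 ≤ A * kK * (64 * 2 ^ ρw * (ρw * (L * lr + ek))) := by positivity
    linarith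
  have j_tv : A * kK * (L * S' * δ) ≤ τ * n / 1000 := by
    have h1 := h.tv
    rw [eW3] at h1
    have h2 : (L : ℝ) * S' ≤ n := by
      have h3 : (S' : ℝ) ≤ P := by exact_mod_cast hS
      have h4 : (L : ℝ) * P ≤ n := by exact_mod_cast hL
      nlinarith only [h3, h4]
    have h5 : A * kK * δ ≤ τ / 1000 := by linarith
    calc A * kK * (L * S' * δ) = (A * kK * δ) * (L * S') := by ring
      _ ≤ (A * kK * δ) * n := mul_le_mul_of_nonneg_left h2 (by positivity)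
      _ ≤ τ / 1000 * n := mul_le_mul_of_nonneg_right h5 hn0
      _ = τ * n / 1000 := by ring
  have j_off : A * kK * (4 / δ ^ 2 * (S' * ((k + 2 * K + 1) * (E + ((N + 1 : ℕ) : ℝ) + (ek + ((N + 1 : ℕ) : ℝ)))))) ≤
      τ * n / 1000 := by
    have := h.off
    rw [eW3] at this
    linarith
  have j_cls : A * clsN (N + 1) ρw r κ L P S' C₀ k E ek εA ≤ 4 * (τ * n) := by
    rw [eW1] at hcls
    linarith
  have hτn : 0 ≤ τ * n := by
    have : 0 ≤ A * kK * ((L + 1) * lr) := by positivity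
    linarith
  have hτn2 : 0 ≤ τ * n * n := mul_nonneg hτn hn0
  have hAk : A ≤ A * kK := le_mul_of_one_le_right hA0 hkK1
  -- the terms
  have t1 : (L * P : ℕ) * (u * (e + cf)) * ((u + 1) * w) ≤ τ * n * n := by
    have h1 : (u : ℝ) * cf * ((u + 1) * w) ≤ A := wA cf w hcf0 hcf hw le_rfl
    have h2 : (u : ℝ) * ((u + 1) * w) * e ≤ A * (2 * ((L + 1) * lr)) := mul_le_mul wC he he0 hA0
    have h3 : A * ((L + 1) * lr) ≤ τ * n / 1000 := (mul_le_mul_of_nonneg_right hAk (by positivity)).trans j_rc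
    have h4 : u * (e + cf) * ((u + 1) * w) ≤ τ * n := by
      have h5 : u * (e + cf) * ((u + 1) * w) = (u : ℝ) * ((u + 1) * w) * e + u * cf * ((u + 1) * w) := by ring
      rw [h5]
      linarith
    have h6 : 0 ≤ u * (e + cf) * ((u + 1) * w) := by positivity
    calc (L * P : ℕ) * (u * (e + cf)) * ((u + 1) * w) = (L * P : ℕ) * (u * (e + cf) * ((u + 1) * w)) := by ring
      _ ≤ n * (τ * n) := mul_le_mul hM h4 h6 hn0
      _ = τ * n * n := by ring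
  have t2 : (L * P : ℕ) * ((u * c3 * I + c4 * I) * (nt * (1 - p) ^ K)) * ((u + 1) * w) ≤ τ * n * n := by
    have h1 : (u : ℝ) * c3 * ((u + 1) * w) ≤ A := wA c3 w hc30 hc3 hw le_rfl
    have h2 : c4 * ((u + 1) * w) ≤ A := wB c4 w hc40 hc4 hw le_rfl
    have h3 : A * (nt * (1 - p) ^ K) ≤ τ / 1000 := (mul_le_mul_of_nonneg_right hAk hq0).trans j_net
    have h4 : (u * c3 + c4) * ((u + 1) * w) * (nt * (1 - p) ^ K) ≤ τ / 500 := by
      have h5 : (u * c3 + c4) * ((u + 1) * w) ≤ 2 * A := by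
        have : (u * c3 + c4) * ((u + 1) * w) = u * c3 * ((u + 1) * w) + c4 * ((u + 1) * w) := by ring
        rw [this]
        linarith
      have h6 := mul_le_mul_of_nonneg_right h5 hq0
      linarith
    have h7 : ((L * P : ℕ) : ℝ) * I ≤ n * n := mul_le_mul hM hI' hI0 hn0
    have h8 : 0 ≤ (u * c3 + c4) * ((u + 1) * w) * (nt * (1 - p) ^ K) := by positivity
    have h9 : 0 ≤ τ := by
      have : 0 ≤ A * (nt * (1 - p) ^ K) := mul_nonneg hA0 hq0
      linarith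
    calc (L * P : ℕ) * ((u * c3 * I + c4 * I) * (nt * (1 - p) ^ K)) * ((u + 1) * w)
        = ((L * P : ℕ) * I) * ((u * c3 + c4) * ((u + 1) * w) * (nt * (1 - p) ^ K)) := by ring
      _ ≤ (n * n) * (τ / 500) := mul_le_mul h7 h4 h8 (by positivity)
      _ ≤ τ * n * n := by
        have e1 : (n : ℝ) * n * (τ / 500) = τ * n * n / 500 := by ring
        rw [e1]
        linarith
  have t3 : (L * P : ℕ) * (u * c3 * (L * (P - S') + clsN (N + 1) ρw r κ L P S' C₀ k E ek εA)) * ((u + 1) * w) ≤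
      5 * (τ * n * n) := by
    have h1 : (u : ℝ) * c3 * ((u + 1) * w) ≤ A := wA c3 w hc30 hc3 hw le_rfl
    have h1' : 0 ≤ (u : ℝ) * c3 * ((u + 1) * w) := by positivity
    have hcl0 : 0 ≤ clsN (N + 1) ρw r κ L P S' C₀ k E ek εA := by
      unfold clsN
      rw [← hlr]
      positivity
    have h3 : A * (L * (P - S')) ≤ τ * n / 1000 := (mul_le_mul_of_nonneg_right hAk (by positivity)).trans j_gap
    have h4 : u * c3 * ((u + 1) * w) * (L * (P - S') + clsN (N + 1) ρw r κ L P S' C₀ k E ek εA) ≤ 5 * (τ * n) := by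
      refine (mul_le_mul_of_nonneg_right h1 (by positivity)).trans ?_
      rw [mul_add]
      linarith
    calc (L * P : ℕ) * (u * c3 * (L * (P - S') + clsN (N + 1) ρw r κ L P S' C₀ k E ek εA)) * ((u + 1) * w)
        = (L * P : ℕ) * (u * c3 * ((u + 1) * w) * (L * (P - S') + clsN (N + 1) ρw r κ L P S' C₀ k E ek εA)) := by ring
      _ ≤ n * (5 * (τ * n)) := mul_le_mul hM h4 (by positivity) hn0
      _ = 5 * (τ * n * n) := by ring
  have t4 : k * ((L * P : ℕ) * (u * K * (K * (2 * ek + 2 * E + 8 * K * (E + 5 * ((N + 1 : ℕ) : ℝ) + ek))))) *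
      ((u + 1) * w) ≤ τ * n * n := by
    have h1 : 2 * ek + 2 * E + 8 * K * (E + 5 * ((N + 1 : ℕ) : ℝ) + ek) ≤ 40 * (K + 1) * (E + ek + ((N + 1 : ℕ) : ℝ)) := by
      have e1 : 40 * ((K : ℝ) + 1) * (E + ek + ((N + 1 : ℕ) : ℝ)) = (2 * ek + 2 * E + 8 * K * (E + 5 * ((N + 1 : ℕ) : ℝ) + ek)) +
          (32 * (K * E) + 32 * (K * ek) + 38 * E + 38 * ek + 40 * ((N + 1 : ℕ) : ℝ)) := by ring
      rw [e1]
      have : 0 ≤ 32 * ((K : ℝ) * E) + 32 * (K * ek) + 38 * E + 38 * ek + 40 * ((N + 1 : ℕ) : ℝ) := by positivity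
      linarith
    have h2 : (k : ℝ) * (K * (K * (2 * ek + 2 * E + 8 * K * (E + 5 * ((N + 1 : ℕ) : ℝ) + ek)))) ≤
        40 * kK * (E + ek + ((N + 1 : ℕ) : ℝ)) := by
      calc (k : ℝ) * (K * (K * (2 * ek + 2 * E + 8 * K * (E + 5 * ((N + 1 : ℕ) : ℝ) + ek))))
          = (k * (K * K)) * (2 * ek + 2 * E + 8 * K * (E + 5 * ((N + 1 : ℕ) : ℝ) + ek)) := by ring
        _ ≤ (k * (K * K)) * (40 * (K + 1) * (E + ek + ((N + 1 : ℕ) : ℝ))) := mul_le_mul_of_nonneg_left h1 (by positivity)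
        _ = 40 * (k * (K ^ 2 * (K + 1))) * (E + ek + ((N + 1 : ℕ) : ℝ)) := by ring
        _ ≤ 40 * kK * (E + ek + ((N + 1 : ℕ) : ℝ)) := by
          apply mul_le_mul_of_nonneg_right _ (by positivity)
          linarith
    have h3 : ((u : ℝ) * ((u + 1) * w)) * (k * (K * (K * (2 * ek + 2 * E + 8 * K * (E + 5 * ((N + 1 : ℕ) : ℝ) + ek))))) ≤
        A * (40 * kK * (E + ek + ((N + 1 : ℕ) : ℝ))) := mul_le_mul wC h2 (by positivity) hA0
    have h4 : A * (40 * kK * (E + ek + ((N + 1 : ℕ) : ℝ))) ≤ τ * n := by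
      have : A * (40 * kK * (E + ek + ((N + 1 : ℕ) : ℝ))) = 40 * (A * kK * (E + ek + ((N + 1 : ℕ) : ℝ))) := by ring
      rw [this]
      linarith
    calc k * ((L * P : ℕ) * (u * K * (K * (2 * ek + 2 * E + 8 * K * (E + 5 * ((N + 1 : ℕ) : ℝ) + ek))))) * ((u + 1) * w)
        = (L * P : ℕ) * ((u * ((u + 1) * w)) * (k * (K * (K * (2 * ek + 2 * E + 8 * K *
            (E + 5 * ((N + 1 : ℕ) : ℝ) + ek)))))) := by ring
      _ ≤ n * (τ * n) := mul_le_mul hM (h3.trans h4) (by positivity) hn0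
      _ = τ * n * n := by ring
  have t5 : k * ((u * c3 * (I + (L * P : ℕ)) + c4 * I) * TTn N k K L S' δ E ek) * ((u + 1) * w) ≤ τ * n * n := by
    have hT0 : 0 ≤ TTn N k K L S' δ E ek := by
      unfold TTn
      positivity
    have h1 : (u : ℝ) * c3 * ((u + 1) * w) ≤ A := wA c3 w hc30 hc3 hw le_rfl
    have h2 : c4 * ((u + 1) * w) ≤ A := wB c4 w hc40 hc4 hw le_rfl
    have h3 : (u * c3 * (I + (L * P : ℕ)) + c4 * I) * ((u + 1) * w) ≤ 3 * n * A := by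
      have e1 : (u * c3 * (I + (L * P : ℕ)) + c4 * I) * ((u + 1) * w) =
          (u * c3 * ((u + 1) * w)) * (I + (L * P : ℕ)) + (c4 * ((u + 1) * w)) * I := by ring
      rw [e1]
      have e2 : (u * c3 * ((u + 1) * w)) * (I + (L * P : ℕ)) ≤ A * (2 * n) :=
        mul_le_mul h1 (by linarith) (by positivity) hA0
      have e3 : (c4 * ((u + 1) * w)) * I ≤ A * n := mul_le_mul h2 hI' hI0 hA0
      linarith
    have h4 : (k : ℝ) * TTn N k K L S' δ E ek ≤ kK * (8 * (L * S' * δ + 4 / δ ^ 2 * (S' * ((k + 2 * K + 1) *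
        (E + ((N + 1 : ℕ) : ℝ) + (ek + ((N + 1 : ℕ) : ℝ))))))) := by
      unfold TTn
      have e1 : (k : ℝ) * (8 * K * (L * S' * δ + 4 / δ ^ 2 * (S' * ((k + 2 * K + 1) *
        (E + ((N + 1 : ℕ) : ℝ) + (ek + ((N + 1 : ℕ) : ℝ))))))) = (k * K) * (8 * (L * S' * δ + 4 / δ ^ 2 * (S' *
          ((k + 2 * K + 1) * (E + ((N + 1 : ℕ) : ℝ) + (ek + ((N + 1 : ℕ) : ℝ))))))) := by ring
      rw [e1]
      exact mul_le_mul_of_nonneg_right hkKK (by positivity)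
    have h5 : A * (kK * (8 * (L * S' * δ + 4 / δ ^ 2 * (S' * ((k + 2 * K + 1) *
        (E + ((N + 1 : ℕ) : ℝ) + (ek + ((N + 1 : ℕ) : ℝ)))))))) ≤ 16 * (τ * n / 1000) := by
      have e1 : A * (kK * (8 * (L * S' * δ + 4 / δ ^ 2 * (S' * ((k + 2 * K + 1) *
        (E + ((N + 1 : ℕ) : ℝ) + (ek + ((N + 1 : ℕ) : ℝ)))))))) = 8 * (A * kK * (L * S' * δ)) +
          8 * (A * kK * (4 / δ ^ 2 * (S' * ((k + 2 * K + 1) *
        (E + ((N + 1 : ℕ) : ℝ) + (ek + ((N + 1 : ℕ) : ℝ))))))) := by ring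
      rw [e1]
      linarith
    calc k * ((u * c3 * (I + (L * P : ℕ)) + c4 * I) * TTn N k K L S' δ E ek) * ((u + 1) * w)
        = ((u * c3 * (I + (L * P : ℕ)) + c4 * I) * ((u + 1) * w)) * (k * TTn N k K L S' δ E ek) := by ring
      _ ≤ (3 * n * A) * (kK * (8 * (L * S' * δ + 4 / δ ^ 2 * (S' * ((k + 2 * K + 1) *
        (E + ((N + 1 : ℕ) : ℝ) + (ek + ((N + 1 : ℕ) : ℝ)))))))) :=
          mul_le_mul h3 h4 (mul_nonneg hk0 hT0) (by positivity)
      _ = 3 * n * (A * (kK * (8 * (L * S' * δ + 4 / δ ^ 2 * (S' * ((k + 2 * K + 1) *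
        (E + ((N + 1 : ℕ) : ℝ) + (ek + ((N + 1 : ℕ) : ℝ))))))))) := by ring
      _ ≤ 3 * n * (16 * (τ * n / 1000)) := mul_le_mul_of_nonneg_left h5 (by positivity)
      _ ≤ τ * n * n := by
        have e1 : 3 * (n : ℝ) * (16 * (τ * n / 1000)) = 48 / 1000 * (τ * n * n) := by ring
        rw [e1]
        linarith
  have t6 : k * (R * I * (64 * 2 ^ ρw * (ρw * (L * lr + ek)))) * ((u + 1) * w) ≤ τ * n * n := by
    have h1 : (R : ℝ) * ((u + 1) * w) ≤ A := wB R w hR0 hR hw le_rfl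
    have h2 : (k : ℝ) * (64 * 2 ^ ρw * (ρw * (L * lr + ek))) ≤ kK * (64 * 2 ^ ρw * (ρw * (L * lr + ek))) :=
      mul_le_mul_of_nonneg_right hkk (by positivity)
    have h3 : (R * ((u + 1) * w)) * (k * (64 * 2 ^ ρw * (ρw * (L * lr + ek)))) ≤ τ * n / 1000 := by
      refine (mul_le_mul h1 h2 (by positivity) hA0).trans ?_
      rw [← mul_assoc]
      exact j_nod
    calc k * (R * I * (64 * 2 ^ ρw * (ρw * (L * lr + ek)))) * ((u + 1) * w)
        = I * ((R * ((u + 1) * w)) * (k * (64 * 2 ^ ρw * (ρw * (L * lr + ek))))) := by ring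
      _ ≤ n * (τ * n / 1000) := mul_le_mul hI' h3 (by positivity) hn0
      _ ≤ τ * n * n := by
        have e1 : (n : ℝ) * (τ * n / 1000) = τ * n * n / 1000 := by ring
        rw [e1]
        linarith
  have t7 : L * (P - S') * (R * I) * ((u + 1) * w) ≤ τ * n * n := by
    have h1 : (R : ℝ) * ((u + 1) * w) ≤ A := wB R w hR0 hR hw le_rfl
    have h3 : A * (L * (P - S')) ≤ τ * n / 1000 := (mul_le_mul_of_nonneg_right hAk (by positivity)).trans j_gap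
    have h4 : (R * ((u + 1) * w)) * (L * (P - S')) ≤ τ * n / 1000 :=
      (mul_le_mul_of_nonneg_right h1 (by positivity)).trans h3
    calc L * (P - S') * (R * I) * ((u + 1) * w) = I * ((R * ((u + 1) * w)) * (L * (P - S'))) := by ring
      _ ≤ n * (τ * n / 1000) := mul_le_mul hI' h4 (by positivity) hn0
      _ ≤ τ * n * n := by
        have e1 : (n : ℝ) * (τ * n / 1000) = τ * n * n / 1000 := by ring
        rw [e1]
        linarith
  have esum : ((L * P : ℕ) * (u * (e + cf) + (u * c3 * I + c4 * I) * (nt * (1 - p) ^ K)) +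
      (L * P : ℕ) * (u * c3 * (L * (P - S') + clsN (N + 1) ρw r κ L P S' C₀ k E ek εA)) +
      k * ((L * P : ℕ) * (u * K * (K * (2 * ek + 2 * E + 8 * K * (E + 5 * ((N + 1 : ℕ) : ℝ) + ek)))) +
        (u * c3 * (I + (L * P : ℕ)) + c4 * I) * TTn N k K L S' δ E ek +
        R * I * (64 * 2 ^ ρw * (ρw * (L * lr + ek)))) +
      L * (P - S') * (R * I)) * ((u + 1) * w) =
      (L * P : ℕ) * (u * (e + cf)) * ((u + 1) * w) +
      (L * P : ℕ) * ((u * c3 * I + c4 * I) * (nt * (1 - p) ^ K)) * ((u + 1) * w) +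
      (L * P : ℕ) * (u * c3 * (L * (P - S') + clsN (N + 1) ρw r κ L P S' C₀ k E ek εA)) * ((u + 1) * w) +
      k * ((L * P : ℕ) * (u * K * (K * (2 * ek + 2 * E + 8 * K * (E + 5 * ((N + 1 : ℕ) : ℝ) + ek))))) * ((u + 1) * w) +
      k * ((u * c3 * (I + (L * P : ℕ)) + c4 * I) * TTn N k K L S' δ E ek) * ((u + 1) * w) +
      k * (R * I * (64 * 2 ^ ρw * (ρw * (L * lr + ek)))) * ((u + 1) * w) +
      L * (P - S') * (R * I) * ((u + 1) * w) := by ring
  rw [esum]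
  have e2 : τ * n * n = τ * (n : ℝ) ^ 2 := by ring
  rw [e2] at t1 t2 t3 t4 t5 t6 t7
  have e3 : 0 ≤ τ * (n : ℝ) ^ 2 := by
    rw [← e2]
    exact hτn2
  linarith

end

end Pool.Agent.Helper22.FW
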