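import Pool.Agent.Helper22.FW.NumT
import Pool.Agent.Helper61.FW.Cy
import Pool.Agent.Helper70.FW.CoG

/-!
# The bound of the mean of the costs (`kx` of helper58) is small
-/

set_option autoImplicit false

namespace Pool.Agent.Helper22.FW

open Pool.Agent.Helper99.FW Pool.Agent.Helper61.FW

noncomputable section

variable {N u k K L P S' C₀ ρw n r : ℕ} {w τ κ nt p δ εA E ek : ℝ}

/-- **the bound of the mean of the costs of one side** -/
theorem NK.kx (h : NK N u k K L P S' C₀ ρw n (Real.logb 2 (Fintype.card (Pool.Agent.Helper9.ND.Rc (N + 1) r))) w τ κ nt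
    p δ εA E ek) (hw : 0 ≤ w) (hL : L * P ≤ n) (hS : S' ≤ P) (hE : 0 ≤ E) (hek : 0 ≤ ek) (hκ : 0 ≤ κ) (hεA : 0 ≤ εA)
    (hδ : 0 ≤ δ) (hnt : 0 ≤ nt) (hp1 : p ≤ 1) {R I : ℕ} (hI : I ≤ n) {e c0 k00 cd ce cT cn : ℝ} (hR : (R : ℝ) ≤ w)
    (h0 : 0 ≤ c0) (h0' : c0 ≤ u * w) (hk00 : k00 ≤ u * (e + w) + 2 * (u + 1) * w * n * (nt * (1 - p) ^ K))
    (hcd0 : 0 ≤ cd) (hcd : cd ≤ u * K) (hce : ce ≤ u * (e + w)) (hcT0 : 0 ≤ cT) (hcT : cT ≤ 3 * (u + 1) * w * n)
    (hcn0 : 0 ≤ cn) (hcn : cn ≤ (u + 1) * w * n)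
    (he0 : 0 ≤ e) (he : e ≤ 2 * ((L + 1) * (Real.logb 2 (Fintype.card (Pool.Agent.Helper9.ND.Rc (N + 1) r))))) :
    (L * S' * (c0 * (L * (P - S') + clsN (N + 1) ρw r κ L P S' C₀ k E ek εA) + k00) +
      k * (L * S' * (cd * (K * (2 * ek + (2 * E + 8 * K * (E + 4 * ((N + 1 : ℕ) : ℝ) + (ek + ((N + 1 : ℕ) : ℝ)))))) +
        ce) + cT * (L * S' * (8 * K * δ) + 8 * K * (4 / δ ^ 2 * (S' * (((k + 2 * K : ℕ) + 1) *
          (E + ((N + 1 : ℕ) : ℝ) + (ek + ((N + 1 : ℕ) : ℝ))))))) + cn * nBad (N + 1) r ρw L ek) +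
      L * (P - S') * (R * I)) * ((u + 1) * w) ≤ 20 * τ * (n : ℝ) ^ 2 := by
  have hcls := h.cls hw hL hS hE hek hκ hεA
  unfold nBad
  set lr : ℝ := Real.logb 2 (Fintype.card (Pool.Agent.Helper9.ND.Rc (N + 1) r)) with hlr
  have hlr0 : 0 ≤ lr := by
    rw [hlr]
    by_cases h0 : Fintype.card (Pool.Agent.Helper9.ND.Rc (N + 1) r) = 0
    · rw [h0]
      simp
    · exact Real.logb_nonneg (by norm_num) (by exact_mod_cast Nat.one_le_iff_ne_zero.mpr h0)
  obtain ⟨A, hA⟩ : ∃ A : ℝ, A = (u + 1) ^ 2 * (w + 1) ^ 3 := ⟨_, rfl⟩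
  obtain ⟨kK, hkK⟩ : ∃ kK : ℝ, kK = (k + 1) * (K + 1) ^ 3 := ⟨_, rfl⟩
  have eW1 : W1 u w = 1000 * A := by rw [W1_eq, hA]
  have eW3 : W3 u k K w = 1000 * (A * kK) := by
    unfold W3
    rw [eW1, hkK]
    ring
  have hu0 : (0 : ℝ) ≤ u := Nat.cast_nonneg u
  have hk0 : (0 : ℝ) ≤ k := Nat.cast_nonneg k
  have hK0 : (0 : ℝ) ≤ K := Nat.cast_nonneg K
  have hn0 : (0 : ℝ) ≤ n := Nat.cast_nonneg n
  have hR0 : (0 : ℝ) ≤ R := Nat.cast_nonneg R
  have hI0 : (0 : ℝ) ≤ I := Nat.cast_nonneg I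
  have hI' : (I : ℝ) ≤ n := by exact_mod_cast hI
  have hL0 : (0 : ℝ) ≤ L := Nat.cast_nonneg L
  have hM0 : (0 : ℝ) ≤ L * S' := by positivity
  have hSP : (S' : ℝ) ≤ P := by exact_mod_cast hS
  have hM : (L : ℝ) * S' ≤ n := by
    have h4 : (L : ℝ) * P ≤ n := by exact_mod_cast hL
    exact (mul_le_mul_of_nonneg_left hSP hL0).trans h4
  have hPS : (0 : ℝ) ≤ P - S' := by linarith
  have hN1 : (1 : ℝ) ≤ ((N + 1 : ℕ) : ℝ) := by
    push_cast
    linarith [(Nat.cast_nonneg N : (0 : ℝ) ≤ N)]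
  have hA0 : 0 ≤ A := by
    rw [hA]
    positivity
  have hq0 : 0 ≤ nt * (1 - p) ^ K := mul_nonneg hnt (pow_nonneg (by linarith) _)
  have hkK1 : 1 ≤ kK := by
    rw [hkK]
    have h2 : (1 : ℝ) ≤ (K + 1) ^ 3 := one_le_pow₀ (by linarith)
    have h3 : (1 : ℝ) ≤ k + 1 := by linarith
    exact one_le_mul_of_one_le_of_one_le h3 h2
  have hkk : (k : ℝ) ≤ kK := by
    rw [hkK]
    have h2 : (1 : ℝ) ≤ (K + 1) ^ 3 := one_le_pow₀ (by linarith)
    exact (show (k : ℝ) ≤ (k + 1) * 1 by linarith).trans (mul_le_mul_of_nonneg_left h2 (by linarith))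
  have hkKK : (k : ℝ) * K ≤ kK := by
    rw [hkK]
    have h1 : (K : ℝ) ≤ (K + 1) ^ 3 := by
      have e1 : ((K : ℝ) + 1) ^ 3 = K + (1 + 2 * K + 3 * (K * K) + K * (K * K)) := by ring
      rw [e1]
      have : 0 ≤ 1 + 2 * (K : ℝ) + 3 * (K * K) + K * (K * K) := by positivity
      linarith
    exact mul_le_mul (by linarith) h1 hK0 (by linarith)
  have hkK3 : (k : ℝ) * (K ^ 2 * (K + 1)) ≤ kK := by
    rw [hkK]
    have h1 : (K : ℝ) ^ 2 * (K + 1) ≤ (K + 1) ^ 3 := by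
      have e1 : ((K : ℝ) + 1) ^ 3 = K ^ 2 * (K + 1) + (1 + 3 * K + 2 * (K * K)) := by ring
      rw [e1]
      have : 0 ≤ 1 + 3 * (K : ℝ) + 2 * (K * K) := by positivity
      linarith
    exact mul_le_mul (by linarith) h1 (by positivity) (by linarith)
  -- weights
  have hww : w * w ≤ (w + 1) ^ 3 := by
    have e1 : (w + 1) ^ 3 = w * w + (1 + 3 * w + 2 * (w * w) + w * (w * w)) := by ring
    rw [e1]
    have : 0 ≤ 1 + 3 * w + 2 * (w * w) + w * (w * w) := by positivity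
    linarith
  have hw3 : w ≤ (w + 1) ^ 3 := by
    have e1 : (w + 1) ^ 3 = w + (1 + 2 * w + 3 * (w * w) + w * (w * w)) := by ring
    rw [e1]
    have : 0 ≤ 1 + 2 * w + 3 * (w * w) + w * (w * w) := by positivity
    linarith
  have huu : (u : ℝ) * (u + 1) ≤ (u + 1) ^ 2 := by
    have e1 : ((u : ℝ) + 1) ^ 2 = u * (u + 1) + (u + 1) := by ring
    rw [e1]
    linarith
  have huu1 : (u : ℝ) + 1 ≤ (u + 1) ^ 2 := by
    have e1 : ((u : ℝ) + 1) ^ 2 = (u + 1) + u * (u + 1) := by ring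
    rw [e1]
    have : 0 ≤ (u : ℝ) * (u + 1) := by positivity
    linarith
  have wA : u * w * ((u + 1) * w) ≤ A := by
    rw [hA]
    calc u * w * ((u + 1) * w) = (u * (u + 1)) * (w * w) := by ring
      _ ≤ (u + 1) ^ 2 * (w + 1) ^ 3 := mul_le_mul huu hww (by positivity) (by positivity)
  have wU : ((u : ℝ) + 1) * w * ((u + 1) * w) ≤ A := by
    rw [hA]
    calc ((u : ℝ) + 1) * w * ((u + 1) * w) = (u + 1) ^ 2 * (w * w) := by ring
      _ ≤ (u + 1) ^ 2 * (w + 1) ^ 3 := mul_le_mul_of_nonneg_left hww (by positivity)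
  have wC : (u : ℝ) * ((u + 1) * w) ≤ A := by
    rw [hA]
    calc (u : ℝ) * ((u + 1) * w) = (u * (u + 1)) * w := by ring
      _ ≤ (u + 1) ^ 2 * (w + 1) ^ 3 := mul_le_mul huu hw3 hw (by positivity)
  have wR : (R : ℝ) * ((u + 1) * w) ≤ A := by
    refine le_trans ?_ wU
    apply mul_le_mul_of_nonneg_right _ (by positivity)
    have h1 : w ≤ (u + 1) * w := by
      have : 0 ≤ (u : ℝ) * w := by positivity
      linarith
    linarith
  have hv0 : 0 ≤ ((u : ℝ) + 1) * w := by positivity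
  -- the items
  have hW3pos : 0 ≤ A * kK := mul_nonneg hA0 (by linarith)
  have j_rc : A * kK * ((L + 1) * lr) ≤ τ * n / 1000 := by
    have := h.rc
    rw [eW3] at this
    linarith
  have j_lin : A * kK * (E + ek + ((N + 1 : ℕ) : ℝ)) ≤ τ * n / 1000 := by
    have := h.lin
    rw [eW3] at this
    linarith
  have j_one : A * kK ≤ τ * n / 1000 := by
    refine le_trans ?_ j_lin
    apply le_mul_of_one_le_right hW3pos
    linarith
  have j_net : A * kK * (nt * (1 - p) ^ K) ≤ τ / 1000 := by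
    have := h.net
    rw [eW3] at this
    linarith
  have j_gap : A * kK * (L * (P - S')) ≤ τ * n / 1000 := by
    have := h.gap
    rw [eW3] at this
    linarith
  have j_nod : A * kK * (64 * 2 ^ ρw * (ρw * (ek + L * lr))) ≤ τ * n / 1000 := by
    have h1 := h.nod
    rw [eW3] at h1
    have h2 : 0 ≤ A * kK * (64 * 2 ^ ρw * (ρw * (L * lr + ek))) := by positivity
    rw [add_comm ek]
    linarith
  have j_tv : A * kK * (L * S' * δ) ≤ τ * n / 1000 := by
    have h1 := h.tv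
    rw [eW3] at h1
    have h5 : A * kK * δ ≤ τ / 1000 := by linarith
    calc A * kK * (L * S' * δ) = (A * kK * δ) * (L * S') := by ring
      _ ≤ (A * kK * δ) * n := mul_le_mul_of_nonneg_left hM (by positivity)
      _ ≤ τ / 1000 * n := mul_le_mul_of_nonneg_right h5 hn0
      _ = τ * n / 1000 := by ring
  obtain ⟨Xo, hXo⟩ : ∃ Xo : ℝ, Xo = 4 / δ ^ 2 * (S' * (((k + 2 * K : ℕ) + 1) *
      (E + ((N + 1 : ℕ) : ℝ) + (ek + ((N + 1 : ℕ) : ℝ))))) := ⟨_, rfl⟩
  have hXo0 : 0 ≤ Xo := by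
    rw [hXo]
    positivity
  have j_off : A * kK * Xo ≤ τ * n / 1000 := by
    have h1 := h.off
    rw [eW3] at h1
    rw [hXo]
    push_cast at h1 ⊢
    linarith
  rw [← hXo]
  have j_cls : A * clsN (N + 1) ρw r κ L P S' C₀ k E ek εA ≤ 4 * (τ * n) := by
    rw [eW1] at hcls
    linarith
  have hτn : 0 ≤ τ * n := by
    have : 0 ≤ A * kK * ((L + 1) * lr) := by positivity
    linarith
  have hτn2 : 0 ≤ n * (τ * n) := mul_nonneg hn0 hτn
  have hAk : A ≤ A * kK := le_mul_of_one_le_right hA0 hkK1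
  have hτq : A * kK * (nt * (1 - p) ^ K) * n ≤ τ * n / 1000 := by
    have := mul_le_mul_of_nonneg_right j_net hn0
    linarith
  have hthou : ∀ x : ℝ, 0 ≤ x → x / 1000 ≤ x := fun x hx => by linarith
  -- the terms
  have ue : u * (e + w) * ((u + 1) * w) ≤ A * (2 * ((L + 1) * lr) + 1) := by
    have h1 : u * (e + w) * ((u + 1) * w) = (u * ((u + 1) * w)) * e + u * w * ((u + 1) * w) := by ring
    rw [h1]
    have h2 : (u * ((u + 1) * w)) * e ≤ A * (2 * ((L + 1) * lr)) := mul_le_mul wC he he0 hA0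
    linarith
  have ueT : k * (u * (e + w) * ((u + 1) * w)) ≤ τ * n := by
    have h1 : (k : ℝ) * (u * (e + w) * ((u + 1) * w)) ≤ kK * (A * (2 * ((L + 1) * lr) + 1)) :=
      mul_le_mul hkk ue (by positivity) (by linarith)
    have h2 : kK * (A * (2 * ((L + 1) * lr) + 1)) = 2 * (A * kK * ((L + 1) * lr)) + A * kK := by ring
    rw [h2] at h1
    linarith
  have ueT' : u * (e + w) * ((u + 1) * w) ≤ τ * n := by
    have h1 : u * (e + w) * ((u + 1) * w) ≤ kK * (A * (2 * ((L + 1) * lr) + 1)) := by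
      refine ue.trans ?_
      exact le_mul_of_one_le_left (by positivity) hkK1
    have h2 : kK * (A * (2 * ((L + 1) * lr) + 1)) = 2 * (A * kK * ((L + 1) * lr)) + A * kK := by ring
    rw [h2] at h1
    linarith
  have t1 : L * S' * k00 * ((u + 1) * w) ≤ 2 * (n * (τ * n)) := by
    have h1 : k00 * ((u + 1) * w) ≤ 2 * (τ * n) := by
      refine (mul_le_mul_of_nonneg_right hk00 hv0).trans ?_
      have e1 : (u * (e + w) + 2 * (u + 1) * w * n * (nt * (1 - p) ^ K)) * ((u + 1) * w) =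
          u * (e + w) * ((u + 1) * w) + 2 * ((u + 1) * w * ((u + 1) * w)) * (nt * (1 - p) ^ K) * n := by ring
      rw [e1]
      have e2 : 2 * (((u : ℝ) + 1) * w * ((u + 1) * w)) * (nt * (1 - p) ^ K) * n ≤
          2 * (A * kK * (nt * (1 - p) ^ K) * n) := by
        have e3 : 2 * (((u : ℝ) + 1) * w * ((u + 1) * w)) * (nt * (1 - p) ^ K) * n =
            2 * ((((u : ℝ) + 1) * w * ((u + 1) * w)) * (nt * (1 - p) ^ K) * n) := by ring
        rw [e3]
        have e4 := mul_le_mul_of_nonneg_right (mul_le_mul_of_nonneg_right (wU.trans hAk) hq0) hn0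
        linarith
      linarith
    calc L * S' * k00 * ((u + 1) * w) = L * S' * (k00 * ((u + 1) * w)) := by ring
      _ ≤ L * S' * (2 * (τ * n)) := mul_le_mul_of_nonneg_left h1 hM0
      _ ≤ n * (2 * (τ * n)) := mul_le_mul_of_nonneg_right hM (by linarith)
      _ = 2 * (n * (τ * n)) := by ring
  have t3 : L * S' * (c0 * (L * (P - S') + clsN (N + 1) ρw r κ L P S' C₀ k E ek εA)) * ((u + 1) * w) ≤
      5 * (n * (τ * n)) := by
    have hcl0 : 0 ≤ clsN (N + 1) ρw r κ L P S' C₀ k E ek εA := by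
      unfold clsN
      rw [← hlr]
      positivity
    have h1 : c0 * ((u + 1) * w) ≤ A := (mul_le_mul_of_nonneg_right h0' hv0).trans wA
    have h3 : A * (L * (P - S')) ≤ τ * n / 1000 := (mul_le_mul_of_nonneg_right hAk (by positivity)).trans j_gap
    have h4 : c0 * ((u + 1) * w) * (L * (P - S') + clsN (N + 1) ρw r κ L P S' C₀ k E ek εA) ≤ 5 * (τ * n) := by
      refine (mul_le_mul_of_nonneg_right h1 (by positivity)).trans ?_
      rw [mul_add]
      linarith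
    have h5 : 0 ≤ c0 * ((u + 1) * w) * (L * (P - S') + clsN (N + 1) ρw r κ L P S' C₀ k E ek εA) := by positivity
    calc L * S' * (c0 * (L * (P - S') + clsN (N + 1) ρw r κ L P S' C₀ k E ek εA)) * ((u + 1) * w)
        = L * S' * (c0 * ((u + 1) * w) * (L * (P - S') + clsN (N + 1) ρw r κ L P S' C₀ k E ek εA)) := by ring
      _ ≤ n * (5 * (τ * n)) := mul_le_mul hM h4 h5 hn0
      _ = 5 * (n * (τ * n)) := by ring
  have t4 : k * (L * S' * (cd * (K * (2 * ek + (2 * E + 8 * K * (E + 4 * ((N + 1 : ℕ) : ℝ) +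
      (ek + ((N + 1 : ℕ) : ℝ)))))))) * ((u + 1) * w) ≤ n * (τ * n) := by
    obtain ⟨d, hd⟩ : ∃ d : ℝ, d = 2 * ek + (2 * E + 8 * K * (E + 4 * ((N + 1 : ℕ) : ℝ) + (ek + ((N + 1 : ℕ) : ℝ)))) :=
      ⟨_, rfl⟩
    rw [← hd]
    have hd0 : 0 ≤ d := by
      rw [hd]
      positivity
    have h1 : d ≤ 40 * (K + 1) * (E + ek + ((N + 1 : ℕ) : ℝ)) := by
      rw [hd]
      have e1 : 40 * ((K : ℝ) + 1) * (E + ek + ((N + 1 : ℕ) : ℝ)) = (2 * ek + (2 * E + 8 * K *
          (E + 4 * ((N + 1 : ℕ) : ℝ) + (ek + ((N + 1 : ℕ) : ℝ))))) +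
          (32 * (K * E) + 32 * (K * ek) + 38 * E + 38 * ek + 40 * ((N + 1 : ℕ) : ℝ)) := by ring
      rw [e1]
      have : 0 ≤ 32 * ((K : ℝ) * E) + 32 * (K * ek) + 38 * E + 38 * ek + 40 * ((N + 1 : ℕ) : ℝ) := by positivity
      linarith
    have h2 : (k : ℝ) * (K * K) * d ≤ 40 * (kK * (E + ek + ((N + 1 : ℕ) : ℝ))) := by
      calc (k : ℝ) * (K * K) * d ≤ (k * (K * K)) * (40 * (K + 1) * (E + ek + ((N + 1 : ℕ) : ℝ))) :=
            mul_le_mul_of_nonneg_left h1 (by positivity)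
        _ = 40 * ((k * (K ^ 2 * (K + 1))) * (E + ek + ((N + 1 : ℕ) : ℝ))) := by ring
        _ ≤ 40 * (kK * (E + ek + ((N + 1 : ℕ) : ℝ))) := by
          apply mul_le_mul_of_nonneg_left _ (by norm_num)
          exact mul_le_mul_of_nonneg_right hkK3 (by positivity)
    have h3 : cd * ((u + 1) * w) ≤ A * K := by
      refine (mul_le_mul_of_nonneg_right hcd hv0).trans ?_
      calc u * K * ((u + 1) * w) = (u * ((u + 1) * w)) * K := by ring
        _ ≤ A * K := mul_le_mul_of_nonneg_right wC hK0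
    have h4 : (cd * ((u + 1) * w)) * (k * K * d) ≤ τ * n := by
      calc (cd * ((u + 1) * w)) * (k * K * d) ≤ (A * K) * (k * K * d) := mul_le_mul_of_nonneg_right h3 (by positivity)
        _ = A * (k * (K * K) * d) := by ring
        _ ≤ A * (40 * (kK * (E + ek + ((N + 1 : ℕ) : ℝ)))) := mul_le_mul_of_nonneg_left h2 hA0
        _ = 40 * (A * kK * (E + ek + ((N + 1 : ℕ) : ℝ))) := by ring
        _ ≤ τ * n := by linarith
    calc k * (L * S' * (cd * (K * d))) * ((u + 1) * w) = L * S' * ((cd * ((u + 1) * w)) * (k * K * d)) := by ring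
      _ ≤ n * (τ * n) := mul_le_mul hM h4 (by positivity) hn0
  have t4' : k * (L * S' * ce) * ((u + 1) * w) ≤ n * (τ * n) := by
    have h1 : k * (ce * ((u + 1) * w)) ≤ τ * n := by
      refine le_trans (mul_le_mul_of_nonneg_left (mul_le_mul_of_nonneg_right hce hv0) hk0) ueT
    calc k * (L * S' * ce) * ((u + 1) * w) = L * S' * (k * (ce * ((u + 1) * w))) := by ring
      _ ≤ L * S' * (τ * n) := mul_le_mul_of_nonneg_left h1 hM0
      _ ≤ n * (τ * n) := mul_le_mul_of_nonneg_right hM hτn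
  have t5 : k * (cT * (L * S' * (8 * K * δ) + 8 * K * Xo)) * ((u + 1) * w) ≤ n * (τ * n) := by
    have h1 : cT * ((u + 1) * w) ≤ 3 * n * A := by
      refine (mul_le_mul_of_nonneg_right hcT hv0).trans ?_
      calc 3 * (u + 1) * w * n * ((u + 1) * w) = 3 * n * ((u + 1) * w * ((u + 1) * w)) := by ring
        _ ≤ 3 * n * A := mul_le_mul_of_nonneg_left wU (by positivity)
    have h2 : k * (L * S' * (8 * K * δ) + 8 * K * Xo) ≤ kK * (8 * (L * S' * δ + Xo)) := by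
      have e1 : k * (L * S' * (8 * K * δ) + 8 * K * Xo) = (k * K) * (8 * (L * S' * δ + Xo)) := by ring
      rw [e1]
      exact mul_le_mul_of_nonneg_right hkKK (by positivity)
    have h3 : A * (kK * (8 * (L * S' * δ + Xo))) ≤ 16 * (τ * n / 1000) := by
      have e1 : A * (kK * (8 * (L * S' * δ + Xo))) = 8 * (A * kK * (L * S' * δ)) + 8 * (A * kK * Xo) := by ring
      rw [e1]
      linarith
    calc k * (cT * (L * S' * (8 * K * δ) + 8 * K * Xo)) * ((u + 1) * w)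
        = (cT * ((u + 1) * w)) * (k * (L * S' * (8 * K * δ) + 8 * K * Xo)) := by ring
      _ ≤ (3 * n * A) * (kK * (8 * (L * S' * δ + Xo))) := mul_le_mul h1 h2 (by positivity) (by positivity)
      _ = 3 * n * (A * (kK * (8 * (L * S' * δ + Xo)))) := by ring
      _ ≤ 3 * n * (16 * (τ * n / 1000)) := mul_le_mul_of_nonneg_left h3 (by positivity)
      _ = 48 / 1000 * (n * (τ * n)) := by ring
      _ ≤ n * (τ * n) := by linarith
  have t6 : k * (cn * (64 * 2 ^ ρw * (ρw * (ek + L * lr)))) * ((u + 1) * w) ≤ n * (τ * n) := by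
    have h1 : cn * ((u + 1) * w) ≤ n * A := by
      refine (mul_le_mul_of_nonneg_right hcn hv0).trans ?_
      calc (u + 1) * w * n * ((u + 1) * w) = n * ((u + 1) * w * ((u + 1) * w)) := by ring
        _ ≤ n * A := mul_le_mul_of_nonneg_left wU hn0
    have h2 : (k : ℝ) * (64 * 2 ^ ρw * (ρw * (ek + L * lr))) ≤ kK * (64 * 2 ^ ρw * (ρw * (ek + L * lr))) :=
      mul_le_mul_of_nonneg_right hkk (by positivity)
    calc k * (cn * (64 * 2 ^ ρw * (ρw * (ek + L * lr)))) * ((u + 1) * w)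
        = (cn * ((u + 1) * w)) * (k * (64 * 2 ^ ρw * (ρw * (ek + L * lr)))) := by ring
      _ ≤ (n * A) * (kK * (64 * 2 ^ ρw * (ρw * (ek + L * lr)))) := mul_le_mul h1 h2 (by positivity) (by positivity)
      _ = n * (A * kK * (64 * 2 ^ ρw * (ρw * (ek + L * lr)))) := by ring
      _ ≤ n * (τ * n / 1000) := mul_le_mul_of_nonneg_left j_nod hn0
      _ = n * (τ * n) / 1000 := by ring
      _ ≤ n * (τ * n) := hthou _ hτn2
  have t7 : L * (P - S') * (R * I) * ((u + 1) * w) ≤ n * (τ * n) := by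
    have h3 : A * (L * (P - S')) ≤ τ * n / 1000 := (mul_le_mul_of_nonneg_right hAk (by positivity)).trans j_gap
    have h4 : (R * ((u + 1) * w)) * (L * (P - S')) ≤ τ * n / 1000 :=
      (mul_le_mul_of_nonneg_right wR (by positivity)).trans h3
    calc L * (P - S') * (R * I) * ((u + 1) * w) = I * ((R * ((u + 1) * w)) * (L * (P - S'))) := by ring
      _ ≤ n * (τ * n / 1000) := mul_le_mul hI' h4 (by positivity) hn0
      _ = n * (τ * n) / 1000 := by ring
      _ ≤ n * (τ * n) := hthou _ hτn2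
  obtain ⟨cl, hcl⟩ : ∃ cl : ℝ, cl = L * (P - S') + clsN (N + 1) ρw r κ L P S' C₀ k E ek εA := ⟨_, rfl⟩
  obtain ⟨d, hd⟩ : ∃ d : ℝ, d = K * (2 * ek + (2 * E + 8 * K * (E + 4 * ((N + 1 : ℕ) : ℝ) +
      (ek + ((N + 1 : ℕ) : ℝ))))) := ⟨_, rfl⟩
  obtain ⟨x, hx⟩ : ∃ x : ℝ, x = L * S' * (8 * K * δ) + 8 * K * Xo := ⟨_, rfl⟩
  obtain ⟨y, hy⟩ : ∃ y : ℝ, y = 64 * 2 ^ ρw * (ρw * (ek + L * lr)) := ⟨_, rfl⟩
  rw [← hcl] at t3 ⊢
  rw [← hd] at t4 ⊢
  rw [← hx] at t5 ⊢
  rw [← hy] at t6 ⊢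
  have esum : (L * S' * (c0 * cl + k00) + k * (L * S' * (cd * d + ce) + cT * x + cn * y) + L * (P - S') * (R * I)) *
      ((u + 1) * w) = L * S' * k00 * ((u + 1) * w) + L * S' * (c0 * cl) * ((u + 1) * w) +
      k * (L * S' * (cd * d)) * ((u + 1) * w) + k * (L * S' * ce) * ((u + 1) * w) + k * (cT * x) * ((u + 1) * w) +
      k * (cn * y) * ((u + 1) * w) + L * (P - S') * (R * I) * ((u + 1) * w) := by ring
  rw [esum]
  have e2 : 20 * τ * (n : ℝ) ^ 2 = 20 * (n * (τ * n)) := by ring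
  rw [e2]
  linarith

end

end Pool.Agent.Helper22.FW
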