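import Pool.Agent.Helper22.FW.Co1
import Pool.Agent.Helper70.FW.Stw

/-!
# Theorem FW: the weak form of the vertex-quotient theorem in all dimensions
-/

set_option autoImplicit false

namespace Pool.Agent.Helper22.FW

open Pool.Agent.Helper61.FW Pool.Agent.Helper70.FW

/-- **THEOREM FW IN FINITE FORM**, all dimensions (zero included) -/
theorem topf (N : ℕ) (ρ : ℝ) (hρ : 0 < ρ) (hρ1 : ρ ≤ 1) : TOPF N ρ 0 (ρ ^ 2 / 256) := by
  rcases Nat.eq_zero_or_pos N with h | h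
  · rw [h]
    exact topf_zero _ _ _
  · exact topf_all h hρ hρ1

/-- **THEOREM FW** -/
theorem wvq : ∀ (N : ℕ) (ρ : ℝ), 0 < ρ → ρ ≤ 1 → ∃ θ : ℝ, 0 < θ ∧ θ ≤ 1 ∧ Pool.Agent.Helper38.NS.WVQ N ρ θ :=
  wvq_all topf

end Pool.Agent.Helper22.FW
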